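import Mathlib

set_option autoImplicit false

/-!
A lemma on weighted vector configurations: if every level set of an integer weight is linearly
independent, a basis of maximal weight and a basis of minimal weight differ in weight by at least
the number of redundant vectors.
-/

namespace Pool.Agent.MP_60c1b5_an.H73

open Module Submodule

variable {ι V : Type} [Fintype ι] [DecidableEq ι] [AddCommGroup V] [Module ℚ V]

/-- Rank of a set of indices. -/
noncomputable def rk (v : ι → V) (s : Finset ι) : ℕ := finrank ℚ (span ℚ (v '' (s : Set ι)))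

omit [DecidableEq ι] [Fintype ι] in
theorem rk_indep (v : ι → V) (s : Finset ι) (h : LinearIndepOn ℚ v (s : Set ι)) :
    rk v s = s.card := by
  have h1 := finrank_span_eq_card (R := ℚ) (b := fun x : (s : Set ι) => v x) h
  rw [← Set.image_eq_range] at h1
  rw [rk, h1]
  simp

theorem flag_basis (v : ι → V) (A : ℕ → Finset ι) (hA : Monotone A) (n : ℕ) :
    ∃ P : Finset ι, P ⊆ A n ∧ LinearIndepOn ℚ v (P : Set ι) ∧
      ∀ k ≤ n, v '' (A k : Set ι) ⊆ span ℚ (v '' ((P ∩ A k : Finset ι) : Set ι)) := by
  induction n with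
  | zero =>
    obtain ⟨b, hb, -, hs, hi⟩ := exists_linearIndepOn_extension (K := ℚ) (v := v)
      (linearIndepOn_empty ℚ v) (Set.empty_subset (A 0 : Set ι))
    refine ⟨b.toFinite.toFinset, ?_, by simpa using hi, ?_⟩
    · intro x hx
      simpa using hb (by simpa using hx)
    · intro k hk
      obtain rfl : k = 0 := by omega
      have : ((b.toFinite.toFinset ∩ A 0 : Finset ι) : Set ι) = b := by
        ext x
        simp only [Finset.coe_inter, Set.Finite.coe_toFinset, Set.mem_inter_iff]
        exact ⟨fun h => h.1, fun h => ⟨h, hb h⟩⟩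
      rwa [this]
  | succ n ih =>
    obtain ⟨P, hP, hPi, hPs⟩ := ih
    obtain ⟨b, hb, hPb, hs, hi⟩ := exists_linearIndepOn_extension (K := ℚ) (v := v) hPi
      (t := (A (n + 1) : Set ι)) (by
        intro x hx
        exact hA (Nat.le_succ n) (hP hx))
    refine ⟨b.toFinite.toFinset, ?_, by simpa using hi, ?_⟩
    · intro x hx
      simpa using hb (by simpa using hx)
    · intro k hk
      rcases Nat.lt_or_eq_of_le hk with h | rfl
      · refine (hPs k (by omega)).trans (span_mono (Set.image_mono ?_))
        intro x hx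
        simp only [Finset.coe_inter, Set.Finite.coe_toFinset, Set.mem_inter_iff] at hx ⊢
        exact ⟨hPb hx.1, hx.2⟩
      · have : ((b.toFinite.toFinset ∩ A (n + 1) : Finset ι) : Set ι) = b := by
          ext x
          simp only [Finset.coe_inter, Set.Finite.coe_toFinset, Set.mem_inter_iff]
          exact ⟨fun h => h.1, fun h => ⟨h, hb h⟩⟩
        rwa [this]

omit [Fintype ι] in
theorem flag_card (v : ι → V) (P A : Finset ι) (hP : LinearIndepOn ℚ v (P : Set ι))
    (h : v '' (A : Set ι) ⊆ span ℚ (v '' ((P ∩ A : Finset ι) : Set ι))) :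
    (P ∩ A).card = rk v A := by
  have e : span ℚ (v '' ((P ∩ A : Finset ι) : Set ι)) = span ℚ (v '' (A : Set ι)) :=
    le_antisymm (span_mono (Set.image_mono (by simp))) (span_le.2 h)
  rw [← rk_indep v (P ∩ A) (hP.mono (by simp)), rk, rk, e]

omit [Fintype ι] in
theorem rk_submod (v : ι → V) (A B : Finset ι) :
    rk v (A ∪ B) + rk v (A ∩ B) ≤ rk v A + rk v B := by
  have : FiniteDimensional ℚ (span ℚ (v '' (A : Set ι))) :=
    FiniteDimensional.span_of_finite ℚ (A.finite_toSet.image v)
  have : FiniteDimensional ℚ (span ℚ (v '' (B : Set ι))) :=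
    FiniteDimensional.span_of_finite ℚ (B.finite_toSet.image v)
  have h := Submodule.finrank_sup_add_finrank_inf_eq (span ℚ (v '' (A : Set ι)))
    (span ℚ (v '' (B : Set ι)))
  have h1 : span ℚ (v '' ((A ∪ B : Finset ι) : Set ι)) =
      span ℚ (v '' (A : Set ι)) ⊔ span ℚ (v '' (B : Set ι)) := by
    rw [Finset.coe_union, Set.image_union, span_union]
  have h2 : rk v (A ∩ B) ≤
      finrank ℚ ↥(span ℚ (v '' (A : Set ι)) ⊓ span ℚ (v '' (B : Set ι))) := by
    apply Submodule.finrank_mono
    exact le_inf (span_mono (Set.image_mono (by simp))) (span_mono (Set.image_mono (by simp)))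
  unfold rk at *
  rw [h1]
  omega

omit [Fintype ι] [DecidableEq ι] in
theorem sum_eq_levels (b : ι → ℕ) (B : ℕ) (hb : ∀ τ, b τ ≤ B) (P : Finset ι) :
    ∑ τ ∈ P, b τ = ∑ k ∈ Finset.range B, (P.filter fun τ => k < b τ).card := by
  simp only [Finset.card_filter]
  rw [Finset.sum_comm]
  refine Finset.sum_congr rfl fun τ _ => ?_
  rw [← Finset.card_filter]
  have : (Finset.range B).filter (fun k => k < b τ) = Finset.range (b τ) := by
    ext k
    have := hb τ
    simp only [Finset.mem_filter, Finset.mem_range]
    omega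
  rw [this, Finset.card_range]

theorem two_bases (v : ι → V) (b : ι → ℕ) (B : ℕ) (hb : ∀ τ, b τ ≤ B)
    (hi : ∀ k, LinearIndepOn ℚ v ((Finset.univ.filter fun τ => b τ = k : Finset ι) : Set ι)) :
    ∃ P P' : Finset ι, LinearIndepOn ℚ v (P : Set ι) ∧ LinearIndepOn ℚ v (P' : Set ι) ∧
      (∀ τ, v τ ∈ span ℚ (v '' (P : Set ι))) ∧ P.card = P'.card ∧
      ∑ τ ∈ P, b τ + Fintype.card ι ≤ ∑ τ ∈ P', b τ + P.card := by
  set A : ℕ → Finset ι := fun k => Finset.univ.filter fun τ => b τ ≤ k with hAdef
  set A' : ℕ → Finset ι := fun k => Finset.univ.filter fun τ => B ≤ b τ + k with hA'def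
  have hA : Monotone A := by
    intro k l hkl τ
    simp only [hAdef, Finset.mem_filter, Finset.mem_univ, true_and]
    omega
  have hA' : Monotone A' := by
    intro k l hkl τ
    simp only [hA'def, Finset.mem_filter, Finset.mem_univ, true_and]
    omega
  obtain ⟨P, -, hPi, hPs⟩ := flag_basis v A hA B
  obtain ⟨P', -, hP'i, hP's⟩ := flag_basis v A' hA' B
  have hAB : A B = Finset.univ := by
    ext τ
    simp [hAdef, hb τ]
  have hA'B : A' B = Finset.univ := by
    ext τ
    simp [hA'def]
  have hr : P.card = rk v Finset.univ := by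
    have := flag_card v P (A B) hPi (hPs B le_rfl)
    rwa [hAB, Finset.inter_univ] at this
  have hr' : P'.card = rk v Finset.univ := by
    have := flag_card v P' (A' B) hP'i (hP's B le_rfl)
    rwa [hA'B, Finset.inter_univ] at this
  refine ⟨P, P', hPi, hP'i, ?_, hr.trans hr'.symm, ?_⟩
  · intro τ
    have := hPs B le_rfl
    rw [hAB, Finset.inter_univ] at this
    exact this ⟨τ, by simp, rfl⟩
  set r := rk v Finset.univ with hrdef
  have e1 : ∑ τ ∈ P, b τ + ∑ k ∈ Finset.range B, rk v (A k) = B * r := by
    rw [sum_eq_levels b B hb, ← Finset.sum_add_distrib]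
    have : ∀ k ∈ Finset.range B, (P.filter fun τ => k < b τ).card + rk v (A k) = r := by
      intro k hk
      rw [← flag_card v P (A k) hPi (hPs k (Finset.mem_range.1 hk).le), ← hr]
      have : P ∩ A k = P.filter fun τ => ¬ k < b τ := by
        ext τ
        simp [hAdef]
      rw [this, Finset.card_filter_add_card_filter_not]
    rw [Finset.sum_congr rfl this]
    simp
  have e2 : ∑ τ ∈ P', b τ = ∑ k ∈ Finset.range B, rk v (A' (B - (k + 1))) := by
    rw [sum_eq_levels b B hb]
    refine Finset.sum_congr rfl fun k hk => ?_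
    have hk' := Finset.mem_range.1 hk
    rw [← flag_card v P' (A' (B - (k + 1))) hP'i (hP's _ (by omega))]
    congr 1
    ext τ
    simp only [hA'def, Finset.mem_filter, Finset.mem_inter, Finset.mem_univ, true_and]
    constructor
    · rintro ⟨h1, h2⟩
      exact ⟨h1, by omega⟩
    · rintro ⟨h1, h2⟩
      exact ⟨h1, by omega⟩
  have e3 : ∀ k ∈ Finset.range (B + 1),
      r + (Finset.univ.filter fun τ => b τ = k).card ≤ rk v (A k) + rk v (A' (B - k)) := by
    intro k hk
    have hk' := Finset.mem_range.1 hk
    have h := rk_submod v (A k) (A' (B - k))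
    have h1 : A k ∪ A' (B - k) = Finset.univ := by
      ext τ
      simp only [hAdef, hA'def, Finset.mem_union, Finset.mem_filter, Finset.mem_univ, true_and,
        iff_true]
      omega
    have h2 : A k ∩ A' (B - k) = Finset.univ.filter fun τ => b τ = k := by
      ext τ
      simp only [hAdef, hA'def, Finset.mem_inter, Finset.mem_filter, Finset.mem_univ, true_and]
      omega
    rw [h1, h2, rk_indep v _ (hi k)] at h
    exact h
  have e4 := Finset.sum_le_sum e3
  have e5 : ∑ k ∈ Finset.range (B + 1), (Finset.univ.filter fun τ => b τ = k).card =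
      Fintype.card ι := by
    rw [← Finset.card_univ]
    symm
    apply Finset.card_eq_sum_card_fiberwise
    intro τ _
    simpa using Nat.lt_succ_of_le (hb τ)
  rw [Finset.sum_add_distrib, Finset.sum_add_distrib, e5, Finset.sum_range_succ (fun k => rk v (A k)),
    Finset.sum_range_succ' (fun k => rk v (A' (B - k))), hAB, Nat.sub_zero, hA'B, ← e2] at e4
  simp only [Finset.sum_const, Finset.card_range, smul_eq_mul] at e4
  rw [hr]
  nlinarith

end Pool.Agent.MP_60c1b5_an.H73
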