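import Mathlib

set_option autoImplicit false

/-!
Rational approximations with denominators `q 2^i 3^j`: the 2-adic gap between two different
approximations of comparable height.
-/

namespace Pool.Agent.MP_60c1b5_an.H73

open Real

/-- `ρ` approximates `x` at scale `m` with denominator dividing `q 2^i 3^j`. -/
def W (M : ℕ) (δ : ℝ) (m : ℕ) (x : ℝ) (ρ : ℚ) (i j q : ℕ) : Prop :=
  i ≤ M * m ∧ j ≤ M * m ∧ 1 ≤ q ∧ (q : ℝ) ≤ exp (δ * m) ∧
    (∃ k : ℤ, (k : ℚ) = q * 2 ^ i * 3 ^ j * ρ) ∧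
    (q : ℝ) * 2 ^ i * 3 ^ j * |x - ρ| ≤ exp (-(m : ℝ))

instance : Fact (Nat.Prime 2) := ⟨Nat.prime_two⟩

theorem one_le_int (t : ℤ) (ht : t ≠ 0) : (1 : ℚ) ≤ |(t : ℚ)| * padicNorm 2 (t : ℚ) := by
  have h1 : ((2 : ℕ) : ℤ) ^ padicValInt 2 t ∣ t := padicValInt_dvd t
  have h2 : ((2 : ℕ) : ℤ) ^ padicValInt 2 t ≤ |t| :=
    Int.le_of_dvd (abs_pos.2 ht) ((dvd_abs _ _).2 h1)
  have h3 : ((2 : ℚ)) ^ padicValInt 2 t ≤ |(t : ℚ)| := by exact_mod_cast h2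
  rw [padicNorm.eq_zpow_of_nonzero (by exact_mod_cast ht), padicValRat.of_int, zpow_neg,
    zpow_natCast, ← div_eq_mul_inv, le_div_iff₀ (by positivity)]
  simpa using h3

theorem norm_two_pow (I : ℕ) : padicNorm 2 ((2 : ℚ) ^ I) = ((2 : ℚ) ^ I)⁻¹ := by
  induction I with
  | zero => simp
  | succ n ih =>
    have h : padicNorm 2 (2 : ℚ) = 2⁻¹ := by
      have := padicNorm.padicNorm_p_of_prime (p := 2)
      simpa using this
    rw [pow_succ, padicNorm.mul, ih, h, mul_inv]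

theorem one_le_dyadic (z : ℚ) (hz : z ≠ 0) (I : ℕ) (t : ℤ) (ht : (t : ℚ) = 2 ^ I * z) :
    1 ≤ |z| * padicNorm 2 z := by
  have ht0 : t ≠ 0 := by
    intro h
    rw [h] at ht
    have : (2 : ℚ) ^ I * z ≠ 0 := mul_ne_zero (by positivity) hz
    exact this (by simpa using ht.symm)
  have h := one_le_int t ht0
  rw [ht, padicNorm.mul, norm_two_pow, abs_mul, abs_of_pos (by positivity : (0 : ℚ) < 2 ^ I)] at h
  have e : (2 : ℚ) ^ I * |z| * (((2 : ℚ) ^ I)⁻¹ * padicNorm 2 z) = |z| * padicNorm 2 z := by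
    field_simp
  rwa [e] at h

theorem norm_three_pow (J : ℕ) : padicNorm 2 ((3 : ℚ) ^ J) = 1 := by
  induction J with
  | zero => simp
  | succ n ih =>
    have h : padicNorm 2 (3 : ℚ) = 1 := by
      have := (padicNorm.nat_eq_one_iff (p := 2) 3).2 (by norm_num)
      simpa using this
    rw [pow_succ, padicNorm.mul, ih, h, mul_one]

theorem norm_le (ρ : ℚ) (q i j : ℕ) (k : ℤ) (hq : 1 ≤ q) (hk : (k : ℚ) = q * 2 ^ i * 3 ^ j * ρ) :
    padicNorm 2 ρ ≤ q * 2 ^ i := by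
  have h1 : padicNorm 2 (k : ℚ) ≤ 1 := padicNorm.of_int k
  rw [hk, padicNorm.mul, padicNorm.mul, padicNorm.mul, norm_two_pow, norm_three_pow] at h1
  have h2 := one_le_int (q : ℤ) (by omega)
  simp only [Int.cast_natCast, Nat.abs_cast] at h2
  have h3 := padicNorm.nonneg (p := 2) ρ
  have h4 : padicNorm 2 (q : ℚ) * padicNorm 2 ρ ≤ 2 ^ i := by
    have e : padicNorm 2 (q : ℚ) * ((2 : ℚ) ^ i)⁻¹ * 1 * padicNorm 2 ρ =
        padicNorm 2 (q : ℚ) * padicNorm 2 ρ / 2 ^ i := by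
      field_simp
    rwa [e, div_le_one (by positivity)] at h1
  have h5 : (0 : ℚ) ≤ q := by positivity
  nlinarith

theorem gap {M m : ℕ} {δ x : ℝ} {ρ ρ' : ℚ} {i j q i' j' q' : ℕ} (hδ : δ ≤ 1 / 8) (hm : 4 ≤ m)
    (h : W M δ m x ρ i j q) (h' : W M δ m x ρ' i' j' q') (hne : ρ ≠ ρ')
    (hA : (q : ℝ) * 2 ^ i * 3 ^ j ≤ exp (m / 2) * (q' * 2 ^ i' * 3 ^ j'))
    (hA' : (q' : ℝ) * 2 ^ i' * 3 ^ j' ≤ exp (m / 2) * (q * 2 ^ i * 3 ^ j))
    (hn : padicNorm 2 ρ ≤ padicNorm 2 ρ') :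
    (padicNorm 2 ρ : ℝ) ≤ 2 * exp (-(m : ℝ) / 4) * padicNorm 2 ρ' := by
  obtain ⟨-, -, hq, hqe, ⟨k, hk⟩, hx⟩ := h
  obtain ⟨-, -, hq', hqe', ⟨k', hk'⟩, hx'⟩ := h'
  have hn1 : (padicNorm 2 ρ : ℝ) ≤ q * 2 ^ i := by exact_mod_cast norm_le ρ q i j k hq hk
  have hn2 : (padicNorm 2 ρ' : ℝ) ≤ q' * 2 ^ i' := by exact_mod_cast norm_le ρ' q' i' j' k' hq' hk'
  set n : ℝ := (padicNorm 2 ρ : ℝ) with hndef
  set n' : ℝ := (padicNorm 2 ρ' : ℝ) with hn'def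
  have hn'0 : 0 ≤ n' := by
    rw [hn'def]
    exact_mod_cast padicNorm.nonneg (p := 2) ρ'
  have hq0 : (0 : ℚ) < q := by exact_mod_cast hq
  have hq0' : (0 : ℚ) < q' := by exact_mod_cast hq'
  have hqR : (0 : ℝ) < q := by exact_mod_cast hq
  have hqR' : (0 : ℝ) < q' := by exact_mod_cast hq'
  have key : ∀ J : ℕ, j ≤ J → j' ≤ J → (1 : ℝ) ≤ q * q' * 3 ^ J * |(ρ : ℝ) - ρ'| * n' := by
    intro J hJ hJ'
    obtain ⟨a, rfl⟩ := Nat.exists_eq_add_of_le hJ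
    obtain ⟨a', ha'⟩ := Nat.exists_eq_add_of_le hJ'
    have hz : (q : ℚ) * q' * 3 ^ (j + a) * (ρ - ρ') ≠ 0 :=
      mul_ne_zero (by positivity) (sub_ne_zero.2 hne)
    have h1 := one_le_dyadic _ hz (i + i') (k * q' * 2 ^ i' * 3 ^ a - k' * q * 2 ^ i * 3 ^ a') (by
      push_cast
      rw [hk, hk']
      have e : (3 : ℚ) ^ (j + a) = 3 ^ j' * 3 ^ a' := by rw [ha', pow_add]
      have e2 : (q' : ℚ) * 2 ^ i' * 3 ^ j' * ρ' * q * 2 ^ i * 3 ^ a' =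
          q' * 2 ^ i' * ρ' * q * 2 ^ i * 3 ^ (j + a) := by
        rw [e]
        ring
      rw [e2]
      ring)
    have h2 : padicNorm 2 ((q : ℚ) * q' * 3 ^ (j + a) * (ρ - ρ')) ≤ padicNorm 2 ρ' := by
      rw [padicNorm.mul]
      have h3 : padicNorm 2 ((q : ℚ) * q' * 3 ^ (j + a)) ≤ 1 := by
        have := padicNorm.of_nat (p := 2) (q * q' * 3 ^ (j + a))
        simpa using this
      have h4 : padicNorm 2 (ρ - ρ') ≤ padicNorm 2 ρ' :=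
        padicNorm.sub.trans (max_le hn le_rfl)
      have h5 := padicNorm.nonneg (p := 2) (ρ - ρ')
      nlinarith
    have h3 : (1 : ℚ) ≤ q * q' * 3 ^ (j + a) * |ρ - ρ'| * padicNorm 2 ρ' := by
      rw [abs_mul, abs_of_pos (by positivity : (0 : ℚ) < q * q' * 3 ^ (j + a))] at h1
      refine h1.trans (mul_le_mul_of_nonneg_left h2 (by positivity))
    rw [hn'def]
    exact_mod_cast h3
  have htri : |(ρ : ℝ) - ρ'| ≤ |x - ρ| + |x - ρ'| := by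
    have := abs_sub_le (ρ : ℝ) x ρ'
    rwa [abs_sub_comm (ρ : ℝ) x] at this
  have hm0 : (4 : ℝ) ≤ m := by exact_mod_cast hm
  have hE1 : 1 ≤ exp ((m : ℝ) / 2) := one_le_exp (by positivity)
  have hqq : (q : ℝ) * q' * (2 * exp (-(m : ℝ) / 2)) ≤ 2 * exp (-(m : ℝ) / 4) := by
    have h1 : (q : ℝ) * q' ≤ exp (δ * m) * exp (δ * m) := mul_le_mul hqe hqe' hqR'.le (by positivity)
    have h2 : exp (δ * m) * exp (δ * m) * exp (-(m : ℝ) / 2) ≤ exp (-(m : ℝ) / 4) := by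
      rw [← exp_add, ← exp_add]
      apply exp_le_exp.2
      nlinarith
    have h3 : 0 < exp (-(m : ℝ) / 2) := exp_pos _
    nlinarith
  have hee : exp ((m : ℝ) / 2) * exp (-(m : ℝ)) = exp (-(m : ℝ) / 2) := by
    rw [← exp_add]
    congr 1
    ring
  have hbound : ∀ A : ℝ, 0 < A → A ≤ exp (m / 2) * (q * 2 ^ i * 3 ^ j) →
      A ≤ exp (m / 2) * (q' * 2 ^ i' * 3 ^ j') → A * |(ρ : ℝ) - ρ'| ≤ 2 * exp (-(m : ℝ) / 2) := by
    intro A hA0 h1 h2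
    have h3 : A * |x - ρ| ≤ exp (m / 2) * exp (-(m : ℝ)) := by
      calc A * |x - ρ| ≤ exp (m / 2) * (q * 2 ^ i * 3 ^ j) * |x - ρ| := by gcongr
        _ = exp (m / 2) * (q * 2 ^ i * 3 ^ j * |x - ρ|) := by ring
        _ ≤ _ := by gcongr
    have h4 : A * |x - ρ'| ≤ exp (m / 2) * exp (-(m : ℝ)) := by
      calc A * |x - ρ'| ≤ exp (m / 2) * (q' * 2 ^ i' * 3 ^ j') * |x - ρ'| := by gcongr
        _ = exp (m / 2) * (q' * 2 ^ i' * 3 ^ j' * |x - ρ'|) := by ring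
        _ ≤ _ := by gcongr
    rw [hee] at h3 h4
    have := mul_le_mul_of_nonneg_left htri hA0.le
    linarith
  rcases le_total j' j with hj | hj
  · have h1 := key j le_rfl hj
    have h2 := hbound (q * 2 ^ i * 3 ^ j) (by positivity)
      (le_mul_of_one_le_left (by positivity) hE1) hA
    have h3 : n ≤ q * 2 ^ i * (q * q' * 3 ^ j * |(ρ : ℝ) - ρ'| * n') :=
      hn1.trans (le_mul_of_one_le_right (by positivity) h1)
    calc n ≤ _ := h3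
      _ = q * q' * (q * 2 ^ i * 3 ^ j * |(ρ : ℝ) - ρ'|) * n' := by ring
      _ ≤ q * q' * (2 * exp (-(m : ℝ) / 2)) * n' := by gcongr
      _ ≤ _ := by gcongr
  · exfalso
    have h1 := key j' hj le_rfl
    have h2 := hbound (q' * 2 ^ i' * 3 ^ j') (by positivity) hA'
      (le_mul_of_one_le_left (by positivity) hE1)
    have h3 : (1 : ℝ) ≤ 2 * exp (-(m : ℝ) / 4) := by
      calc (1 : ℝ) ≤ _ := h1
        _ ≤ q * q' * 3 ^ j' * |(ρ : ℝ) - ρ'| * (q' * 2 ^ i') := by gcongr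
        _ = q * q' * (q' * 2 ^ i' * 3 ^ j' * |(ρ : ℝ) - ρ'|) := by ring
        _ ≤ q * q' * (2 * exp (-(m : ℝ) / 2)) := by gcongr
        _ ≤ _ := hqq
    have h4 : exp (-(m : ℝ) / 4) ≤ exp (-1) := exp_le_exp.2 (by linarith)
    have h5 : exp (-1) * exp 1 = 1 := by rw [← exp_add]; simp
    have h6 : 2 < exp 1 := lt_trans (by norm_num) exp_one_gt_d9
    have h7 : 0 < exp (-1 : ℝ) := exp_pos _
    nlinarith

end Pool.Agent.MP_60c1b5_an.H73
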