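import Mathlib
import Pool.Agent.MP_60c1b5_an.H73.Arith

set_option autoImplicit false

/-!
Linear algebra used to feed the Subspace Theorem.
-/

namespace Pool.Agent.MP_60c1b5_an.H73

open Submodule

theorem sep_sum_ne_zero {ι : Type} (s : Finset ι) (c ρ : ι → ℚ) (t : ℝ)
    (hρ : ∀ τ ∈ s, ρ τ ≠ 0)
    (hsep : ∀ τ ∈ s, ∀ σ ∈ s, τ ≠ σ → padicNorm 2 (ρ τ) ≤ padicNorm 2 (ρ σ) →
      (padicNorm 2 (ρ τ) : ℝ) ≤ t * padicNorm 2 (ρ σ))
    (hc : ∀ τ ∈ s, ∀ σ ∈ s, c σ ≠ 0 → t * (padicNorm 2 (c τ) : ℝ) < padicNorm 2 (c σ))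
    (h0 : ∑ τ ∈ s, c τ * ρ τ = 0) : ∀ τ ∈ s, c τ = 0 := by
  classical
  by_contra hne
  push Not at hne
  obtain ⟨τ0, hτ0, hc0⟩ := hne
  set s' := s.filter fun τ => c τ ≠ 0 with hs'
  obtain ⟨σ, hσ, hmax⟩ := Finset.exists_max_image s' (fun τ => padicNorm 2 (ρ τ))
    ⟨τ0, Finset.mem_filter.2 ⟨hτ0, hc0⟩⟩
  obtain ⟨hσs, hcσ⟩ := Finset.mem_filter.1 hσ
  have h1 : ∑ τ ∈ s', c τ * ρ τ = 0 := by
    rw [← h0, hs', Finset.sum_filter_of_ne]
    intro τ _ h h'
    exact h (by rw [h', zero_mul])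
  rw [← Finset.add_sum_erase s' _ hσ] at h1
  have hpos : ∀ z : ℚ, z ≠ 0 → 0 < padicNorm 2 z := fun z hz =>
    lt_of_le_of_ne (padicNorm.nonneg z) (padicNorm.nonzero hz).symm
  have h2 : padicNorm 2 (∑ τ ∈ s'.erase σ, c τ * ρ τ) < padicNorm 2 (c σ * ρ σ) := by
    apply padicNorm.sum_lt' _ (hpos _ (mul_ne_zero hcσ (hρ σ hσs)))
    intro τ hτ
    obtain ⟨hτσ, hτ'⟩ := Finset.mem_erase.1 hτ
    have hτs := (Finset.mem_filter.1 hτ').1
    have h3 := hsep τ hτs σ hσs hτσ (hmax τ hτ')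
    have h4 := hc τ hτs σ hσs hcσ
    have h5 : (0 : ℝ) < padicNorm 2 (ρ σ) := by exact_mod_cast hpos _ (hρ σ hσs)
    have h6 : (0 : ℝ) ≤ padicNorm 2 (c τ) := by exact_mod_cast padicNorm.nonneg (c τ)
    have h7 : (padicNorm 2 (c τ) : ℝ) * padicNorm 2 (ρ τ) <
        padicNorm 2 (c σ) * padicNorm 2 (ρ σ) := by
      calc (padicNorm 2 (c τ) : ℝ) * padicNorm 2 (ρ τ)
          ≤ padicNorm 2 (c τ) * (t * padicNorm 2 (ρ σ)) := by gcongr
        _ = t * padicNorm 2 (c τ) * padicNorm 2 (ρ σ) := by ring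
        _ < _ := by gcongr
    rw [padicNorm.mul, padicNorm.mul]
    exact_mod_cast h7
  have h3 : ∑ τ ∈ s'.erase σ, c τ * ρ τ = -(c σ * ρ σ) := by linarith
  rw [h3, padicNorm.neg] at h2
  exact lt_irrefl _ h2

theorem exists_matrix {ι V : Type} [DecidableEq ι] [AddCommGroup V] [Module ℚ V] (v : ι → V)
    (P P' : Finset ι) (hP' : LinearIndepOn ℚ v (P' : Set ι))
    (hsp : ∀ τ, v τ ∈ span ℚ (v '' (P : Set ι))) (r : ℕ) (e : Fin r ≃ P) (e' : Fin r ≃ P')
    (a0 : Fin r) :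
    ∃ L : Matrix (Fin r) (Fin r) ℚ, L.det ≠ 0 ∧
      ∀ a, ∑ c, L a c • v (e c) = if a = a0 then v (e' a0) else v (e' a) - v (e' a0) := by
  have hrange : v '' (P : Set ι) = Set.range fun c : Fin r => v (e c) := by
    ext y
    constructor
    · rintro ⟨τ, hτ, rfl⟩
      exact ⟨e.symm ⟨τ, hτ⟩, by simp⟩
    · rintro ⟨c, rfl⟩
      exact ⟨e c, (e c).2, rfl⟩
  have hmem : ∀ a, (if a = a0 then v (e' a0) else v (e' a) - v (e' a0)) ∈
      span ℚ (Set.range fun c : Fin r => v (e c)) := by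
    intro a
    rw [← hrange]
    split_ifs
    · exact hsp _
    · exact sub_mem (hsp _) (hsp _)
  choose L hL using fun a => (mem_span_range_iff_exists_fun ℚ).1 (hmem a)
  refine ⟨Matrix.of L, ?_, hL⟩
  intro hdet
  obtain ⟨y, hy0, hy⟩ := Matrix.exists_vecMul_eq_zero_iff.2 hdet
  have h1 : ∑ a, y a • (if a = a0 then v (e' a0) else v (e' a) - v (e' a0)) = 0 := by
    simp only [← hL, Finset.smul_sum, smul_smul]
    rw [Finset.sum_comm]
    apply Finset.sum_eq_zero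
    intro c _
    rw [← Finset.sum_smul]
    have := congrFun hy c
    simp only [Matrix.vecMul, dotProduct, Matrix.of_apply, Pi.zero_apply] at this
    rw [this, zero_smul]
  have hi : LinearIndependent ℚ fun a : Fin r => v (e' a) := hP'.comp e' e'.injective
  rw [Fintype.linearIndependent_iff] at hi
  set S := ∑ a ∈ Finset.univ.erase a0, y a with hS
  have h2 : ∑ a, (if a = a0 then y a0 - S else y a) • v (e' a) = 0 := by
    rw [← Finset.add_sum_erase _ _ (Finset.mem_univ a0)] at h1 ⊢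
    have e1 : ∑ a ∈ Finset.univ.erase a0, y a • (if a = a0 then v (e' a0) else v (e' a) - v (e' a0))
        = ∑ a ∈ Finset.univ.erase a0, y a • v (e' a) - S • v (e' a0) := by
      rw [hS, Finset.sum_smul, ← Finset.sum_sub_distrib]
      refine Finset.sum_congr rfl fun a ha => ?_
      rw [if_neg (Finset.mem_erase.1 ha).1, smul_sub]
    have e2 : ∑ a ∈ Finset.univ.erase a0, (if a = a0 then y a0 - S else y a) • v (e' a)
        = ∑ a ∈ Finset.univ.erase a0, y a • v (e' a) := by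
      refine Finset.sum_congr rfl fun a ha => ?_
      rw [if_neg (Finset.mem_erase.1 ha).1]
    rw [e1, if_pos rfl] at h1
    rw [e2, if_pos rfl, sub_smul, ← h1]
    abel
  have h3 := hi _ h2
  have h4 : ∀ a, a ≠ a0 → y a = 0 := by
    intro a ha
    have := h3 a
    rwa [if_neg ha] at this
  have h5 : S = 0 := Finset.sum_eq_zero fun a ha => h4 a (Finset.mem_erase.1 ha).1
  apply hy0
  funext a
  by_cases ha : a = a0
  · have := h3 a0
    rw [if_pos rfl, h5, sub_zero] at this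
    rw [ha, this]
    rfl
  · exact h4 a ha

end Pool.Agent.MP_60c1b5_an.H73
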