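import Mathlib
import Pool.Agent.MP_077ac3_nt.H18.Main
import Pool.Agent.MP_60c1b5_an.H73.Flag
import Pool.Agent.MP_60c1b5_an.H73.Lin

set_option autoImplicit false

/-!
At one scale, a real number has boundedly many very good rational approximations whose
denominators are a small integer times `2^i 3^j`.  Proof by the Subspace Theorem.
-/

namespace Pool.Agent.MP_60c1b5_an.H73

open Real Filter Submodule

theorem level (A t : ℝ) (B : ℕ) (h1 : 1 ≤ A) (h2 : A ≤ exp (t * (B + 1))) :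
    ∃ k : Fin (B + 1), exp (t * (k : ℕ)) ≤ A ∧ A ≤ exp (t * ((k : ℕ) + 1)) := by
  induction B with
  | zero => exact ⟨0, by simpa using h1, by simpa using h2⟩
  | succ n ih =>
    by_cases h : A ≤ exp (t * (n + 1))
    · obtain ⟨k, hk⟩ := ih h
      exact ⟨k.castSucc, by simpa using hk⟩
    · exact ⟨Fin.last _, by simpa using (not_le.1 h).le, by simpa using h2⟩

theorem six_pow_le (n : ℕ) : (6 : ℝ) ^ n ≤ exp (2 * n) := by
  have h : (6 : ℝ) ≤ exp 2 := by
    have h1 : exp 2 = exp 1 * exp 1 := by rw [← exp_add]; norm_num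
    have h2 := exp_one_gt_d9
    rw [h1]
    nlinarith
  rw [mul_comm, exp_nat_mul]
  gcongr

theorem height_le {M m : ℕ} {δ x : ℝ} {ρ : ℚ} {i j q : ℕ} (hδ : δ ≤ 1)
    (h : W M δ m x ρ i j q) :
    1 ≤ (q : ℝ) * 2 ^ i * 3 ^ j ∧
      (q : ℝ) * 2 ^ i * 3 ^ j ≤ exp (m / 2 * (((4 * M + 1 : ℕ) : ℝ) + 1)) := by
  obtain ⟨hi, hj, hq, hqe, -, -⟩ := h
  have hq1 : (1 : ℝ) ≤ q := by exact_mod_cast hq
  constructor
  · have h2 : (1 : ℝ) ≤ 2 ^ i := one_le_pow₀ (by norm_num)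
    have h3 : (1 : ℝ) ≤ 3 ^ j := one_le_pow₀ (by norm_num)
    exact one_le_mul_of_one_le_of_one_le (one_le_mul_of_one_le_of_one_le hq1 h2) h3
  · have h2 : (2 : ℝ) ^ i ≤ 2 ^ (M * m) := pow_le_pow_right₀ (by norm_num) hi
    have h3 : (3 : ℝ) ^ j ≤ 3 ^ (M * m) := pow_le_pow_right₀ (by norm_num) hj
    have h6 := six_pow_le (M * m)
    have hm : (0 : ℝ) ≤ m := by positivity
    calc (q : ℝ) * 2 ^ i * 3 ^ j ≤ exp (δ * m) * 2 ^ (M * m) * 3 ^ (M * m) := by gcongr
      _ = exp (δ * m) * 6 ^ (M * m) := by rw [mul_assoc, ← mul_pow]; norm_num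
      _ ≤ exp (δ * m) * exp (2 * (M * m : ℕ)) := by gcongr
      _ ≤ _ := by
        rw [← exp_add]
        apply exp_le_exp.2
        push_cast
        nlinarith

theorem coord {M m : ℕ} {δ x : ℝ} {ρ : ℚ} {i j q Q : ℕ} (h : W M δ m x ρ i j q) (hQ : q ∣ Q) :
    ((((Q : ℚ) * 6 ^ (M * m) * ρ).num : ℤ) : ℚ) = Q * 6 ^ (M * m) * ρ ∧
      ((2 ^ (M * m - i) * 3 ^ (M * m - j) : ℕ) : ℤ) ∣ ((Q : ℚ) * 6 ^ (M * m) * ρ).num := by
  obtain ⟨hi, hj, -, -, ⟨k, hk⟩, -⟩ := h
  obtain ⟨u, rfl⟩ := hQ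
  have e : ((q * u : ℕ) : ℚ) * 6 ^ (M * m) * ρ =
      (((2 ^ (M * m - i) * 3 ^ (M * m - j) : ℕ) * (u * k) : ℤ) : ℚ) := by
    have e6 : (6 : ℚ) ^ (M * m) = 2 ^ (M * m - i) * 2 ^ i * (3 ^ (M * m - j) * 3 ^ j) := by
      rw [← pow_add, ← pow_add, Nat.sub_add_cancel hi, Nat.sub_add_cancel hj, ← mul_pow]
      norm_num
    rw [e6]
    push_cast
    rw [hk]
    ring
  rw [e, Rat.num_intCast]
  exact ⟨rfl, Dvd.intro _ rfl⟩

theorem divisor_ge {M m : ℕ} {δ x : ℝ} {ρ : ℚ} {i j q : ℕ} (h : W M δ m x ρ i j q) (y : ℝ)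
    (hy : (q : ℝ) * 2 ^ i * 3 ^ j ≤ exp y) :
    (6 : ℝ) ^ (M * m) * exp (-y) ≤ ((2 ^ (M * m - i) * 3 ^ (M * m - j) : ℕ) : ℝ) := by
  obtain ⟨hi, hj, hq, -, -, -⟩ := h
  have hq1 : (1 : ℝ) ≤ q := by exact_mod_cast hq
  have e6 : (6 : ℝ) ^ (M * m) = 2 ^ (M * m - i) * 3 ^ (M * m - j) * (2 ^ i * 3 ^ j) := by
    rw [mul_mul_mul_comm, ← pow_add, ← pow_add, Nat.sub_add_cancel hi, Nat.sub_add_cancel hj,
      ← mul_pow]
    norm_num
  have h1 : (2 : ℝ) ^ i * 3 ^ j ≤ exp y := by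
    refine le_trans ?_ hy
    rw [mul_assoc]
    exact le_mul_of_one_le_left (by positivity) hq1
  rw [e6, exp_neg, mul_assoc]
  push_cast
  apply mul_le_of_le_one_right (by positivity)
  rw [← div_eq_mul_inv, div_le_one (exp_pos _)]
  exact h1

theorem close {M m : ℕ} {δ x : ℝ} {ρ : ℚ} {i j q : ℕ} (h : W M δ m x ρ i j q) (y : ℝ)
    (hy : exp y ≤ (q : ℝ) * 2 ^ i * 3 ^ j) : |x - ρ| ≤ exp (-(m : ℝ) - y) := by
  obtain ⟨-, -, -, -, -, hx⟩ := h
  rw [exp_sub, le_div_iff₀ (exp_pos _), mul_comm]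
  exact (mul_le_mul_of_nonneg_right hy (abs_nonneg _)).trans hx

/-- Sequences vanishing along the ultrafilter. -/
def nullSeq (U : Ultrafilter ℕ) : Submodule ℚ (ℕ → ℚ) where
  carrier := {f | ∀ᶠ m in (U : Filter ℕ), f m = 0}
  add_mem' := by
    intro f g hf hg
    filter_upwards [hf, hg] with m h1 h2
    simp [h1, h2]
  zero_mem' := by simp
  smul_mem' := by
    intro c f hf
    filter_upwards [hf] with m h1
    simp [h1]

theorem mk_eq_iff (U : Ultrafilter ℕ) (f g : ℕ → ℚ) :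
    (nullSeq U).mkQ f = (nullSeq U).mkQ g ↔ ∀ᶠ m in (U : Filter ℕ), f m = g m := by
  rw [mkQ_apply, mkQ_apply, Submodule.Quotient.eq]
  change (∀ᶠ m in (U : Filter ℕ), (f - g) m = 0) ↔ _
  simp only [Pi.sub_apply, sub_eq_zero]

theorem sum_mk {κ : Type} (U : Ultrafilter ℕ) (s : Finset κ) (c : κ → ℚ) (f : κ → ℕ → ℚ) :
    ∑ a ∈ s, c a • (nullSeq U).mkQ (f a) = (nullSeq U).mkQ (fun m => ∑ a ∈ s, c a * f a m) := by
  simp only [← map_smul, ← map_sum]
  congr 1
  funext m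
  simp [Finset.sum_apply]

theorem core (M : ℕ) (δ : ℝ) (hδ : δ = 1 / (2 * ((4 * M + 7 : ℕ) : ℝ) ^ 2))
    (U : Ultrafilter ℕ) (hU : (U : Filter ℕ) ≤ atTop) (x : ℕ → ℝ)
    (ρ : ℕ → Fin (4 * M + 7) → ℚ) (i j q : ℕ → Fin (4 * M + 7) → ℕ)
    (h : ∀ᶠ m in (U : Filter ℕ), |x m| ≤ 1 ∧ Function.Injective (ρ m) ∧
      ∀ τ, ρ m τ ≠ 0 ∧ W M δ m (x m) (ρ m τ) (i m τ) (j m τ) (q m τ)) : False := by
  classical
  set N : ℝ := ((4 * M + 7 : ℕ) : ℝ) with hN
  have hN7 : 7 ≤ N := by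
    rw [hN]
    exact_mod_cast Nat.le_add_left 7 (4 * M)
  have hN0 : 0 < N := by linarith
  have hδ8 : δ ≤ 1 / 8 := by
    rw [hδ]
    apply one_div_le_one_div_of_le (by norm_num)
    nlinarith
  have hge : ∀ n : ℕ, ∀ᶠ m in (U : Filter ℕ), n ≤ m := fun n => hU (eventually_ge_atTop n)
  -- levels
  have hlev : ∀ τ, ∃ k : Fin (4 * M + 1 + 1), ∀ᶠ m : ℕ in (U : Filter ℕ),
      exp (m / 2 * (k : ℕ)) ≤ (q m τ : ℝ) * 2 ^ i m τ * 3 ^ j m τ ∧
        (q m τ : ℝ) * 2 ^ i m τ * 3 ^ j m τ ≤ exp (m / 2 * ((k : ℕ) + 1)) := by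
    intro τ
    apply Ultrafilter.eventually_exists_iff.1
    filter_upwards [h] with m hm
    obtain ⟨h1, h2⟩ := height_le (by linarith) (hm.2.2 τ).2
    exact level _ _ _ h1 h2
  choose k hk using hlev
  set b : Fin (4 * M + 7) → ℕ := fun τ => (k τ : ℕ) with hb
  have hbB : ∀ τ, b τ ≤ 4 * M + 1 := fun τ => Nat.lt_succ_iff.1 (k τ).2
  have hk' : ∀ᶠ m : ℕ in (U : Filter ℕ), ∀ τ,
      exp (m / 2 * b τ) ≤ (q m τ : ℝ) * 2 ^ i m τ * 3 ^ j m τ ∧
        (q m τ : ℝ) * 2 ^ i m τ * 3 ^ j m τ ≤ exp (m / 2 * (b τ + 1)) := eventually_all.2 hk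
  set v : Fin (4 * M + 7) → (ℕ → ℚ) ⧸ nullSeq U := fun τ => (nullSeq U).mkQ fun m => ρ m τ with hv
  -- independence of the level sets
  have hind : ∀ l, LinearIndepOn ℚ v
      ((Finset.univ.filter fun τ => b τ = l : Finset (Fin (4 * M + 7))) : Set _) := by
    intro l
    rw [linearIndepOn_finset_iff]
    intro c hc
    rw [hv, sum_mk, ← map_zero (nullSeq U).mkQ, mk_eq_iff] at hc
    have hsmall : ∀ τ σ, ∀ᶠ m : ℕ in (U : Filter ℕ), c σ ≠ 0 →
        2 * exp (-(m : ℝ) / 4) * (padicNorm 2 (c τ) : ℝ) < padicNorm 2 (c σ) := by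
      intro τ σ
      by_cases hσ : c σ = 0
      · exact Eventually.of_forall fun m h => absurd hσ h
      · have hpos : (0 : ℝ) < padicNorm 2 (c σ) := by
          exact_mod_cast lt_of_le_of_ne (padicNorm.nonneg _) (padicNorm.nonzero hσ).symm
        have t1 : Tendsto (fun m : ℕ => -(m : ℝ) / 4) atTop atBot :=
          (tendsto_neg_atTop_atBot.comp tendsto_natCast_atTop_atTop).atBot_div_const (by norm_num)
        have t2 := ((tendsto_exp_atBot.comp t1).const_mul 2).mul_const (padicNorm 2 (c τ) : ℝ)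
        rw [mul_zero, zero_mul] at t2
        filter_upwards [hU (t2.eventually (gt_mem_nhds hpos))] with m hm _
        exact hm
    have hsmall' := eventually_all.2 fun τ => eventually_all.2 (hsmall τ)
    obtain ⟨m, h1, h2, h3, h4, h5⟩ := (h.and (hk'.and (hc.and (hsmall'.and (hge 4))))).exists
    refine sep_sum_ne_zero _ c (ρ m) (2 * exp (-(m : ℝ) / 4)) (fun τ _ => (h1.2.2 τ).1) ?_
      (fun τ _ σ _ => h4 τ σ) h3
    intro τ hτ σ hσ hne hn
    have e1 : b τ = l := (Finset.mem_filter.1 hτ).2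
    have e2 : b σ = l := (Finset.mem_filter.1 hσ).2
    have e3 : exp ((m : ℝ) / 2 * (l + 1)) = exp (m / 2) * exp (m / 2 * l) := by
      rw [← exp_add]
      congr 1
      ring
    obtain ⟨a1, a2⟩ := h2 τ
    obtain ⟨a3, a4⟩ := h2 σ
    rw [e1] at a1 a2
    rw [e2] at a3 a4
    rw [e3] at a2 a4
    refine gap hδ8 h5 (h1.2.2 τ).2 (h1.2.2 σ).2 (fun h => hne (h1.2.1 h)) ?_ ?_ hn
    · exact a2.trans (mul_le_mul_of_nonneg_left a3 (exp_pos _).le)
    · exact a4.trans (mul_le_mul_of_nonneg_left a1 (exp_pos _).le)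
  obtain ⟨P, P', hP, hP', hsp, hcard, hsum⟩ := two_bases v b (4 * M + 1) hbB hind
  rw [Fintype.card_fin] at hsum
  obtain ⟨r, hr⟩ : ∃ r, P.card = r := ⟨_, rfl⟩
  have hr' : P'.card = r := hcard ▸ hr
  have hrN : r ≤ 4 * M + 7 := by
    rw [← hr]
    simpa using P.card_le_univ
  have hr0 : r ≠ 0 := by
    rintro rfl
    rw [Finset.card_eq_zero] at hr hr'
    rw [hr, hr'] at hsum
    simp at hsum
  have : Nonempty (Fin r) := ⟨⟨0, Nat.pos_of_ne_zero hr0⟩⟩
  set e : Fin r ≃ P := (Finset.equivFinOfCardEq hr).symm with he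
  set e' : Fin r ≃ P' := (Finset.equivFinOfCardEq hr').symm with he'
  obtain ⟨a0, ha0⟩ := Finite.exists_max fun a => b (e' a)
  obtain ⟨L, hL0, hL⟩ := exists_matrix v P P' hP' hsp r e e' a0
  have hLm : ∀ᶠ m in (U : Filter ℕ), ∀ a, ∑ c, L a c * ρ m (e c) =
      if a = a0 then ρ m (e' a0) else ρ m (e' a) - ρ m (e' a0) := by
    refine eventually_all.2 fun a => ?_
    have h1 := hL a
    rw [hv, sum_mk] at h1
    by_cases ha : a = a0
    · simp only [if_pos ha] at h1 ⊢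
      exact (mk_eq_iff _ _ _).1 h1
    · simp only [if_neg ha] at h1 ⊢
      rw [← map_sub] at h1
      exact (mk_eq_iff _ _ _).1 h1
  set Q : ℕ → ℕ := fun m => ∏ τ, q m τ with hQ
  set X : ℕ → Fin (4 * M + 7) → ℤ := fun m τ => ((Q m : ℚ) * 6 ^ (M * m) * ρ m τ).num with hX
  set lam : Fin r → ℝ := fun a => if a = a0 then 1 / N else 1 / N - 1 - b (e' a) / 2 with hlam
  have hXe : ∀ᶠ m in (U : Filter ℕ), ∀ τ, (X m τ : ℚ) = Q m * 6 ^ (M * m) * ρ m τ ∧
      ((2 ^ (M * m - i m τ) * 3 ^ (M * m - j m τ) : ℕ) : ℤ) ∣ X m τ := by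
    filter_upwards [h] with m hm τ
    exact coord (hm.2.2 τ).2 (Finset.dvd_prod_of_mem _ (Finset.mem_univ τ))
  have hlamsum : ∑ a, lam a + 1 ≤ -∑ c, ((b (e c) : ℝ) + 1) / 2 := by
    have s1 : ∑ c, (b (e c) : ℝ) = ∑ τ ∈ P, (b τ : ℝ) := by
      rw [e.sum_comp fun τ : P => (b τ : ℝ), Finset.sum_coe_sort P fun τ => (b τ : ℝ)]
    have s2 : ∑ c, (b (e' c) : ℝ) = ∑ τ ∈ P', (b τ : ℝ) := by
      rw [e'.sum_comp fun τ : P' => (b τ : ℝ), Finset.sum_coe_sort P' fun τ => (b τ : ℝ)]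
    have s3 : ∑ τ ∈ P, (b τ : ℝ) + N ≤ ∑ τ ∈ P', (b τ : ℝ) + r := by
      rw [hN, ← hr]
      exact_mod_cast hsum
    have s4 : ∀ a, lam a = (1 / N - 1 - b (e' a) / 2) +
        if a = a0 then 1 + (b (e' a0) : ℝ) / 2 else 0 := by
      intro a
      simp only [hlam]
      split_ifs with ha
      · rw [ha]
        ring
      · ring
    have s5 : (b (e' a0) : ℝ) ≤ 4 * M + 1 := by exact_mod_cast hbB _
    have s6 : (r : ℝ) * 1 / N ≤ 1 := by
      rw [mul_one, div_le_one hN0, hN]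
      exact_mod_cast hrN
    have s7 : N = 4 * M + 7 := by rw [hN]; push_cast; ring
    simp only [s4, Finset.sum_add_distrib, Finset.sum_sub_distrib, Finset.sum_ite_eq',
      Finset.mem_univ, if_true, ← Finset.sum_div, s1, s2, Finset.sum_const, Finset.card_univ,
      Fintype.card_fin, nsmul_eq_mul]
    linarith
  have hlamb : ∀ a, |lam a| ≤ 2 * M + 3 := by
    intro a
    have s5 : (b (e' a) : ℝ) ≤ 4 * M + 1 := by exact_mod_cast hbB _
    have s6 : (0 : ℝ) ≤ b (e' a) := by positivity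
    have s7 : 0 < 1 / N := by positivity
    have s8 : 1 / N ≤ 1 := by
      rw [div_le_one hN0]
      linarith
    have s9 : (0 : ℝ) ≤ M := by positivity
    simp only [hlam]
    rw [abs_le]
    split_ifs <;> constructor <;> linarith
  obtain ⟨w, hw0, hw⟩ := Pool.Agent.MP_077ac3_nt.H18.seq r 6 (4 * M + 3)
    ((algebraMap ℚ ℝ).mapMatrix L) 1 (by norm_num)
    (fun a c => isAlgebraic_algebraMap (L a c))
    (by
      rw [← RingHom.map_det]
      exact (map_ne_zero _).2 hL0)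
    one_pos U hU (fun m c => X m (e c)) (fun m a => 6 ^ (M * m) * exp (m * lam a))
    (fun m c => 2 ^ (M * m - i m (e c)) * 3 ^ (M * m - j m (e c))) (by
      filter_upwards [h, hk', hLm, hXe, hge (2 * (4 * M + 7))] with m h1 h2 h3 h4 h5
      have hm0 : (0 : ℝ) ≤ m := by positivity
      have hmN : 2 * N ≤ m := by
        rw [hN]
        exact_mod_cast h5
      have hQ1 : (Q m : ℝ) ≤ exp (m / (2 * N)) := by
        simp only [hQ]
        push_cast
        calc ∏ τ, (q m τ : ℝ) ≤ ∏ _τ : Fin (4 * M + 7), exp (δ * m) :=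
              Finset.prod_le_prod (fun τ _ => by positivity) fun τ _ => (h1.2.2 τ).2.2.2.2.1
          _ = exp (m / (2 * N)) := by
            rw [Finset.prod_const, Finset.card_univ, Fintype.card_fin, ← exp_nat_mul, ← hN, hδ]
            congr 1
            field_simp
      have hQ2 : 2 * (Q m : ℝ) ≤ exp (m * (1 / N)) := by
        have e1 : exp (m * (1 / N)) = exp (m / (2 * N)) * exp (m / (2 * N)) := by
          rw [← exp_add]
          congr 1
          field_simp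
          ring
        have e2 : 2 ≤ exp (m / (2 * N)) := by
          have : 1 ≤ m / (2 * N) := by
            rw [le_div_iff₀ (by positivity)]
            linarith
          linarith [add_one_le_exp ((m : ℝ) / (2 * N))]
        rw [e1]
        exact mul_le_mul e2 hQ1 (by positivity) (by positivity)
      refine ⟨fun a => ⟨?_, by positivity, ?_, (h4 _).2, ?_⟩, ?_⟩
      · have e1 : ∑ c, ((algebraMap ℚ ℝ).mapMatrix L) a c * (X m (e c) : ℝ) =
            Q m * 6 ^ (M * m) * ((∑ c, L a c * ρ m (e c) : ℚ) : ℝ) := by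
          push_cast
          rw [Finset.mul_sum]
          refine Finset.sum_congr rfl fun c _ => ?_
          have : (X m (e c) : ℝ) = Q m * 6 ^ (M * m) * ρ m (e c) := by exact_mod_cast (h4 (e c)).1
          rw [this]
          simp only [RingHom.mapMatrix_apply, Matrix.map_apply, eq_ratCast]
          ring
        rw [e1, h3 a, abs_mul, abs_of_nonneg (by positivity : (0 : ℝ) ≤ Q m * 6 ^ (M * m))]
        have c0 := close (h1.2.2 (e' a0)).2 _ (h2 (e' a0)).1
        by_cases ha : a = a0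
        · simp only [hlam, if_pos ha]
          have c1 : exp (-(m : ℝ) - m / 2 * b (e' a0)) ≤ 1 := by
            rw [exp_le_one_iff]
            have : (0 : ℝ) ≤ m / 2 * b (e' a0) := by positivity
            linarith
          have c2 : |(ρ m (e' a0) : ℝ)| ≤ 2 := by
            have := abs_sub_abs_le_abs_sub (ρ m (e' a0) : ℝ) (x m)
            rw [abs_sub_comm] at this
            linarith [h1.1]
          calc (Q m : ℝ) * 6 ^ (M * m) * |(ρ m (e' a0) : ℝ)| ≤ Q m * 6 ^ (M * m) * 2 := by gcongr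
            _ = 6 ^ (M * m) * (2 * Q m) := by ring
            _ ≤ _ := by gcongr
        · simp only [hlam, if_neg ha]
          have c1 := close (h1.2.2 (e' a)).2 _ (h2 (e' a)).1
          have c2 : exp (-(m : ℝ) - m / 2 * b (e' a0)) ≤ exp (-(m : ℝ) - m / 2 * b (e' a)) := by
            have : (b (e' a) : ℝ) ≤ b (e' a0) := by exact_mod_cast ha0 a
            apply exp_le_exp.2
            nlinarith
          have c3 : |(ρ m (e' a) : ℝ) - ρ m (e' a0)| ≤ 2 * exp (-(m : ℝ) - m / 2 * b (e' a)) := by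
            have := abs_sub_le (ρ m (e' a) : ℝ) (x m) (ρ m (e' a0))
            rw [abs_sub_comm (ρ m (e' a) : ℝ) (x m)] at this
            linarith
          have c4 : exp (m * (1 / N - 1 - b (e' a) / 2)) =
              exp (m * (1 / N)) * exp (-(m : ℝ) - m / 2 * b (e' a)) := by
            rw [← exp_add]
            congr 1
            ring
          push_cast
          calc (Q m : ℝ) * 6 ^ (M * m) * |(ρ m (e' a) : ℝ) - ρ m (e' a0)|
              ≤ Q m * 6 ^ (M * m) * (2 * exp (-(m : ℝ) - m / 2 * b (e' a))) := by gcongr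
            _ = 6 ^ (M * m) * (2 * Q m * exp (-(m : ℝ) - m / 2 * b (e' a))) := by ring
            _ ≤ _ := by
              rw [c4]
              gcongr
      · rw [log_mul (by positivity) (exp_pos _).ne', log_exp]
        have l1 : 0 ≤ log ((6 : ℝ) ^ (M * m)) := log_nonneg (one_le_pow₀ (by norm_num))
        have l2 : log ((6 : ℝ) ^ (M * m)) ≤ 2 * (M * m : ℕ) :=
          (log_le_iff_le_exp (by positivity)).2 (six_pow_le _)
        have l3 := abs_le.1 (hlamb a)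
        have l4 := mul_le_mul_of_nonneg_left l3.1 hm0
        have l5 := mul_le_mul_of_nonneg_left l3.2 hm0
        have l6 : (0 : ℝ) ≤ M * m := by positivity
        push_cast at l2 ⊢
        rw [abs_le]
        constructor <;> nlinarith
      · have e6 : 6 ^ ((4 * M + 3) * m) = 2 ^ ((4 * M + 3) * m) * 3 ^ ((4 * M + 3) * m) :=
          mul_pow 2 3 _
        rw [e6]
        have : M * m ≤ (4 * M + 3) * m := Nat.mul_le_mul_right _ (by omega)
        exact mul_dvd_mul (pow_dvd_pow _ (by omega)) (pow_dvd_pow _ (by omega))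
      · calc (∏ a, (6 : ℝ) ^ (M * m) * exp (m * lam a)) * exp (1 * m)
            = (6 ^ (M * m)) ^ r * exp (m * (∑ a, lam a + 1)) := by
              rw [Finset.prod_mul_distrib, Finset.prod_const, Finset.card_univ, Fintype.card_fin,
                ← exp_sum, mul_assoc, ← exp_add, ← Finset.mul_sum]
              congr 2
              ring
          _ ≤ (6 ^ (M * m)) ^ r * exp (m * (-∑ c, ((b (e c) : ℝ) + 1) / 2)) := by gcongr
          _ = ∏ c, (6 : ℝ) ^ (M * m) * exp (-(m / 2 * (b (e c) + 1))) := by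
              rw [Finset.prod_mul_distrib, Finset.prod_const, Finset.card_univ, Fintype.card_fin,
                ← exp_sum, ← Finset.sum_neg_distrib, Finset.mul_sum]
              congr 2
              refine Finset.sum_congr rfl fun c _ => ?_
              ring
          _ ≤ _ := Finset.prod_le_prod (fun c _ => by positivity) fun c _ =>
              divisor_ge (h1.2.2 (e c)).2 _ (h2 (e c)).2)
  have hi : LinearIndependent ℚ fun c : Fin r => v (e c) := hP.comp e e.injective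
  rw [Fintype.linearIndependent_iff] at hi
  have h1 := hi (fun c => (w c : ℚ)) (by
    rw [hv, sum_mk, ← map_zero (nullSeq U).mkQ, mk_eq_iff]
    filter_upwards [h, hw, hXe] with m h1 h2 h3
    have h4 : ((∑ c, w c * X m (e c) : ℤ) : ℚ) = 0 := by rw [h2]; simp
    push_cast at h4
    simp only [fun τ => (h3 τ).1] at h4
    have h5 : (Q m : ℚ) * 6 ^ (M * m) * ∑ c, (w c : ℚ) * ρ m (e c) = 0 := by
      rw [← h4, Finset.mul_sum]
      refine Finset.sum_congr rfl fun c _ => ?_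
      ring
    have h6 : Q m ≠ 0 := Finset.prod_ne_zero_iff.2 fun τ _ => by
      have := (h1.2.2 τ).2.2.2.1
      omega
    have h7 : (Q m : ℚ) * 6 ^ (M * m) ≠ 0 := mul_ne_zero (by exact_mod_cast h6) (by positivity)
    exact (mul_eq_zero.1 h5).resolve_left h7)
  apply hw0
  funext c
  exact_mod_cast h1 c

theorem few (M : ℕ) : ∃ δ : ℝ, 0 < δ ∧ ∃ m0 : ℕ, ∀ m, m0 ≤ m → ∀ x : ℝ, |x| ≤ 1 →
    ∀ s : Finset ℚ, (∀ ρ ∈ s, ∃ i j q, W M δ m x ρ i j q) → s.card ≤ 4 * M + 7 := by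
  classical
  refine ⟨1 / (2 * ((4 * M + 7 : ℕ) : ℝ) ^ 2), by positivity, ?_⟩
  set δ : ℝ := 1 / (2 * ((4 * M + 7 : ℕ) : ℝ) ^ 2) with hδ
  by_contra hcon
  rw [← eventually_atTop, not_eventually, frequently_iff_neBot] at hcon
  obtain ⟨U, hU⟩ := Ultrafilter.exists_le _ (h := hcon)
  have hex : ∀ m : ℕ, ∃ (x : ℝ) (ρ : Fin (4 * M + 7) → ℚ) (i j q : Fin (4 * M + 7) → ℕ),
      (¬ ∀ x : ℝ, |x| ≤ 1 → ∀ s : Finset ℚ, (∀ ρ ∈ s, ∃ i j q, W M δ m x ρ i j q) →
        s.card ≤ 4 * M + 7) → |x| ≤ 1 ∧ Function.Injective ρ ∧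
      ∀ τ, ρ τ ≠ 0 ∧ W M δ m x (ρ τ) (i τ) (j τ) (q τ) := by
    intro m
    by_cases hm : ∀ x : ℝ, |x| ≤ 1 → ∀ s : Finset ℚ, (∀ ρ ∈ s, ∃ i j q, W M δ m x ρ i j q) →
        s.card ≤ 4 * M + 7
    · exact ⟨0, 0, 0, 0, 0, fun h => absurd hm h⟩
    · push Not at hm
      obtain ⟨x, hx, s, hs, hc⟩ := hm
      obtain ⟨t, ht, htc⟩ := Finset.exists_subset_card_eq (s := s.erase 0) (n := 4 * M + 7) (by
        have := Finset.pred_card_le_card_erase (s := s) (a := 0)
        omega)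
      set e := (Finset.equivFinOfCardEq htc).symm
      have hmem : ∀ τ, (e τ : ℚ) ∈ s.erase 0 := fun τ => ht (e τ).2
      choose i j q hW using fun τ => hs (e τ) (Finset.mem_of_mem_erase (hmem τ))
      exact ⟨x, fun τ => e τ, i, j, q, fun _ => ⟨hx, Subtype.val_injective.comp e.injective,
        fun τ => ⟨(Finset.mem_erase.1 (hmem τ)).1, hW τ⟩⟩⟩
  choose x ρ i j q hx using hex
  refine core M δ hδ U (hU.trans inf_le_left) x ρ i j q ?_
  filter_upwards [(hU.trans inf_le_right) (mem_principal_self _)] with m hm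
  exact hx m hm

end Pool.Agent.MP_60c1b5_an.H73
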