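import Mathlib
import Pool.Agent.MP_60c1b5_an.H73.Core

set_option autoImplicit false

/-!
A consequence of the Subspace Theorem: if a finite family of integer sequences has many linear
relations, one of them has leading and trailing terms of comparable size.
-/

namespace Pool.Agent.MP_60c1b5_an.H73

open Real Filter Submodule Module

theorem exists_rank {ι β : Type} [Fintype ι] [LinearOrder β] (f : ι → β) :
    ∃ ν : ι → Fin (Fintype.card ι), Function.Injective ν ∧ ∀ α α', ν α ≤ ν α' → f α ≤ f α' := by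
  set e := Fintype.equivFin ι
  set σ := Tuple.sort (f ∘ e.symm)
  refine ⟨fun α => σ.symm (e α), σ.symm.injective.comp e.injective, fun α α' h => ?_⟩
  simpa [σ] using Tuple.monotone_sort (f ∘ e.symm) h

theorem adapted {ι : Type} [Fintype ι] (ν ν' : ι → ℕ) (hν : Function.Injective ν) (s : ℕ) :
    ∀ R : Submodule ℚ (ι → ℚ), finrank ℚ R = s →
      ∃ (y : Fin s → ι → ℚ) (l t : Fin s → ι), Function.Injective l ∧ Function.Injective t ∧
        ∀ i, y i ∈ R ∧ y i (l i) ≠ 0 ∧ y i (t i) ≠ 0 ∧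
          ∀ α, y i α ≠ 0 → ν α ≤ ν (l i) ∧ ν' α ≤ ν' (t i) := by
  classical
  induction s with
  | zero =>
    intro R _
    exact ⟨Fin.elim0, Fin.elim0, Fin.elim0, fun i => i.elim0, fun i => i.elim0, fun i => i.elim0⟩
  | succ s ih =>
    intro R hR
    have lead : ∀ (ϖ : ι → ℕ) (y : ι → ℚ), y ≠ 0 → ∃ l, y l ≠ 0 ∧ ∀ α, y α ≠ 0 → ϖ α ≤ ϖ l := by
      intro ϖ y hy
      obtain ⟨α, hα⟩ := Function.ne_iff.1 hy
      obtain ⟨l, hl, hm⟩ := Finset.exists_max_image (Finset.univ.filter fun α => y α ≠ 0) ϖ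
        ⟨α, by simpa using hα⟩
      exact ⟨l, by simpa using hl, fun α h => hm α (by simpa using h)⟩
    have hex : ∃ k, ∃ y ∈ R, ∃ l, ν l = k ∧ y l ≠ 0 ∧ ∀ α, y α ≠ 0 → ν α ≤ ν l := by
      have : R ≠ ⊥ := by
        rintro rfl
        simp at hR
      obtain ⟨y, hy, h0⟩ := (Submodule.ne_bot_iff R).1 this
      obtain ⟨l, hl⟩ := lead ν y h0
      exact ⟨_, y, hy, l, rfl, hl⟩
    obtain ⟨y0, hy0, l0, hk, hl0, hm0⟩ := Nat.find_spec hex
    obtain ⟨t0, ht0, hm0'⟩ := lead ν' y0 (Function.ne_iff.2 ⟨l0, hl0⟩)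
    set φ : R →ₗ[ℚ] ℚ := (LinearMap.proj t0).domRestrict R with hφ
    have hr : LinearMap.range φ = ⊤ := by
      rw [eq_top_iff]
      intro c _
      refine ⟨(c / y0 t0) • ⟨y0, hy0⟩, ?_⟩
      simp only [hφ, map_smul, LinearMap.domRestrict_apply, LinearMap.proj_apply, smul_eq_mul]
      field_simp
    have h1 := LinearMap.finrank_range_add_finrank_ker φ
    rw [hr, finrank_top, Module.finrank_self, hR] at h1
    obtain ⟨y, l, t, hl, ht, h⟩ := ih ((LinearMap.ker φ).map R.subtype) (by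
      rw [Submodule.finrank_map_subtype_eq]
      omega)
    have hmem : ∀ i, y i ∈ R ∧ y i t0 = 0 := by
      intro i
      obtain ⟨z, hz, e⟩ := (h i).1
      rw [← e]
      exact ⟨z.2, hz⟩
    refine ⟨Fin.cons y0 y, Fin.cons l0 l, Fin.cons t0 t, ?_, ?_, ?_⟩
    · rw [Fin.cons_injective_iff]
      refine ⟨?_, hl⟩
      rintro ⟨i, hi⟩
      set w := y i - (y i l0 / y0 l0) • y0 with hw
      have hw0 : w l0 = 0 := by
        simp only [hw, Pi.sub_apply, Pi.smul_apply, smul_eq_mul]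
        field_simp
        ring
      have hne : w ≠ 0 := by
        intro e
        have := congrFun e t0
        simp only [hw, Pi.sub_apply, Pi.smul_apply, smul_eq_mul, (hmem i).2, zero_sub,
          Pi.zero_apply, neg_eq_zero, mul_eq_zero, div_eq_zero_iff] at this
        rcases this with (h1 | h1) | h1
        · exact (h i).2.1 (hi ▸ h1)
        · exact hl0 h1
        · exact ht0 h1
      obtain ⟨l', hl', hm'⟩ := lead ν w hne
      have h2 : Nat.find hex ≤ ν l' :=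
        Nat.find_min' hex ⟨w, R.sub_mem (hmem i).1 (R.smul_mem _ hy0), l', rfl, hl', hm'⟩
      have h3 : ν l' ≤ ν l0 := by
        by_cases e : y i l' = 0
        · apply hm0
          intro e'
          apply hl'
          simp [hw, e, e']
        · exact hi ▸ ((h i).2.2.2 l' e).1
      have h4 : l' = l0 := hν (by omega)
      exact hl' (h4 ▸ hw0)
    · rw [Fin.cons_injective_iff]
      refine ⟨?_, ht⟩
      rintro ⟨i, hi⟩
      exact (h i).2.2.1 (hi ▸ (hmem i).2)
    · intro i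
      refine Fin.cases ?_ (fun i => ?_) i
      · exact ⟨hy0, hl0, ht0, fun α hα => ⟨hm0 α hα, hm0' α hα⟩⟩
      · exact ⟨(hmem i).1, (h i).2⟩

theorem basis_compl {ι V : Type} [Fintype ι] [DecidableEq ι] [AddCommGroup V] [Module ℚ V]
    (v : ι → V) (ν : ι → ℕ) (hν : Function.Injective ν) (s : ℕ)
    (hs : finrank ℚ (LinearMap.ker (Fintype.linearCombination ℚ v)) = s) (y : Fin s → ι → ℚ)
    (l : Fin s → ι) (hl : Function.Injective l)
    (h : ∀ i, y i ∈ LinearMap.ker (Fintype.linearCombination ℚ v) ∧ y i (l i) ≠ 0 ∧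
      ∀ α, y i α ≠ 0 → ν α ≤ ν (l i)) :
    (∀ α, v α ∈ span ℚ (v '' (((Finset.univ.image l)ᶜ : Finset ι) : Set ι))) ∧
      LinearIndepOn ℚ v (((Finset.univ.image l)ᶜ : Finset ι) : Set ι) := by
  set P : Finset ι := (Finset.univ.image l)ᶜ with hP
  have hsp : ∀ k α, ν α = k → v α ∈ span ℚ (v '' (P : Set ι)) := by
    intro k
    induction k using Nat.strong_induction_on with
    | _ k ih =>
      intro α hα
      by_cases hm : α ∈ P
      · exact subset_span ⟨α, hm, rfl⟩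
      · obtain ⟨i, -, rfl⟩ := Finset.mem_image.1 (by simpa [hP] using hm :
          α ∈ Finset.univ.image l)
        obtain ⟨h1, h2, h3⟩ := h i
        rw [LinearMap.mem_ker, Fintype.linearCombination_apply,
          ← Finset.add_sum_erase _ _ (Finset.mem_univ (l i))] at h1
        rw [← smul_mem_iff _ h2, eq_neg_of_add_eq_zero_left h1]
        refine neg_mem (sum_mem fun β hβ => ?_)
        by_cases e : y i β = 0
        · simp [e]
        · refine smul_mem _ _ (ih (ν β) ?_ β rfl)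
          have h4 := h3 β e
          have h5 : ν β ≠ ν (l i) := fun e' => (Finset.mem_erase.1 hβ).1 (hν e')
          omega
  refine ⟨fun α => hsp _ α rfl, ?_⟩
  have h1 := LinearMap.finrank_range_add_finrank_ker (Fintype.linearCombination ℚ v)
  rw [hs, Fintype.range_linearCombination, Module.finrank_fintype_fun_eq_card] at h1
  have h2 : span ℚ (Set.range v) = span ℚ (v '' (P : Set ι)) :=
    le_antisymm (span_le.2 (Set.range_subset_iff.2 fun α => hsp _ α rfl))
      (span_mono (Set.image_subset_range _ _))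
  have h3 : P.card + s = Fintype.card ι := by
    rw [hP, Finset.card_compl, Finset.card_image_of_injective _ hl, Finset.card_univ,
      Fintype.card_fin]
    have := Fintype.card_le_of_injective l hl
    rw [Fintype.card_fin] at this
    omega
  rw [LinearIndepOn, linearIndependent_iff_card_eq_finrank_span, Set.finrank,
    ← Set.image_eq_range, ← h2]
  simp only [Finset.coe_sort_coe, Fintype.card_coe]
  omega

theorem exists_matrix' {V : Type} [AddCommGroup V] [Module ℚ V] {r : ℕ} (v w : Fin r → V)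
    (hw : LinearIndependent ℚ w) (h : ∀ a, w a ∈ span ℚ (Set.range v)) :
    ∃ L : Matrix (Fin r) (Fin r) ℚ, L.det ≠ 0 ∧ ∀ a, ∑ c, L a c • v c = w a := by
  choose L hL using fun a => (mem_span_range_iff_exists_fun ℚ).1 (h a)
  refine ⟨Matrix.of L, fun hdet => ?_, hL⟩
  obtain ⟨y, hy0, hy⟩ := Matrix.exists_vecMul_eq_zero_iff.2 hdet
  refine hy0 (funext (Fintype.linearIndependent_iff.1 hw y ?_))
  simp only [← hL, Finset.smul_sum, smul_smul]
  rw [Finset.sum_comm]
  apply Finset.sum_eq_zero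
  intro c _
  rw [← Finset.sum_smul]
  have := congrFun hy c
  simp only [Matrix.vecMul, dotProduct, Matrix.of_apply, Pi.zero_apply] at this
  rw [this, zero_smul]

/-- the class of the `α`-th sequence -/
noncomputable def cls {ι : Type} (U : Ultrafilter ℕ) (x : ℕ → ι → ℤ) (α : ι) :
    (ℕ → ℚ) ⧸ nullSeq U := (nullSeq U).mkQ fun n => (x n α : ℚ)

theorem two_bases_prod {ι : Type} [DecidableEq ι] (U : Ultrafilter ℕ) (hU : (U : Filter ℕ) ≤ atTop)
    (b K : ℕ) (hb : 2 ≤ b) (x : ℕ → ι → ℤ) (ℓ : ℕ → ι → ℝ) (d : ℕ → ι → ℕ)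
    (h : ∀ᶠ n in (U : Filter ℕ), ∀ α, |(x n α : ℝ)| ≤ ℓ n α ∧ 0 < ℓ n α ∧
      |log (ℓ n α)| ≤ K * n ∧ (d n α : ℤ) ∣ x n α ∧ d n α ∣ b ^ (K * n))
    (ε : ℝ) (hε : 0 < ε) (P P' : Finset ι) (hP : LinearIndepOn ℚ (cls U x) (P : Set ι))
    (hP' : LinearIndepOn ℚ (cls U x) (P' : Set ι))
    (hsp : ∀ α, cls U x α ∈ span ℚ (cls U x '' (P : Set ι))) (hc : P'.card = P.card) :
    ∀ᶠ n in (U : Filter ℕ), ∏ α ∈ P, (d n α : ℝ) < (∏ α ∈ P', ℓ n α) * exp (ε * n) := by
  simp only [← not_le]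
  rw [Ultrafilter.eventually_not]
  intro hcon
  set e : Fin P.card ≃ P := P.equivFin.symm
  set e' : Fin P.card ≃ P' := (Finset.equivFinOfCardEq hc).symm
  have hi : LinearIndependent ℚ fun c => cls U x (e c) := hP.comp e e.injective
  obtain ⟨L, hL0, hL⟩ := exists_matrix' (fun c => cls U x (e c)) (fun a => cls U x (e' a))
    (hP'.comp e' e'.injective) fun a => by
      refine span_mono ?_ (hsp (e' a))
      rintro _ ⟨τ, hτ, rfl⟩
      exact ⟨e.symm ⟨τ, hτ⟩, by simp⟩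
  have hLm : ∀ᶠ n in (U : Filter ℕ), ∀ a, ∑ c, L a c * x n (e c) = x n (e' a) := by
    refine eventually_all.2 fun a => ?_
    have h1 := hL a
    simp only [cls] at h1
    rw [sum_mk] at h1
    exact (mk_eq_iff _ _ _).1 h1
  obtain ⟨w, hw0, hw⟩ := Pool.Agent.MP_077ac3_nt.H18.seq P.card b K
    ((algebraMap ℚ ℝ).mapMatrix L) ε hb (fun a c => isAlgebraic_algebraMap (L a c))
    (by
      rw [← RingHom.map_det]
      exact (map_ne_zero _).2 hL0)
    hε U hU (fun n c => x n (e c)) (fun n a => ℓ n (e' a)) (fun n c => d n (e c)) (by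
      filter_upwards [h, hLm, hcon] with n h1 h2 h3
      refine ⟨fun a => ⟨?_, (h1 _).2.1, (h1 _).2.2.1, (h1 _).2.2.2⟩, ?_⟩
      · have : ∑ c, ((algebraMap ℚ ℝ).mapMatrix L) a c * (x n (e c) : ℝ) = x n (e' a) := by
          simp only [RingHom.mapMatrix_apply, Matrix.map_apply, eq_ratCast]
          exact_mod_cast h2 a
        rw [this]
        exact (h1 _).1
      · rwa [e.prod_comp fun τ : P => (d n τ : ℝ), e'.prod_comp fun τ : P' => ℓ n τ,
          Finset.prod_coe_sort P fun τ => (d n τ : ℝ), Finset.prod_coe_sort P' fun τ => ℓ n τ])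
  have h1 := Fintype.linearIndependent_iff.1 hi (fun c => (w c : ℚ)) (by
    simp only [cls]
    rw [sum_mk, ← map_zero (nullSeq U).mkQ, mk_eq_iff]
    filter_upwards [hw] with n hn
    rw [Pi.zero_apply]
    exact_mod_cast hn)
  apply hw0
  funext c
  exact_mod_cast h1 c

theorem rel {ι J : Type} [Fintype ι] [Fintype J] [Nonempty J] (U : Ultrafilter ℕ)
    (hU : (U : Filter ℕ) ≤ atTop) (b K : ℕ) (hb : 2 ≤ b) (x : ℕ → ι → ℤ) (ℓ : ℕ → ι → ℝ)
    (d : ℕ → ι → ℕ)
    (h : ∀ᶠ n in (U : Filter ℕ), ∀ α, |(x n α : ℝ)| ≤ ℓ n α ∧ (d n α : ℝ) ≤ ℓ n α ∧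
      |log (ℓ n α)| ≤ K * n ∧ (d n α : ℤ) ∣ x n α ∧ d n α ∣ b ^ (K * n))
    (ε : ℝ) (hε : 0 < ε) (Y : J → ι → ℚ) (hY : LinearIndependent ℚ Y)
    (hYR : ∀ j, ∀ᶠ n in (U : Filter ℕ), ∑ α, Y j α * x n α = 0) :
    ∃ (y : ι → ℤ) (l t : ι), y l ≠ 0 ∧ ∀ᶠ n in (U : Filter ℕ), ∑ α, y α * x n α = 0 ∧
      (∀ α, y α ≠ 0 → ℓ n α ≤ ℓ n l ∧ d n t ≤ d n α) ∧
      (ℓ n l / d n t) ^ Fintype.card J ≤ exp (ε * n) * ∏ α, ℓ n α / d n α := by
  classical
  have hd : ∀ᶠ n in (U : Filter ℕ), ∀ α, (0 : ℝ) < d n α := by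
    filter_upwards [h] with n hn α
    have : d n α ≠ 0 := ne_zero_of_dvd_ne_zero (by positivity) (hn α).2.2.2.2
    positivity
  obtain ⟨ν, hν⟩ := Ultrafilter.eventually_exists_iff.1
    (Eventually.of_forall (f := (U : Filter ℕ)) fun n => exists_rank (ℓ n))
  obtain ⟨ν', hν'⟩ := Ultrafilter.eventually_exists_iff.1
    (Eventually.of_forall (f := (U : Filter ℕ)) fun n =>
      exists_rank fun α => OrderDual.toDual (d n α))
  have i1 : Function.Injective fun α => (ν α : ℕ) := Fin.val_injective.comp hν.exists.choose_spec.1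
  have i2 : Function.Injective fun α => (ν' α : ℕ) :=
    Fin.val_injective.comp hν'.exists.choose_spec.1
  set R := LinearMap.ker (Fintype.linearCombination ℚ (cls U x)) with hR
  have hmem : ∀ y, y ∈ R ↔ ∀ᶠ n in (U : Filter ℕ), ∑ α, y α * x n α = 0 := by
    intro y
    rw [hR, LinearMap.mem_ker, Fintype.linearCombination_apply]
    simp only [cls]
    rw [sum_mk, ← map_zero (nullSeq U).mkQ, mk_eq_iff]
    rfl
  obtain ⟨s, hs⟩ : ∃ s, finrank ℚ R = s := ⟨_, rfl⟩
  have hJ : Fintype.card J ≤ s := by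
    rw [← hs]
    exact LinearIndependent.fintype_card_le_finrank (R := ℚ)
      (b := fun j => (⟨Y j, (hmem _).2 (hYR j)⟩ : R)) (LinearIndependent.of_comp R.subtype hY)
  obtain ⟨y, l, t, hl, ht, hy⟩ := adapted (fun α => (ν α : ℕ)) (fun α => (ν' α : ℕ)) i1 s R hs
  obtain ⟨-, b1⟩ := basis_compl (cls U x) _ i1 s hs y l hl fun i =>
    ⟨(hy i).1, (hy i).2.1, fun α hα => ((hy i).2.2.2 α hα).1⟩
  obtain ⟨b2, b3⟩ := basis_compl (cls U x) _ i2 s hs y t ht fun i =>
    ⟨(hy i).1, (hy i).2.2.1, fun α hα => ((hy i).2.2.2 α hα).2⟩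
  have key := two_bases_prod U hU b K hb x ℓ d (by
    filter_upwards [h, hd] with n h1 h2 α
    exact ⟨(h1 α).1, (h2 α).trans_le (h1 α).2.1, (h1 α).2.2⟩) ε hε _ _ b3 b1 b2 (by
    rw [Finset.card_compl, Finset.card_compl, Finset.card_image_of_injective _ hl,
      Finset.card_image_of_injective _ ht])
  have hs0 : Nonempty (Fin s) := ⟨⟨0, lt_of_lt_of_le Fintype.card_pos hJ⟩⟩
  have hex : ∀ᶠ n in (U : Filter ℕ), ∃ i, (∀ α, y i α ≠ 0 → ℓ n α ≤ ℓ n (l i) ∧ d n (t i) ≤ d n α) ∧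
      (ℓ n (l i) / d n (t i)) ^ Fintype.card J ≤ exp (ε * n) * ∏ α, ℓ n α / d n α := by
    filter_upwards [h, hd, hν, hν', key] with n h1 h2 h3 h4 h5
    have c1 : ∀ i α, y i α ≠ 0 → ℓ n α ≤ ℓ n (l i) ∧ d n (t i) ≤ d n α := fun i α hα =>
      ⟨h3.2 _ _ ((hy i).2.2.2 α hα).1, h4.2 _ _ ((hy i).2.2.2 α hα).2⟩
    obtain ⟨i, hi⟩ := Finite.exists_min fun i => ℓ n (l i) / d n (t i)
    refine ⟨i, c1 i, ?_⟩
    have c2 : 1 ≤ ℓ n (l i) / d n (t i) := by
      rw [one_le_div (h2 _)]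
      exact (h1 _).2.1.trans (c1 i _ (hy i).2.2.1).1
    have c3 : ∀ α, 0 < ℓ n α := fun α => (h2 α).trans_le (h1 α).2.1
    have c4 : (ℓ n (l i) / d n (t i)) ^ s ≤ ∏ j, ℓ n (l j) / d n (t j) := by
      have := Finset.prod_le_prod (s := Finset.univ) (f := fun _ : Fin s => ℓ n (l i) / d n (t i))
        (fun _ _ => zero_le_one.trans c2) fun j _ => hi j
      rwa [Finset.prod_const, Finset.card_univ, Fintype.card_fin] at this
    refine (pow_le_pow_right₀ c2 hJ).trans (c4.trans ?_)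
    rw [Finset.prod_div_distrib, Finset.prod_div_distrib,
      ← Finset.prod_mul_prod_compl (Finset.univ.image l) (ℓ n),
      ← Finset.prod_mul_prod_compl (Finset.univ.image t) fun α => (d n α : ℝ),
      Finset.prod_image hl.injOn, Finset.prod_image ht.injOn]
    have p1 : 0 < ∏ j, ℓ n (l j) := Finset.prod_pos fun j _ => c3 _
    have p2 : (0 : ℝ) < ∏ j, (d n (t j) : ℝ) := Finset.prod_pos fun j _ => h2 _
    have p3 : (0 : ℝ) < ∏ α ∈ (Finset.univ.image t)ᶜ, (d n α : ℝ) := Finset.prod_pos fun j _ => h2 _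
    rw [← mul_div_assoc, div_le_div_iff₀ p2 (mul_pos p2 p3)]
    nlinarith [mul_le_mul_of_nonneg_left h5.le (mul_pos p1 p2).le]
  obtain ⟨i, hi⟩ := Ultrafilter.eventually_exists_iff.1 hex
  obtain ⟨c, hc⟩ := IsLocalization.exist_integer_multiples_of_finite (nonZeroDivisors ℤ) (y i)
  choose z hz using hc
  have hc0 : ((c : ℤ) : ℚ) ≠ 0 := by exact_mod_cast nonZeroDivisors.coe_ne_zero c
  have hz' : ∀ α, (z α : ℚ) = (c : ℤ) * y i α := fun α => by simpa using hz α
  have hne : ∀ α, z α ≠ 0 ↔ y i α ≠ 0 := by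
    intro α
    rw [← Int.cast_ne_zero (α := ℚ), hz', mul_ne_zero_iff, and_iff_right hc0]
  refine ⟨z, l i, t i, (hne _).2 (hy i).2.1, ?_⟩
  filter_upwards [hi, (hmem _).1 (hy i).1] with n h1 h2
  refine ⟨?_, fun α hα => h1.1 α ((hne α).1 hα), h1.2⟩
  have : ((∑ α, z α * x n α : ℤ) : ℚ) = 0 := by
    push_cast
    simp only [hz', mul_assoc, ← Finset.mul_sum, h2, mul_zero]
  exact_mod_cast this

end Pool.Agent.MP_60c1b5_an.H73
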