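import Mathlib

set_option autoImplicit false

/-!
Sequences that are, along an ultrafilter, fixed rational combinations of powers of `p` with
linearly bounded exponents.
-/

namespace Pool.Agent.MP_60c1b5_an.H73

open Real Filter

/-- linearly bounded integer sequences -/
def LinB (U : Ultrafilter ℕ) : Submodule ℤ (ℕ → ℤ) where
  carrier := {γ | ∃ K : ℕ, ∀ᶠ n : ℕ in (U : Filter ℕ), |γ n| ≤ K * n}
  add_mem' := by
    rintro f g ⟨K, hf⟩ ⟨K', hg⟩
    refine ⟨K + K', ?_⟩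
    filter_upwards [hf, hg] with n h1 h2
    push_cast
    rw [Pi.add_apply]
    linarith [abs_add_le (f n) (g n)]
  zero_mem' := ⟨0, by simp⟩
  smul_mem' := by
    rintro c f ⟨K, hf⟩
    refine ⟨c.natAbs * K, ?_⟩
    filter_upwards [hf] with n h1
    rw [Pi.smul_apply, smul_eq_mul, abs_mul]
    push_cast
    rw [mul_assoc]
    gcongr

/-- eventually constant integer sequences -/
def EvC (U : Ultrafilter ℕ) : Submodule ℤ (ℕ → ℤ) where
  carrier := {γ | ∃ c : ℤ, ∀ᶠ n : ℕ in (U : Filter ℕ), γ n = c}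
  add_mem' := by
    rintro f g ⟨c, hf⟩ ⟨c', hg⟩
    refine ⟨c + c', ?_⟩
    filter_upwards [hf, hg] with n h1 h2
    simp [h1, h2]
  zero_mem' := ⟨0, by simp⟩
  smul_mem' := by
    rintro c f ⟨c', hf⟩
    refine ⟨c * c', ?_⟩
    filter_upwards [hf] with n h1
    simp [h1]

theorem lattice (U : Ultrafilter ℕ) {J : Type} [Fintype J] (γ : J → ℕ → ℤ)
    (hγ : ∀ j, γ j ∈ LinB U) :
    ∃ (ρ : ℕ) (b : Fin ρ → ℕ → ℤ) (a : J → Fin ρ → ℤ) (c : J → ℤ), (∀ i, b i ∈ LinB U) ∧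
      (∀ j, ∀ᶠ n in (U : Filter ℕ), γ j n = ∑ i, a j i * b i n + c j) ∧
      ∀ a : Fin ρ → ℤ, a ≠ 0 → ∀ C : ℤ, ∀ᶠ n in (U : Filter ℕ), C < |∑ i, a i * b i n| := by
  have tf : Module.IsTorsionFree ℤ ((ℕ → ℤ) ⧸ EvC U) := by
    apply Module.IsTorsionFree.of_smul_eq_zero
    intro k g hk
    rw [or_iff_not_imp_left]
    intro hk0
    obtain ⟨f, rfl⟩ := (EvC U).mkQ_surjective g
    rw [← map_smul, Submodule.mkQ_apply, Submodule.Quotient.mk_eq_zero] at hk
    rw [Submodule.mkQ_apply, Submodule.Quotient.mk_eq_zero]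
    obtain ⟨c, hc⟩ := hk
    refine ⟨c / k, ?_⟩
    filter_upwards [hc] with n hn
    rw [← hn, Pi.smul_apply, smul_eq_mul, Int.mul_ediv_cancel_left _ hk0]
  set M := Submodule.span ℤ (Set.range fun j => (EvC U).mkQ (γ j)) with hM
  have fin : Module.Finite ℤ M := Module.Finite.span_of_finite ℤ (Set.finite_range _)
  set B := Module.finBasis ℤ M
  have hle : M ≤ (LinB U).map (EvC U).mkQ :=
    Submodule.span_le.2 (Set.range_subset_iff.2 fun j => ⟨γ j, hγ j, rfl⟩)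
  choose b hb hb' using fun i => hle (B i).2
  have hsum : ∀ a : Fin (Module.finrank ℤ M) → ℤ,
      (EvC U).mkQ (fun n => ∑ i, a i * b i n) = ((∑ i, a i • B i : M) : (ℕ → ℤ) ⧸ EvC U) := by
    intro a
    rw [Submodule.coe_sum]
    simp only [Submodule.coe_smul, ← hb', ← map_smul, ← map_sum]
    congr 1
    funext n
    simp [Finset.sum_apply]
  have hex : ∀ j, ∃ (a : Fin (Module.finrank ℤ M) → ℤ) (c : ℤ),
      ∀ᶠ n in (U : Filter ℕ), γ j n = ∑ i, a i * b i n + c := by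
    intro j
    obtain ⟨g, hg⟩ : ∃ g : M, (g : (ℕ → ℤ) ⧸ EvC U) = (EvC U).mkQ (γ j) :=
      ⟨⟨_, Submodule.subset_span ⟨j, rfl⟩⟩, rfl⟩
    have h1 := hsum (B.repr g)
    rw [B.sum_repr, hg, eq_comm, Submodule.mkQ_apply, Submodule.mkQ_apply,
      Submodule.Quotient.eq] at h1
    obtain ⟨c, hc⟩ := h1
    refine ⟨B.repr g, c, ?_⟩
    filter_upwards [hc] with n hn
    rw [← hn]
    simp
  choose a c h using hex
  refine ⟨_, b, a, c, hb, h, fun a ha C => ?_⟩
  by_contra hcon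
  rw [← Ultrafilter.eventually_not] at hcon
  have h1 : ∀ᶠ n in (U : Filter ℕ), ∃ c : Finset.Icc (-C) C, ∑ i, a i * b i n = c := by
    filter_upwards [hcon] with n hn
    exact ⟨⟨_, Finset.mem_Icc.2 (abs_le.1 (not_lt.1 hn))⟩, rfl⟩
  obtain ⟨c, hc⟩ := Ultrafilter.eventually_exists_iff.1 h1
  have h2 : (EvC U).mkQ (fun n => ∑ i, a i * b i n) = 0 := by
    rw [Submodule.mkQ_apply, Submodule.Quotient.mk_eq_zero]
    exact ⟨c, hc⟩
  rw [hsum, Submodule.coe_eq_zero] at h2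
  exact ha (funext (Fintype.linearIndependent_iff.1 B.linearIndependent a h2))

theorem nonvanish (U : Ultrafilter ℕ) (p : ℕ) (hp : 2 ≤ p) {A : Type} (T : Finset A)
    (φ : ℕ → A → ℤ)
    (hφ : ∀ a a', a ≠ a' → ∀ C : ℤ, ∀ᶠ n in (U : Filter ℕ), C < |φ n a - φ n a'|) (c : A → ℚ)
    (h : ∃ a ∈ T, c a ≠ 0) : ∀ᶠ n in (U : Filter ℕ), ∑ a ∈ T, c a * (p : ℚ) ^ φ n a ≠ 0 := by
  classical
  have hp1 : (1 : ℚ) < p := by exact_mod_cast hp
  have hC : ∀ᶠ C : ℕ in atTop, ∀ a ∈ T, c a ≠ 0 → ∑ a ∈ T, |c a| < |c a| * (p : ℚ) ^ C := by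
    rw [eventually_all_finset]
    intro a _
    by_cases ha : c a = 0
    · exact Eventually.of_forall fun _ h => absurd ha h
    · filter_upwards [((tendsto_pow_atTop_atTop_of_one_lt hp1).const_mul_atTop
        (abs_pos.2 ha)).eventually_gt_atTop (∑ a ∈ T, |c a|)] with C hC _
      exact hC
  obtain ⟨C, hC⟩ := hC.exists
  have h1 : ∀ᶠ n in (U : Filter ℕ), ∀ a ∈ T, ∀ a' ∈ T, a ≠ a' → (C : ℤ) < |φ n a - φ n a'| := by
    simp only [eventually_all_finset]
    intro a _ a' _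
    by_cases e : a = a'
    · exact Eventually.of_forall fun _ h => absurd e h
    · filter_upwards [hφ a a' e C] with n hn _
      exact hn
  filter_upwards [h1] with n hn h0
  obtain ⟨a0, ha0, hc0⟩ := h
  obtain ⟨a, ha, hm⟩ := Finset.exists_max_image (T.filter fun a => c a ≠ 0) (φ n)
    ⟨a0, Finset.mem_filter.2 ⟨ha0, hc0⟩⟩
  obtain ⟨haT, hca⟩ := Finset.mem_filter.1 ha
  rw [← Finset.add_sum_erase T _ haT] at h0
  have h2 : |∑ x ∈ T.erase a, c x * (p : ℚ) ^ φ n x| ≤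
      (∑ a ∈ T, |c a|) * (p : ℚ) ^ (φ n a - C) := by
    refine (Finset.abs_sum_le_sum_abs _ _).trans ?_
    rw [Finset.sum_mul]
    refine le_trans (Finset.sum_le_sum fun x hx => ?_)
      (Finset.sum_le_sum_of_subset_of_nonneg (Finset.erase_subset a T) fun _ _ _ => by positivity)
    obtain ⟨e, hxT⟩ := Finset.mem_erase.1 hx
    rw [abs_mul, abs_of_pos (by positivity : (0 : ℚ) < (p : ℚ) ^ φ n x)]
    by_cases hx0 : c x = 0
    · simp [hx0]
    · have a1 := hm x (Finset.mem_filter.2 ⟨hxT, hx0⟩)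
      have a2 := hn x hxT a haT e
      rw [abs_of_nonpos (by omega)] at a2
      gcongr
      · exact hp1.le
      · omega
  have h3 : (∑ a ∈ T, |c a|) * (p : ℚ) ^ (φ n a - C) < |c a| * (p : ℚ) ^ φ n a := by
    have e : (p : ℚ) ^ φ n a = (p : ℚ) ^ C * (p : ℚ) ^ (φ n a - C) := by
      rw [← zpow_natCast, ← zpow_add₀ (by positivity)]
      congr 1
      ring
    rw [e, ← mul_assoc]
    gcongr
    exact hC a haT hca
  rw [eq_neg_of_add_eq_zero_right h0, abs_neg, abs_mul,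
    abs_of_pos (by positivity : (0 : ℚ) < (p : ℚ) ^ φ n a)] at h2
  linarith

/-- rational combinations of powers of `p` -/
def InA (U : Ultrafilter ℕ) (p : ℕ) (f : ℕ → ℚ) : Prop :=
  ∃ (J : Type) (_ : Fintype J) (c : J → ℚ) (γ : J → ℕ → ℤ), (∀ j, γ j ∈ LinB U) ∧
    ∀ᶠ n in (U : Filter ℕ), f n = ∑ j, c j * (p : ℚ) ^ γ j n

namespace InA

variable {U : Ultrafilter ℕ} {p : ℕ} {f g : ℕ → ℚ}

theorem congr (h : InA U p f) (e : ∀ᶠ n in (U : Filter ℕ), f n = g n) : InA U p g := by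
  obtain ⟨J, _, c, γ, h1, h2⟩ := h
  refine ⟨J, inferInstance, c, γ, h1, ?_⟩
  filter_upwards [h2, e] with n a1 a2
  rw [← a2, a1]

theorem term (c : ℚ) {γ : ℕ → ℤ} (h : γ ∈ LinB U) : InA U p fun n => c * (p : ℚ) ^ γ n :=
  ⟨Unit, inferInstance, fun _ => c, fun _ => γ, fun _ => h, by simp⟩

theorem const (c : ℚ) : InA U p fun _ => c := by
  simpa using term (p := p) c (LinB U).zero_mem

theorem pow {e : ℕ → ℕ} (K : ℕ) (h : ∀ᶠ n in (U : Filter ℕ), e n ≤ K * n) :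
    InA U p fun n => (p : ℚ) ^ e n := by
  have : (fun n => (e n : ℤ)) ∈ LinB U := ⟨K, by
    filter_upwards [h] with n hn
    rw [Nat.abs_cast]
    exact_mod_cast hn⟩
  simpa using term (p := p) 1 this

theorem add (hf : InA U p f) (hg : InA U p g) : InA U p fun n => f n + g n := by
  obtain ⟨J, _, c, γ, h1, h2⟩ := hf
  obtain ⟨J', _, c', γ', h1', h2'⟩ := hg
  refine ⟨J ⊕ J', inferInstance, Sum.elim c c', Sum.elim γ γ', ?_, ?_⟩
  · rintro (j | j)
    · exact h1 j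
    · exact h1' j
  · filter_upwards [h2, h2'] with n a1 a2
    simp [a1, a2]

theorem mul (hp : p ≠ 0) (hf : InA U p f) (hg : InA U p g) : InA U p fun n => f n * g n := by
  obtain ⟨J, _, c, γ, h1, h2⟩ := hf
  obtain ⟨J', _, c', γ', h1', h2'⟩ := hg
  refine ⟨J × J', inferInstance, fun j => c j.1 * c' j.2, fun j => γ j.1 + γ' j.2,
    fun j => (LinB U).add_mem (h1 _) (h1' _), ?_⟩
  filter_upwards [h2, h2'] with n a1 a2
  rw [a1, a2, Finset.sum_mul_sum, Fintype.sum_prod_type]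
  refine Finset.sum_congr rfl fun j _ => Finset.sum_congr rfl fun j' _ => ?_
  rw [Pi.add_apply, zpow_add₀ (by exact_mod_cast hp)]
  ring

theorem sub (hp : p ≠ 0) (hf : InA U p f) (hg : InA U p g) : InA U p fun n => f n - g n :=
  (hf.add ((const (-1)).mul hp hg)).congr (Eventually.of_forall fun n => by ring)

theorem sum {κ : Type} (s : Finset κ) {F : κ → ℕ → ℚ} (h : ∀ t ∈ s, InA U p (F t)) :
    InA U p fun n => ∑ t ∈ s, F t n := by
  classical
  induction s using Finset.induction_on with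
  | empty => simpa using const 0
  | insert t s ht ih =>
    simp only [Finset.sum_insert ht]
    exact (h t (Finset.mem_insert_self _ _)).add
      (ih fun t' h' => h t' (Finset.mem_insert_of_mem h'))

theorem ite (P : ℕ → Prop) [DecidablePred P] (hf : InA U p f) (hg : InA U p g) :
    InA U p fun n => if P n then f n else g n := by
  rcases U.em P with h | h
  · exact hf.congr (h.mono fun n hn => (if_pos hn).symm)
  · exact hg.congr (h.mono fun n hn => (if_neg hn).symm)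

theorem bound (hU : (U : Filter ℕ) ≤ atTop) (hp : 1 ≤ p) (hf : InA U p f) :
    ∃ K : ℕ, ∀ᶠ n in (U : Filter ℕ), |f n| ≤ ((p : ℚ) + 1) ^ (K * n) := by
  obtain ⟨J, _, c, γ, h1, h2⟩ := hf
  choose K hK using h1
  obtain ⟨C, hC⟩ := exists_nat_ge (∑ j, |c j|)
  refine ⟨C + ∑ j, K j, ?_⟩
  have hp1 : (1 : ℚ) ≤ p := by exact_mod_cast hp
  filter_upwards [h2, eventually_all.2 hK, hU (eventually_ge_atTop 1)] with n a1 a2 a3
  have a4 : 1 ≤ n := a3
  have b1 : ∀ j, (p : ℚ) ^ γ j n ≤ ((p : ℚ) + 1) ^ ((∑ j, K j) * n) := by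
    intro j
    have c1 : γ j n ≤ ((∑ j, K j) * n : ℕ) := by
      refine (le_abs_self _).trans ((a2 j).trans ?_)
      have := Finset.single_le_sum (f := K) (fun _ _ => Nat.zero_le _) (Finset.mem_univ j)
      exact_mod_cast Nat.mul_le_mul_right n this
    refine (zpow_le_zpow_right₀ hp1 c1).trans ?_
    rw [zpow_natCast]
    gcongr
    linarith
  have b2 : (C : ℚ) ≤ ((p : ℚ) + 1) ^ (C * n) := by
    have c1 : C ≤ (p + 1) ^ (C * n) :=
      (Nat.lt_pow_self (by omega : 1 < p + 1)).le.trans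
        (Nat.pow_le_pow_right (by omega) (Nat.le_mul_of_pos_right _ a4))
    exact_mod_cast c1
  rw [a1, add_mul, pow_add]
  refine (Finset.abs_sum_le_sum_abs _ _).trans ?_
  refine le_trans ?_ (mul_le_mul_of_nonneg_right (hC.trans b2) (by positivity))
  rw [Finset.sum_mul]
  refine Finset.sum_le_sum fun j _ => ?_
  rw [abs_mul, abs_of_pos (by positivity : (0 : ℚ) < (p : ℚ) ^ γ j n)]
  gcongr
  exact b1 j

end InA

end Pool.Agent.MP_60c1b5_an.H73
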