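import Mathlib
import Pool.Agent.MP_60c1b5_an.H73.Rel
import Pool.Agent.MP_60c1b5_an.H73.Ring

set_option autoImplicit false

/-!
A relation between integer sequences with coefficients combinations of powers of `p` can be
replaced by one with small coefficients.
-/

namespace Pool.Agent.MP_60c1b5_an.H73

open Real Filter Topology

/-- the cube of radius `r` -/
noncomputable def box (ρ r : ℕ) : Finset (Fin ρ → ℤ) := Fintype.piFinset fun _ => Finset.Icc (-(r : ℤ)) r

theorem mem_box {ρ r : ℕ} {a : Fin ρ → ℤ} : a ∈ box ρ r ↔ ∀ i, |a i| ≤ r := by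
  simp only [box, Fintype.mem_piFinset, Finset.mem_Icc, abs_le]

theorem card_box (ρ r : ℕ) : (box ρ r).card = (2 * r + 1) ^ ρ := by
  have : ((r : ℤ) + 1 - -(r : ℤ)).toNat = 2 * r + 1 := by omega
  simp only [box, Fintype.card_piFinset, Int.card_Icc, this, Finset.prod_const, Finset.card_univ,
    Fintype.card_fin]

theorem exists_box (ρ w : ℕ) (η : ℝ) (hη : 0 < η) :
    ∃ D : ℕ, ((box ρ (D + w)).card : ℝ) ≤ (1 + η) * (box ρ D).card := by
  have t1 : Tendsto (fun D : ℕ => (2 * (D : ℝ) + 1)) atTop atTop :=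
    tendsto_atTop_add_const_right _ _ (tendsto_natCast_atTop_atTop.const_mul_atTop (by norm_num))
  have t2 := ((t1.const_div_atTop (2 * w : ℝ)).const_add 1).pow ρ
  rw [add_zero, one_pow] at t2
  obtain ⟨D, hD⟩ := (t2.eventually (gt_mem_nhds (by linarith : (1 : ℝ) < 1 + η))).exists
  refine ⟨D, ?_⟩
  rw [card_box, card_box]
  push_cast
  have e : (2 * ((D : ℝ) + w) + 1) = (1 + 2 * w / (2 * D + 1)) * (2 * D + 1) := by
    field_simp
    ring
  rw [e, mul_pow]
  gcongr

theorem sz0 (U : Ultrafilter ℕ) (hU : (U : Filter ℕ) ≤ atTop) (p q : ℕ) (hp : 2 ≤ p) (hq : 1 ≤ q)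
    {κ : Type} [Fintype κ] (u : ℕ → κ → ℤ) (ℓ : ℕ → κ → ℝ) (e : ℕ → κ → ℕ) (K : ℕ)
    (h : ∀ᶠ n in (U : Filter ℕ), ∀ t, |(u n t : ℝ)| ≤ ℓ n t ∧ (e n t : ℝ) ≤ ℓ n t ∧
      ℓ n t ≤ exp (K * n) ∧ (e n t : ℤ) ∣ u n t ∧ e n t ∣ q ^ (K * n))
    (f : κ → ℕ → ℚ) (hf : ∀ t, InA U p (f t)) (t0 : κ) (h0 : ∀ᶠ n in (U : Filter ℕ), f t0 n ≠ 0)
    (hrel : ∀ᶠ n in (U : Filter ℕ), ∑ t, f t n * u n t = 0) :
    ∃ g : κ → ℕ → ℚ, (∀ t, InA U p (g t)) ∧ (∃ t, ∀ᶠ n in (U : Filter ℕ), g t n ≠ 0) ∧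
      ∀ᶠ n in (U : Filter ℕ), ∑ t, g t n * u n t = 0 ∧
        ∀ t, |(g t n : ℝ)| * ℓ n t ≤ exp n * ∏ s, ℓ n s / e n s ∧
          ∃ m : ℤ, (p : ℚ) ^ Nat.log p (e n t) * g t n = m := by
  classical
  have hp0 : (p : ℚ) ≠ 0 := by positivity
  have hpR : (1 : ℝ) < p := by exact_mod_cast hp
  choose J iJ c γ hγ hfe using hf
  obtain ⟨ρ, b, a, c', hb, ha, hgrow⟩ := lattice U (J := Σ t, J t) (fun j => γ j.1 j.2)
    fun j => hγ _ _
  set φ : ℕ → (Fin ρ → ℤ) → ℤ := fun n a => ∑ i, a i * b i n with hφ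
  have φadd : ∀ n a a', φ n (a + a') = φ n a + φ n a' := by
    intro n a a'
    simp only [hφ, Pi.add_apply, add_mul, Finset.sum_add_distrib]
  have φsep : ∀ a a', a ≠ a' → ∀ C : ℤ, ∀ᶠ n in (U : Filter ℕ), C < |φ n a - φ n a'| := by
    intro a a' hne C
    filter_upwards [hgrow (a - a') (sub_ne_zero.2 hne) C] with n hn
    have := φadd n (a - a') a'
    rw [sub_add_cancel] at this
    rwa [this, add_sub_cancel_right]
  have φlin : ∀ a, (fun n => φ n a) ∈ LinB U := by
    intro a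
    have : (fun n => φ n a) = ∑ i, a i • b i := by
      funext n
      simp [hφ, Finset.sum_apply]
    rw [this]
    exact Submodule.sum_mem _ fun i _ => Submodule.smul_mem _ _ (hb i)
  obtain ⟨w, hw⟩ := Finite.exists_le fun j : (Σ t, J t) × Fin ρ => (a j.1 j.2).natAbs
  obtain ⟨D, hD⟩ := exists_box ρ w (1 / (3 * (Fintype.card κ * K + 1))) (by positivity)
  choose KB hKB using φlin
  set B : ℕ := ∑ x ∈ box ρ (D + w), KB x with hB
  have hBn : ∀ᶠ n : ℕ in (U : Filter ℕ), ∀ x ∈ box ρ (D + w), |φ n x| ≤ (B * n : ℕ) := by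
    rw [eventually_all_finset]
    intro x hx
    filter_upwards [hKB x] with n hn
    refine hn.trans ?_
    have := Finset.single_le_sum (f := KB) (fun _ _ => Nat.zero_le _) hx
    exact_mod_cast Nat.mul_le_mul_right n this
  clear_value B
  set F : κ → (Fin ρ → ℤ) → ℚ := fun t x =>
    ∑ j : J t, if a ⟨t, j⟩ = x then c t j * (p : ℚ) ^ c' ⟨t, j⟩ else 0 with hF
  have hFe : ∀ᶠ n in (U : Filter ℕ), ∀ t, ∀ x' ∈ box ρ D,
      ∑ x : box ρ (D + w), F t (x - x') * (p : ℚ) ^ φ n x = (p : ℚ) ^ φ n x' * f t n := by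
    filter_upwards [eventually_all.2 hfe, eventually_all.2 ha] with n h1 h2 t x' hx'
    rw [Finset.sum_coe_sort (box ρ (D + w)) fun x => F t (x - x') * (p : ℚ) ^ φ n x, h1 t,
      Finset.mul_sum]
    simp only [hF, Finset.sum_mul]
    rw [Finset.sum_comm]
    refine Finset.sum_congr rfl fun j _ => ?_
    have hm : a ⟨t, j⟩ + x' ∈ box ρ (D + w) := by
      rw [mem_box] at hx' ⊢
      intro i
      have a1 := hx' i
      have a2 : |a ⟨t, j⟩ i| ≤ w := by
        rw [← Int.natCast_natAbs]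
        exact_mod_cast hw (⟨t, j⟩, i)
      have a3 := abs_add_le (a ⟨t, j⟩ i) (x' i)
      rw [Pi.add_apply]
      push_cast
      linarith
    rw [Finset.sum_eq_single_of_mem _ hm]
    · have := h2 ⟨t, j⟩
      simp only at this
      rw [if_pos (add_sub_cancel_right _ _).symm, φadd, this, zpow_add₀ hp0, zpow_add₀ hp0]
      ring
    · intro x _ hx
      rw [if_neg, zero_mul]
      intro e
      exact hx (by rw [e, sub_add_cancel])
  set k : ℕ → box ρ (D + w) → ℕ := fun n x => (φ n x + (B * n : ℕ)).toNat with hk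
  have hke : ∀ᶠ n : ℕ in (U : Filter ℕ), ∀ x : box ρ (D + w),
      (k n x : ℤ) = φ n x + (B * n : ℕ) ∧ k n x ≤ 2 * B * n := by
    filter_upwards [hBn] with n hn x
    have := abs_le.1 (hn x x.2)
    simp only [hk, mul_assoc]
    omega
  have he0 : ∀ᶠ n in (U : Filter ℕ), ∀ t, 1 ≤ e n t := by
    filter_upwards [h] with n hn t
    exact Nat.pos_of_dvd_of_pos (hn t).2.2.2.2 (by positivity)
  have : Nonempty (box ρ D) := ⟨⟨0, mem_box.2 fun i => by simp⟩⟩
  have hdv : ∀ᶠ n in (U : Filter ℕ), ∀ α : κ × box ρ (D + w),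
      e n α.1 * p ^ k n α.2 ∣ (p * q) ^ ((K + 2 * B * p) * n) := by
    filter_upwards [h, hke] with n h1 h2 α
    rw [mul_pow, mul_comm]
    refine mul_dvd_mul (pow_dvd_pow _ ((h2 α.2).2.trans (Nat.mul_le_mul_right _ ?_)))
      ((h1 α.1).2.2.2.2.trans (pow_dvd_pow _ (Nat.mul_le_mul_right _ (by omega))))
    nlinarith
  obtain ⟨y, l, θ, hyl, hy⟩ := rel (ι := κ × box ρ (D + w)) (J := box ρ D) U hU (p * q)
    (K + 2 * B * p) (by nlinarith) (fun n α => u n α.1 * p ^ k n α.2)
    (fun n α => ℓ n α.1 * p ^ k n α.2) (fun n α => e n α.1 * p ^ k n α.2) (by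
      filter_upwards [h, hke, he0, hdv] with n h1 h2 h3 h4 α
      obtain ⟨b1, b2, b3, b4, -⟩ := h1 α.1
      have b5 : (1 : ℝ) ≤ ℓ n α.1 := le_trans (by exact_mod_cast h3 α.1) b2
      have b6 : (1 : ℝ) ≤ (p : ℝ) ^ k n α.2 := one_le_pow₀ hpR.le
      refine ⟨?_, ?_, ?_, ?_, h4 α⟩
      · push_cast
        rw [abs_mul, abs_of_pos (by positivity : (0 : ℝ) < (p : ℝ) ^ k n α.2)]
        gcongr
      · push_cast
        gcongr
      · rw [abs_of_nonneg (log_nonneg (one_le_mul_of_one_le_of_one_le b5 b6)),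
          log_mul (by positivity) (by positivity), log_pow]
        have c1 : log (ℓ n α.1) ≤ K * n := (log_le_iff_le_exp (by positivity)).2 b3
        have c2 : log p ≤ p := (log_le_sub_one_of_pos (by positivity)).trans (by linarith)
        have c3 : (k n α.2 : ℝ) ≤ 2 * B * n := by exact_mod_cast (h2 α.2).2
        have c4 : (k n α.2 : ℝ) * log p ≤ 2 * B * n * p :=
          mul_le_mul c3 c2 (log_nonneg hpR.le) (by positivity)
        push_cast
        nlinarith
      · push_cast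
        exact mul_dvd_mul_right b4 _)
    (1 / 3) (by norm_num) (fun x' α => F α.1 (α.2 - x')) (by
      rw [Fintype.linearIndependent_iff]
      intro r hr
      by_contra hne
      push Not at hne
      obtain ⟨x0, hx0⟩ := hne
      obtain ⟨n, h1, h2, h3⟩ := ((nonvanish U p hp Finset.univ (fun n (x : box ρ D) => φ n x)
        (fun x x' hx => φsep _ _ fun e => hx (Subtype.ext e)) r
        ⟨x0, Finset.mem_univ _, hx0⟩).and (h0.and hFe)).exists
      apply mul_ne_zero h1 h2
      simp only [Finset.sum_mul, mul_assoc, ← fun x : box ρ D => h3 t0 x x.2, Finset.mul_sum]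
      rw [Finset.sum_comm]
      refine Finset.sum_eq_zero fun x _ => ?_
      have := congrFun hr (t0, x)
      simp only [Finset.sum_apply, Pi.smul_apply, smul_eq_mul, Pi.zero_apply] at this
      simp only [← mul_assoc, ← Finset.sum_mul, this, zero_mul]) (by
      intro x'
      filter_upwards [hFe, hke, hrel] with n h1 h2 h3
      rw [Fintype.sum_prod_type]
      have : ∀ t, ∑ x : box ρ (D + w), F t (x - x') * ((u n t * p ^ k n x : ℤ) : ℚ) =
          (p : ℚ) ^ (B * n) * (p : ℚ) ^ φ n x' * (f t n * u n t) := by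
        intro t
        rw [mul_assoc, ← mul_assoc _ (f t n), ← h1 t x' x'.2, Finset.sum_mul, Finset.mul_sum]
        refine Finset.sum_congr rfl fun x _ => ?_
        push_cast
        rw [← zpow_natCast (p : ℚ) (k n x), (h2 x).1, zpow_add₀ hp0, zpow_natCast]
        ring
      simp only [this, ← Finset.mul_sum, h3, mul_zero])
  set τ : ℕ → ℕ := fun n => Nat.log p (e n θ.1 * p ^ k n θ.2) with hτ
  have hexp : ∀ x : box ρ (D + w), (fun n => (k n x : ℤ) - τ n) ∈ LinB U := by
    intro x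
    refine (LinB U).sub_mem (x := fun n => (k n x : ℤ)) (y := fun n => (τ n : ℤ)) ⟨2 * B, ?_⟩
      ⟨p * q * (K + 2 * B * p), ?_⟩
    · filter_upwards [hke] with n hn
      rw [Nat.abs_cast]
      exact_mod_cast (hn x).2
    · filter_upwards [hdv] with n hn
      rw [Nat.abs_cast]
      have c1 := Nat.le_of_dvd (by positivity) (hn θ)
      have c2 : (p * q) ^ ((K + 2 * B * p) * n) ≤ p ^ (p * q * (K + 2 * B * p) * n) := by
        rw [mul_assoc (p * q), pow_mul p]
        exact Nat.pow_le_pow_left (Nat.lt_pow_self (by omega)).le _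
      have c3 := Nat.log_mono_right (b := p) (c1.trans c2)
      rw [Nat.log_pow (by omega)] at c3
      exact_mod_cast c3
  refine ⟨fun t n => ∑ x : box ρ (D + w), y (t, x) * (p : ℚ) ^ ((k n x : ℤ) - τ n),
    fun t => InA.sum _ fun x _ => InA.term _ (hexp x), ⟨l.1, ?_⟩, ?_⟩
  · refine nonvanish U p hp Finset.univ (fun n (x : box ρ (D + w)) => (k n x : ℤ) - τ n) ?_
      (fun x => (y (l.1, x) : ℚ)) ⟨l.2, Finset.mem_univ _, by exact_mod_cast hyl⟩
    intro x x' hx C
    filter_upwards [φsep x x' (fun e => hx (Subtype.ext e)) C, hke] with n h1 h2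
    rw [(h2 x).1, (h2 x').1]
    have e : φ n x + (B * n : ℕ) - τ n - (φ n x' + (B * n : ℕ) - τ n) = φ n x - φ n x' := by ring
    rwa [e]
  · have t1 : Tendsto (fun n : ℕ => exp ((n : ℝ) / 3)) atTop atTop :=
      tendsto_exp_atTop.comp (tendsto_natCast_atTop_atTop.atTop_div_const (by norm_num))
    filter_upwards [h, hy, he0, hU (t1.eventually_ge_atTop (p * ∑ α, |(y α : ℝ)|))]
      with n h1 h2 h3 h4
    obtain ⟨h5, h6, h7⟩ := h2
    have h4' : (p : ℝ) * ∑ α, |(y α : ℝ)| ≤ exp (n / 3) := h4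
    have hθ0 : e n θ.1 * p ^ k n θ.2 ≠ 0 := mul_ne_zero (by have := h3 θ.1; omega) (by positivity)
    have hτ1 : p ^ τ n ≤ e n θ.1 * p ^ k n θ.2 := Nat.pow_log_le_self _ hθ0
    have hτ2 : e n θ.1 * p ^ k n θ.2 < p ^ (τ n + 1) := Nat.lt_pow_succ_log_self (by omega) _
    refine ⟨?_, fun t => ⟨?_, ?_⟩⟩
    · have e1 : ((∑ α : κ × box ρ (D + w), y α * (u n α.1 * p ^ k n α.2) : ℤ) : ℚ) = 0 := by
        rw [h5]
        simp
      push_cast at e1
      rw [Fintype.sum_prod_type] at e1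
      have e2 : ∑ t, (∑ x : box ρ (D + w), y (t, x) * (p : ℚ) ^ ((k n x : ℤ) - τ n)) * u n t =
          (∑ t, ∑ x : box ρ (D + w), (y (t, x) : ℚ) * (u n t * p ^ k n x)) / p ^ τ n := by
        rw [Finset.sum_div]
        refine Finset.sum_congr rfl fun t _ => ?_
        rw [Finset.sum_mul, Finset.sum_div]
        refine Finset.sum_congr rfl fun x _ => ?_
        rw [zpow_sub₀ hp0, zpow_natCast, zpow_natCast]
        ring
      rw [e2, e1, zero_div]
    · set Pr := ∏ s, ℓ n s / e n s with hPr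
      have c0 : ∀ s, (0 : ℝ) < e n s := fun s => by exact_mod_cast h3 s
      have c1 : ∀ s, 1 ≤ ℓ n s / e n s := fun s => (one_le_div (c0 s)).2 (h1 s).2.1
      have c2 : 1 ≤ Pr := Finset.one_le_prod fun s _ => c1 s
      have c3 : Pr ≤ exp (Fintype.card κ * (K * n)) := by
        rw [exp_nat_mul, ← Finset.card_univ, ← Finset.prod_const]
        refine Finset.prod_le_prod (fun s _ => zero_le_one.trans (c1 s)) fun s _ => ?_
        refine le_trans (div_le_self ((c0 s).le.trans (h1 s).2.1) ?_) (h1 s).2.2.1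
        exact_mod_cast h3 s
      have c4 : ∏ α : κ × box ρ (D + w), ℓ n α.1 * p ^ k n α.2 / ((e n α.1 * p ^ k n α.2 : ℕ) : ℝ) =
          Pr ^ (box ρ (D + w)).card := by
        rw [Fintype.prod_prod_type, hPr, ← Finset.prod_pow]
        refine Finset.prod_congr rfl fun s _ => ?_
        rw [← Fintype.card_coe, ← Finset.card_univ, ← Finset.prod_const]
        refine Finset.prod_congr rfl fun x _ => ?_
        push_cast
        rw [mul_div_mul_right _ _ (by positivity)]
      rw [c4, Fintype.card_coe] at h7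
      set r := ℓ n l.1 * p ^ k n l.2 / ((e n θ.1 * p ^ k n θ.2 : ℕ) : ℝ) with hr
      have cl : 0 < ℓ n l.1 := (c0 _).trans_le (h1 _).2.1
      have cθ : (0 : ℝ) < ((e n θ.1 * p ^ k n θ.2 : ℕ) : ℝ) := by positivity
      have c5 : 0 < r := by positivity
      have c6 : r ≤ exp (2 * n / 3) * Pr := by
        have d0 : (1 : ℝ) ≤ (box ρ D).card := by
          exact_mod_cast Finset.card_pos.2 ⟨0, mem_box.2 fun i => by simp⟩
        have d1 := log_le_log (by positivity) h7
        rw [log_pow, log_mul (by positivity) (by positivity), log_exp, log_pow] at d1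
        have d2 : 0 ≤ log Pr := log_nonneg c2
        have d3 : log Pr ≤ Fintype.card κ * (K * n) := (log_le_iff_le_exp (by positivity)).2 c3
        have d4 : 1 / (3 * ((Fintype.card κ : ℝ) * K + 1)) * log Pr ≤ n / 3 := by
          rw [one_div, inv_mul_le_iff₀ (by positivity)]
          have : (0 : ℝ) ≤ n := by positivity
          nlinarith
        have d5 := mul_le_mul_of_nonneg_right hD d2
        have d6 : log r ≤ 2 * n / 3 + log Pr := by
          refine le_of_mul_le_mul_left ?_ (zero_lt_one.trans_le d0)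
          have : (0 : ℝ) ≤ n := by positivity
          nlinarith [mul_le_mul_of_nonneg_left d4 (zero_le_one.trans d0)]
        rw [← log_le_log_iff c5 (by positivity), log_mul (by positivity) (by positivity), log_exp]
        exact d6
      have c7 : ∀ x : box ρ (D + w), |(y (t, x) : ℝ)| * ((p : ℝ) ^ ((k n x : ℤ) - τ n) * ℓ n t) ≤
          |(y (t, x) : ℝ)| * (p * r) := by
        intro x
        by_cases hx : y (t, x) = 0
        · simp [hx]
        · refine mul_le_mul_of_nonneg_left ?_ (abs_nonneg _)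
          have d1 : ℓ n t * (p : ℝ) ^ k n x ≤ ℓ n l.1 * (p : ℝ) ^ k n l.2 := (h6 _ hx).1
          have d2 : ((e n θ.1 * p ^ k n θ.2 : ℕ) : ℝ) ≤ p ^ τ n * p := by
            rw [← pow_succ]
            exact_mod_cast hτ2.le
          rw [zpow_sub₀ (by positivity), zpow_natCast, zpow_natCast, hr, div_mul_eq_mul_div,
            ← mul_div_assoc, div_le_div_iff₀ (by positivity) cθ]
          calc (p : ℝ) ^ k n x * ℓ n t * ((e n θ.1 * p ^ k n θ.2 : ℕ) : ℝ)
              ≤ (ℓ n l.1 * p ^ k n l.2) * (p ^ τ n * p) := by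
                rw [mul_comm (_ ^ k n x)]
                gcongr
            _ = _ := by ring
      have c8 : ∑ x : box ρ (D + w), |(y (t, x) : ℝ)| ≤ ∑ α, |(y α : ℝ)| := by
        rw [Fintype.sum_prod_type]
        exact Finset.single_le_sum (f := fun t => ∑ x : box ρ (D + w), |(y (t, x) : ℝ)|)
          (fun _ _ => by positivity) (Finset.mem_univ t)
      have cl' : 0 ≤ ℓ n t := (c0 _).le.trans (h1 _).2.1
      push_cast
      calc |∑ x : box ρ (D + w), (y (t, x) : ℝ) * (p : ℝ) ^ ((k n x : ℤ) - τ n)| * ℓ n t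
          ≤ (∑ x : box ρ (D + w), |(y (t, x) : ℝ) * (p : ℝ) ^ ((k n x : ℤ) - τ n)|) * ℓ n t := by
            gcongr
            exact Finset.abs_sum_le_sum_abs _ _
        _ ≤ ∑ x : box ρ (D + w), |(y (t, x) : ℝ)| * (p * r) := by
            rw [Finset.sum_mul]
            refine Finset.sum_le_sum fun x _ => le_trans (le_of_eq ?_) (c7 x)
            rw [abs_mul, abs_of_pos (by positivity : (0 : ℝ) < (p : ℝ) ^ ((k n x : ℤ) - τ n)),
              mul_assoc]
        _ ≤ (∑ α, |(y α : ℝ)|) * (p * r) := by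
            rw [← Finset.sum_mul]
            gcongr
        _ = (p * ∑ α, |(y α : ℝ)|) * r := by ring
        _ ≤ exp (n / 3) * (exp (2 * n / 3) * Pr) := by gcongr
        _ = _ := by
            rw [← mul_assoc, ← exp_add]
            congr 2
            ring
    · refine ⟨∑ x : box ρ (D + w), y (t, x) * p ^ (Nat.log p (e n t) + k n x - τ n), ?_⟩
      push_cast
      rw [Finset.mul_sum]
      refine Finset.sum_congr rfl fun x _ => ?_
      by_cases hx : y (t, x) = 0
      · simp [hx]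
      · have d1 : p ^ τ n < p ^ (Nat.log p (e n t) + 1 + k n x) := by
          refine (hτ1.trans (h6 _ hx).2).trans_lt ?_
          rw [pow_add]
          exact Nat.mul_lt_mul_of_pos_right (Nat.lt_pow_succ_log_self (by omega) _) (by positivity)
        have d2 : τ n ≤ Nat.log p (e n t) + k n x := by
          have := (Nat.pow_lt_pow_iff_right (by omega : 1 < p)).1 d1
          omega
        rw [pow_sub₀ _ hp0 d2, zpow_sub₀ hp0, zpow_natCast, zpow_natCast, pow_add]
        ring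

theorem sz (U : Ultrafilter ℕ) (hU : (U : Filter ℕ) ≤ atTop) (p q : ℕ) (hp : 2 ≤ p) (hq : 1 ≤ q)
    {κ : Type} [Fintype κ] (u : ℕ → κ → ℤ) (ℓ : ℕ → κ → ℝ) (e : ℕ → κ → ℕ) (K : ℕ)
    (h : ∀ᶠ n in (U : Filter ℕ), ∀ t, |(u n t : ℝ)| ≤ ℓ n t ∧ (e n t : ℝ) ≤ ℓ n t ∧
      ℓ n t ≤ exp (K * n) ∧ (e n t : ℤ) ∣ u n t ∧ e n t ∣ q ^ (K * n))
    (f : κ → ℕ → ℚ) (hf : ∀ t, InA U p (f t)) (z : κ) (h0 : ∀ᶠ n in (U : Filter ℕ), f z n ≠ 0)
    (hrel : ∀ᶠ n in (U : Filter ℕ), ∑ t, f t n * u n t = 0) :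
    ∃ g : κ → ℕ → ℚ, (∀ t, InA U p (g t)) ∧
      ∀ᶠ n in (U : Filter ℕ), g z n ≠ 0 ∧ ∑ t, g t n * u n t = 0 ∧
        ∀ t, |(g t n : ℝ)| * ℓ n t ≤ exp n * ∏ s, ℓ n s / e n s ∧
          ∃ m : ℤ, (p : ℚ) ^ Nat.log p (e n t) * g t n = m := by
  classical
  obtain ⟨s, hs⟩ : ∃ s : Finset κ, ∀ t ∉ s, ∀ n, f t n = 0 := ⟨Finset.univ, by simp⟩
  induction s using Finset.strongInduction generalizing f with
  | H s ih =>
    have hz : z ∈ s := by
      by_contra hz
      obtain ⟨n, hn⟩ := h0.exists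
      exact hn (hs z hz n)
    have hsum : ∀ F : κ → ℚ, (∀ t ∉ s, F t = 0) → ∑ t : s, F t = ∑ t, F t := by
      intro F hF
      rw [Finset.sum_coe_sort s F]
      exact Finset.sum_subset (Finset.subset_univ s) fun t _ ht => hF t ht
    obtain ⟨g', a1, ⟨t1, a2⟩, a3⟩ := sz0 U hU p q hp hq (κ := s) (fun n t => u n t)
      (fun n t => ℓ n t) (fun n t => e n t) K (h.mono fun n hn t => hn t) (fun t => f t)
      (fun t => hf t) ⟨z, hz⟩ h0 (by
        filter_upwards [hrel] with n hn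
        rw [hsum (fun t => f t n * u n t) fun t ht => by rw [hs t ht n, zero_mul], hn])
    set g : κ → ℕ → ℚ := fun t n => if ht : t ∈ s then g' ⟨t, ht⟩ n else 0 with hg
    have e1 : ∀ t : s, g t = g' t := fun t => funext fun n => dif_pos t.2
    have e2 : ∀ t ∉ s, ∀ n, g t n = 0 := fun t ht n => dif_neg ht
    have b1 : ∀ t, InA U p (g t) := by
      intro t
      by_cases ht : t ∈ s
      · exact e1 ⟨t, ht⟩ ▸ a1 ⟨t, ht⟩
      · exact (InA.const 0).congr (Eventually.of_forall fun n => (e2 t ht n).symm)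
    have b2 : ∀ᶠ n in (U : Filter ℕ), ∑ t, g t n * u n t = 0 := by
      filter_upwards [a3] with n hn
      rw [← hsum (fun t => g t n * u n t) fun t ht => by rw [e2 t ht n, zero_mul], ← hn.1]
      simp only [e1]
    rcases U.em fun n => g z n = 0 with hz0 | hz0
    · have hp0 : p ≠ 0 := by omega
      refine ih (s.erase t1) (Finset.erase_ssubset t1.2)
        (fun t n => g t1 n * f t n - f t1 n * g t n)
        (fun t => ((b1 _).mul hp0 (hf _)).sub hp0 ((hf _).mul hp0 (b1 _))) ?_ ?_ ?_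
      · filter_upwards [hz0, h0, a2] with n c1 c2 c3
        rw [c1, mul_zero, sub_zero, e1]
        exact mul_ne_zero c3 c2
      · filter_upwards [hrel, b2] with n c1 c2
        simp only [sub_mul, mul_assoc, Finset.sum_sub_distrib, ← Finset.mul_sum, c1, c2, mul_zero,
          sub_zero]
      · intro t ht n
        by_cases e : t = t1
        · rw [e]
          ring
        · have : t ∉ s := fun h' => ht (Finset.mem_erase.2 ⟨e, h'⟩)
          rw [hs t this, e2 t this]
          ring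
    · refine ⟨g, b1, ?_⟩
      filter_upwards [hz0, b2, a3, h] with n c1 c2 c3 c4
      refine ⟨c1, c2, fun t => ?_⟩
      have c0 : ∀ t, (0 : ℝ) < e n t := fun t => by
        exact_mod_cast Nat.pos_of_dvd_of_pos (c4 t).2.2.2.2 (by positivity)
      have c5 : ∀ t, 1 ≤ ℓ n t / e n t := fun t => (one_le_div (c0 t)).2 (c4 t).2.1
      by_cases ht : t ∈ s
      · rw [e1 ⟨t, ht⟩]
        refine ⟨(c3.2 ⟨t, ht⟩).1.trans ?_, (c3.2 ⟨t, ht⟩).2⟩
        rw [Finset.prod_coe_sort s fun t => ℓ n t / e n t]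
        exact mul_le_mul_of_nonneg_left (Finset.prod_le_prod_of_subset_of_one_le
          (Finset.subset_univ s) (fun t _ => zero_le_one.trans (c5 t)) fun t _ _ => c5 t)
          (exp_pos _).le
      · rw [e2 t ht]
        refine ⟨?_, 0, by simp⟩
        simp only [Rat.cast_zero, abs_zero, zero_mul]
        exact mul_nonneg (exp_pos _).le (Finset.prod_nonneg fun t _ => zero_le_one.trans (c5 t))

end Pool.Agent.MP_60c1b5_an.H73
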