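import Mathlib
import Pool.Agent.MP_60c1b5_an.H73.SZ

set_option autoImplicit false

/-!
Two compressible integers related by multiplication by `q ^ h` with carries come from a rational
number of small height.
-/

namespace Pool.Agent.MP_60c1b5_an.H73

open Real Filter

theorem int_of_coprime {x : ℚ} {A B m m' : ℤ} (h : IsCoprime A B) (h1 : A * x = m)
    (h2 : B * x = m') : ∃ k : ℤ, x = k := by
  obtain ⟨a, b, hab⟩ := h
  refine ⟨a * m + b * m', ?_⟩
  have : (a : ℚ) * A + b * B = 1 := by exact_mod_cast hab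
  push_cast
  rw [← h1, ← h2]
  linear_combination (-x) * this

theorem exp_le_pow {p : ℕ} (hp : 2 ≤ p) (n : ℕ) : exp n ≤ (p : ℝ) ^ (2 * n) := by
  have h1 : exp 1 ≤ (p : ℝ) ^ 2 := by
    have : (2 : ℝ) ≤ p := by exact_mod_cast hp
    nlinarith [exp_one_lt_d9]
  rw [pow_mul, ← mul_one (n : ℝ), exp_nat_mul]
  gcongr

theorem pow_le_exp (p n : ℕ) : (p : ℝ) ^ n ≤ exp ((p * n : ℕ) : ℝ) := by
  rw [mul_comm, Nat.cast_mul, exp_nat_mul]
  gcongr
  linarith [add_one_le_exp (p : ℝ)]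

/-- the span of a family of sequences over the combinations of powers of `p` -/
def Sp (U : Ultrafilter ℕ) (p : ℕ) {κ : Type} [Fintype κ] (c : ℕ → κ → ℤ) (I : ℕ → ℚ) : Prop :=
  ∃ f : κ → ℕ → ℚ, (∀ t, InA U p (f t)) ∧ ∀ᶠ n in (U : Filter ℕ), I n = ∑ t, f t n * c n t

section

variable {U : Ultrafilter ℕ} {p : ℕ} {κ : Type} [Fintype κ] {c : ℕ → κ → ℤ} {I I' g : ℕ → ℚ}

theorem Sp.congr (h : Sp U p c I) (e : ∀ᶠ n in (U : Filter ℕ), I n = I' n) : Sp U p c I' := by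
  obtain ⟨f, h1, h2⟩ := h
  refine ⟨f, h1, ?_⟩
  filter_upwards [h2, e] with n a1 a2
  rw [← a2, a1]

theorem Sp.add (h : Sp U p c I) (h' : Sp U p c I') : Sp U p c fun n => I n + I' n := by
  obtain ⟨f, h1, h2⟩ := h
  obtain ⟨f', h1', h2'⟩ := h'
  refine ⟨fun t n => f t n + f' t n, fun t => (h1 t).add (h1' t), ?_⟩
  filter_upwards [h2, h2'] with n a1 a2
  simp only [a1, a2, add_mul, Finset.sum_add_distrib]

theorem Sp.mul (hp : p ≠ 0) (hg : InA U p g) (h : Sp U p c I) : Sp U p c fun n => g n * I n := by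
  obtain ⟨f, h1, h2⟩ := h
  refine ⟨fun t n => g n * f t n, fun t => hg.mul hp (h1 t), ?_⟩
  filter_upwards [h2] with n a1
  simp only [a1, Finset.mul_sum, mul_assoc]

theorem Sp.sub (hp : p ≠ 0) (h : Sp U p c I) (h' : Sp U p c I') :
    Sp U p c fun n => I n - I' n :=
  (h.add (h'.mul hp (InA.const (-1)))).congr (Eventually.of_forall fun n => by ring)

end

/-- size data for a family of atoms -/
def Atoms (U : Ultrafilter ℕ) (p : ℕ) {κ : Type} [Fintype κ] (c : ℕ → κ → ℤ) (γ : ℕ → κ → ℕ) :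
    Prop := ∀ᶠ n in (U : Filter ℕ), (∀ t, |c n t| ≤ (p : ℤ) ^ γ n t) ∧ ∑ t, γ n t ≤ n

theorem van {U : Ultrafilter ℕ} (hU : (U : Filter ℕ) ≤ atTop) {p q : ℕ} (hp : p.Prime) (hq : 2 ≤ q)
    (hpq : p.Coprime q) {κ : Type} [Fintype κ] {c : ℕ → κ → ℤ} {γ : ℕ → κ → ℕ}
    (hc : Atoms U p c γ) {h : ℕ → ℕ} {D : ℕ}
    (hh : ∀ᶠ n in (U : Filter ℕ), 3 * p * n ≤ h n ∧ h n ≤ D * n) (J : ℕ → ℤ)
    (hJ : Sp U p c fun n => (q : ℚ) ^ h n * J n) : ∀ᶠ n in (U : Filter ℕ), J n = 0 := by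
  have : Fact p.Prime := ⟨hp⟩
  have hp2 := hp.two_le
  have hp1 : (1 : ℚ) ≤ p := by exact_mod_cast hp.one_le
  have hpR : (1 : ℝ) ≤ p := by exact_mod_cast hp.one_le
  by_contra hcon
  rw [← Ultrafilter.eventually_not] at hcon
  obtain ⟨f, hf, hI⟩ := hJ
  obtain ⟨K, hK⟩ := (InA.sum Finset.univ fun t _ =>
    ((hf t).mul hp.ne_zero (hf t)).add (InA.const 1)).mul hp.ne_zero
    (InA.pow (U := U) (p := p) (e := fun n => n) 1 (by simp)) |>.bound hU hp.one_le
  have hex : ∀ n, ∃ (v : ℕ) (w : ℤ), J n ≠ 0 → J n = p ^ v * w ∧ ¬ (p : ℤ) ∣ w := by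
    intro n
    by_cases h0 : J n = 0
    · exact ⟨0, 0, fun h => absurd h0 h⟩
    · obtain ⟨v, w, h1, h2⟩ :=
        WfDvdMonoid.max_power_factor h0 (Nat.prime_iff_prime_int.1 hp).irreducible
      exact ⟨v, w, fun _ => ⟨h2, h1⟩⟩
  choose v w hw using hex
  have hb : ∀ᶠ n in (U : Filter ℕ), |(q : ℚ) ^ h n * J n| ≤ ((p : ℚ) + 1) ^ (K * n) := by
    filter_upwards [hK, hI, hc] with n a1 a2 a3
    rw [a2]
    refine (Finset.abs_sum_le_sum_abs _ _).trans (le_trans ?_ ((le_abs_self _).trans a1))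
    rw [Finset.sum_mul]
    refine Finset.sum_le_sum fun t _ => ?_
    have b1 : |(c n t : ℚ)| ≤ (p : ℚ) ^ n := by
      have : |(c n t : ℚ)| ≤ (p : ℚ) ^ γ n t := by exact_mod_cast a3.1 t
      exact this.trans (pow_le_pow_right₀ hp1 ((Finset.single_le_sum (fun _ _ => Nat.zero_le _)
        (Finset.mem_univ t)).trans a3.2))
    have b2 : |f t n| ≤ f t n * f t n + 1 := by
      rw [← abs_mul_abs_self]
      nlinarith [abs_nonneg (f t n)]
    rw [abs_mul]
    exact mul_le_mul b2 b1 (abs_nonneg _) ((abs_nonneg _).trans b2)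
  have hb' : ∀ᶠ n in (U : Filter ℕ), |(q : ℤ) ^ h n * w n| ≤ (p + 1 : ℕ) ^ (K * n) ∧
      1 ≤ |w n| ∧ v n ≤ 2 * K * n := by
    filter_upwards [hb, hcon] with n a1 a2
    obtain ⟨b1, b2⟩ := hw n a2
    have b3 : |(q : ℤ) ^ h n * J n| ≤ (p + 1 : ℕ) ^ (K * n) := by exact_mod_cast a1
    have b4 : 1 ≤ |w n| := Int.one_le_abs fun e => b2 (e ▸ dvd_zero _)
    have b5 : (1 : ℤ) ≤ (q : ℤ) ^ h n := one_le_pow₀ (by exact_mod_cast (by omega : 1 ≤ q))
    have b6 : (1 : ℤ) ≤ (p : ℤ) ^ v n := one_le_pow₀ (by exact_mod_cast hp.one_le)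
    rw [b1, abs_mul, abs_mul, abs_of_pos (zero_lt_one.trans_le b5),
      abs_of_pos (zero_lt_one.trans_le b6)] at b3
    refine ⟨?_, b4, ?_⟩
    · rw [abs_mul, abs_of_pos (zero_lt_one.trans_le b5)]
      refine le_trans ?_ b3
      gcongr
      exact le_mul_of_one_le_left (abs_nonneg _) b6
    · have c1 : (p : ℤ) ^ v n ≤ (p + 1 : ℕ) ^ (K * n) :=
        le_trans ((le_mul_of_one_le_right (by positivity) b4).trans
          (le_mul_of_one_le_left (by positivity) b5)) b3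
      have c2 : p ^ v n ≤ (p + 1) ^ (K * n) := by exact_mod_cast c1
      have c3 : (p + 1) ^ (K * n) ≤ p ^ (2 * K * n) := by
        rw [mul_assoc, pow_mul p]
        exact Nat.pow_le_pow_left (by nlinarith) _
      exact (Nat.pow_le_pow_iff_right hp.one_lt).1 (c2.trans c3)
  obtain ⟨g, -, hg⟩ := sz U hU p q hp2 (by omega) (κ := Option κ)
    (fun n t => t.elim (q ^ h n * w n) (c n))
    (fun n t => t.elim |((q ^ h n * w n : ℤ) : ℝ)| fun t => (p : ℝ) ^ γ n t)
    (fun n t => t.elim (q ^ h n) fun _ => 1) ((p + 1) * K + p + D) (by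
      filter_upwards [hc, hh, hb'] with n a1 a2 a3 t
      have hn : (0 : ℝ) ≤ n := by positivity
      cases t with
      | none =>
        refine ⟨le_rfl, ?_, ?_, by simp, pow_dvd_pow _ (a2.2.trans (Nat.mul_le_mul_right _ (by omega)))⟩
        · have : (1 : ℝ) ≤ |(w n : ℝ)| := by exact_mod_cast a3.2.1
          simp only [Option.elim]
          push_cast
          rw [abs_mul, abs_of_pos (by positivity)]
          exact le_mul_of_one_le_right (by positivity) this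
        · have b1 : |((q ^ h n * w n : ℤ) : ℝ)| ≤ ((p + 1 : ℕ) : ℝ) ^ (K * n) := by
            exact_mod_cast a3.1
          refine b1.trans ((pow_le_exp _ _).trans (exp_le_exp.2 ?_))
          push_cast
          have : (0 : ℝ) ≤ (p + D) * n := by positivity
          nlinarith
      | some t =>
        simp only [Option.elim]
        refine ⟨by exact_mod_cast a1.1 t, by simpa using one_le_pow₀ hpR, ?_, by simp, by simp⟩
        have b1 : γ n t ≤ n :=
          (Finset.single_le_sum (fun _ _ => Nat.zero_le _) (Finset.mem_univ t)).trans a1.2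
        refine (pow_le_pow_right₀ hpR b1).trans ((pow_le_exp _ _).trans (exp_le_exp.2 ?_))
        push_cast
        have : (0 : ℝ) ≤ ((p + 1) * K + D) * n := by positivity
        nlinarith)
    (fun t n => t.elim ((p : ℚ) ^ v n) fun t => 0 - f t n) (by
      intro t
      cases t with
      | none => exact InA.pow (2 * K) (hb'.mono fun n hn => hn.2.2)
      | some t => exact (InA.const 0).sub hp.ne_zero (hf t)) none
    (Eventually.of_forall fun n => by simp [hp.ne_zero]) (by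
      filter_upwards [hI, hcon] with n a1 a2
      rw [Fintype.sum_option]
      simp only [Option.elim, zero_sub, neg_mul, Finset.sum_neg_distrib, ← a1, (hw n a2).1]
      push_cast
      ring)
  obtain ⟨n, ⟨a1, a2, a3⟩, a4, a5, a6, a7, a8⟩ :=
    (hg.and (hc.and (hh.and (hb'.and (hcon.and (hU (eventually_ge_atTop 1))))))).exists
  have a9 : 1 ≤ n := a8
  rw [Fintype.sum_option] at a2
  have b1 : ∀ t, ∃ m : ℤ, g (some t) n = m := fun t => by simpa using (a3 (some t)).2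
  choose m hm using b1
  obtain ⟨⟨b2, m', b3⟩, -⟩ := (⟨a3 none, trivial⟩ : _ ∧ True)
  simp only [Option.elim, Fintype.prod_option, Nat.cast_one, div_one, hm] at a2 b2 b3
  have b4 : IsCoprime ((p : ℤ) ^ Nat.log p (q ^ h n)) (q ^ h n * w n) := by
    refine IsCoprime.pow_left (IsCoprime.mul_right (IsCoprime.pow_right ?_) ?_)
    · exact Nat.isCoprime_iff_coprime.2 hpq
    · exact (Nat.prime_iff_prime_int.1 hp).irreducible.coprime_iff_not_dvd.2 (hw n a7).2
  obtain ⟨k, hk⟩ := int_of_coprime (x := g none n) (m := m') (m' := -∑ t, m t * c n t) b4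
    (by exact_mod_cast b3) (by
      rw [mul_comm, eq_neg_of_add_eq_zero_left a2]
      push_cast
      rfl)
  have c1 : (1 : ℝ) ≤ |(g none n : ℝ)| := by
    rw [hk] at a1 ⊢
    exact_mod_cast Int.one_le_abs (by exact_mod_cast a1)
  have c2 : (0 : ℝ) < |((q ^ h n * w n : ℤ) : ℝ)| := by
    have : w n ≠ 0 := fun e => (hw n a7).2 (e ▸ dvd_zero _)
    positivity
  have c3 : ∏ t, (p : ℝ) ^ γ n t ≤ (p : ℝ) ^ n := by
    rw [Finset.prod_pow_eq_pow_sum]
    exact pow_le_pow_right₀ hpR a4.2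
  have c4 : p ^ (2 * n) * p ^ n < q ^ h n := by
    calc p ^ (2 * n) * p ^ n = p ^ (3 * n) := by ring
      _ < (2 ^ p) ^ (3 * n) := Nat.pow_lt_pow_left Nat.lt_two_pow_self (by omega)
      _ = 2 ^ (3 * p * n) := by ring
      _ ≤ 2 ^ h n := Nat.pow_le_pow_right (by omega) a5.1
      _ ≤ _ := Nat.pow_le_pow_left hq _
  have c5 : (p : ℝ) ^ (2 * n) * p ^ n < ((q ^ h n : ℕ) : ℝ) := by exact_mod_cast c4
  have c6 : (0 : ℝ) < ((q ^ h n : ℕ) : ℝ) := by positivity
  set X := |((q ^ h n * w n : ℤ) : ℝ)|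
  have c7 : X ≤ (p : ℝ) ^ (2 * n) * (X / ((q ^ h n : ℕ) : ℝ) * p ^ n) :=
    (le_mul_of_one_le_left c2.le c1).trans (b2.trans (by gcongr; exact exp_le_pow hp2 n))
  have c8 : (p : ℝ) ^ (2 * n) * (X / ((q ^ h n : ℕ) : ℝ) * p ^ n) =
      X * ((p : ℝ) ^ (2 * n) * p ^ n / ((q ^ h n : ℕ) : ℝ)) := by ring
  rw [c8] at c7
  nlinarith [(div_lt_one c6).2 c5]

theorem szf {U : Ultrafilter ℕ} (hU : (U : Filter ℕ) ≤ atTop) {p q : ℕ} (hp : p.Prime) (hq : 2 ≤ q)
    (hpq : p.Coprime q) {κ : Type} [Fintype κ] {b c : ℕ → κ → ℤ} {β γ : ℕ → κ → ℕ}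
    (hb : Atoms U p b β) (hc : Atoms U p c γ) {h : ℕ → ℕ} {D : ℕ}
    (hh : ∀ᶠ n in (U : Filter ℕ), h n ≤ D * n) {Z : Type} [Fintype Z] (z : ℕ → Z → ℤ)
    (hz : ∀ᶠ n in (U : Filter ℕ), ∀ i, |z n i| ≤ (q : ℤ) ^ h n) (f : Z → ℕ → ℚ)
    (hf : ∀ i, InA U p (f i)) (i0 : Z) (h0 : ∀ᶠ n in (U : Filter ℕ), f i0 n ≠ 0) (Gc Gb : ℕ → ℚ)
    (hGc : Sp U p c Gc) (hGb : Sp U p b Gb)
    (hrel : ∀ᶠ n in (U : Filter ℕ), ∑ i, f i n * z n i = Gc n + q ^ h n * Gb n) :
    ∃ (g : Z → ℕ → ℤ) (Hc Hb : ℕ → ℤ), (∀ i, InA U p fun n => g i n) ∧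
      (Sp U p c fun n => Hc n) ∧ (Sp U p b fun n => Hb n) ∧
      ∀ᶠ n in (U : Filter ℕ), g i0 n ≠ 0 ∧ ∑ i, g i n * z n i = Hc n + q ^ h n * Hb n ∧
        (∀ i, |g i n| * q ^ h n ≤ p ^ (4 * n) * (q ^ h n) ^ Fintype.card Z) ∧
        |Hb n| * q ^ h n ≤ p ^ (5 * n) * (q ^ h n) ^ Fintype.card Z := by
  have hp2 := hp.two_le
  have hp0 := hp.ne_zero
  have hpR : (1 : ℝ) ≤ p := by exact_mod_cast hp.one_le
  obtain ⟨fc, hfc, hGc⟩ := hGc
  obtain ⟨fb, hfb, hGb⟩ := hGb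
  obtain ⟨g, hg, hgn⟩ := sz U hU p q hp2 (by omega) (κ := Z ⊕ κ ⊕ κ)
    (fun n => Sum.elim (z n) (Sum.elim (c n) fun t => q ^ h n * b n t))
    (fun n => Sum.elim (fun _ => (q : ℝ) ^ h n)
      (Sum.elim (fun t => (p : ℝ) ^ γ n t) fun t => (q : ℝ) ^ h n * (p : ℝ) ^ β n t))
    (fun n => Sum.elim (fun _ => 1) (Sum.elim (fun _ => 1) fun _ => q ^ h n)) (q * D + p + D) (by
      filter_upwards [hb, hc, hh, hz] with n a1 a2 a3 a4
      have hqR : (1 : ℝ) ≤ q := by exact_mod_cast (by omega : 1 ≤ q)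
      have b1 : (q : ℝ) ^ h n ≤ exp (q * D * n) :=
        (pow_le_pow_right₀ hqR a3).trans ((pow_le_exp _ _).trans (by push_cast; rw [mul_assoc]))
      have b2 : ∀ k, k ≤ n → (p : ℝ) ^ k ≤ exp (p * n) := fun k hk =>
        (pow_le_pow_right₀ hpR hk).trans ((pow_le_exp _ _).trans (by push_cast; rfl))
      have b3 : (0 : ℝ) ≤ q * D * n := by positivity
      have b4 : (0 : ℝ) ≤ p * n := by positivity
      have b5 : (0 : ℝ) ≤ D * n := by positivity
      rintro (i | t | t) <;> simp only [Sum.elim_inl, Sum.elim_inr]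
      · refine ⟨by exact_mod_cast a4 i, by simpa using one_le_pow₀ hqR,
          b1.trans (exp_le_exp.2 ?_), by simp, by simp⟩
        push_cast
        linarith
      · refine ⟨by exact_mod_cast a2.1 t, by simpa using one_le_pow₀ hpR,
          (b2 _ ((Finset.single_le_sum (fun _ _ => Nat.zero_le _) (Finset.mem_univ t)).trans
            a2.2)).trans (exp_le_exp.2 ?_), by simp, by simp⟩
        push_cast
        linarith
      · refine ⟨?_, ?_, ?_, by simp, pow_dvd_pow _ (a3.trans (Nat.mul_le_mul_right _ (by omega)))⟩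
        · have : |(b n t : ℝ)| ≤ (p : ℝ) ^ β n t := by exact_mod_cast a1.1 t
          push_cast
          rw [abs_mul, abs_of_pos (by positivity)]
          gcongr
        · push_cast
          exact le_mul_of_one_le_right (by positivity) (one_le_pow₀ hpR)
        · have := b2 _ ((Finset.single_le_sum (fun _ _ => Nat.zero_le _)
            (Finset.mem_univ t)).trans a1.2)
          refine (mul_le_mul b1 this (by positivity) (by positivity)).trans ?_
          rw [← exp_add]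
          apply exp_le_exp.2
          push_cast
          linarith)
    (Sum.elim f (Sum.elim (fun t n => 0 - fc t n) fun t n => 0 - fb t n)) (by
      rintro (i | t | t)
      · exact hf i
      · exact (InA.const 0).sub hp0 (hfc t)
      · exact (InA.const 0).sub hp0 (hfb t)) (Sum.inl i0) h0 (by
      filter_upwards [hGc, hGb, hrel] with n a1 a2 a3
      simp only [Fintype.sum_sum_type, Sum.elim_inl, Sum.elim_inr, a3, a1, a2, zero_sub, neg_mul,
        Finset.sum_neg_distrib, Finset.mul_sum]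
      push_cast
      simp only [mul_left_comm (fb _ n)]
      ring)
  set Hc : ℕ → ℚ := fun n => ∑ t, (0 - g (Sum.inr (Sum.inl t)) n) * c n t with hHc
  set Hb : ℕ → ℚ := fun n => ∑ t, (0 - g (Sum.inr (Sum.inr t)) n) * b n t with hHb
  have hint : ∀ᶠ n in (U : Filter ℕ), (∀ i, ((g (Sum.inl i) n).num : ℚ) = g (Sum.inl i) n) ∧
      ((Hc n).num : ℚ) = Hc n ∧ ((Hb n).num : ℚ) = Hb n ∧
      ∑ i, g (Sum.inl i) n * z n i = Hc n + q ^ h n * Hb n := by
    filter_upwards [hgn] with n ⟨_, a2, a3⟩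
    have b1 : ∀ i, ∃ m : ℤ, g (Sum.inl i) n = m := fun i => by simpa using (a3 (Sum.inl i)).2
    have b2 : ∀ t, ∃ m : ℤ, g (Sum.inr (Sum.inl t)) n = m := fun t => by
      simpa using (a3 (Sum.inr (Sum.inl t))).2
    have b3 : ∀ t, ∃ m : ℤ, (p : ℚ) ^ Nat.log p (q ^ h n) * g (Sum.inr (Sum.inr t)) n = m :=
      fun t => (a3 (Sum.inr (Sum.inr t))).2
    choose m1 e1 using b1
    choose m2 e2 using b2
    choose m3 e3 using b3
    have b4 : ∑ i, g (Sum.inl i) n * z n i = Hc n + q ^ h n * Hb n := by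
      simp only [Fintype.sum_sum_type, Sum.elim_inl, Sum.elim_inr] at a2
      simp only [hHc, hHb, zero_sub, neg_mul, Finset.sum_neg_distrib, mul_neg, Finset.mul_sum]
      push_cast at a2
      simp only [mul_left_comm (g _ n)] at a2
      linarith
    have b5 : Hc n = (-∑ t, m2 t * c n t : ℤ) := by
      simp only [hHc, e2, zero_sub, neg_mul, Finset.sum_neg_distrib]
      push_cast
      rfl
    obtain ⟨k, hk⟩ := int_of_coprime (x := Hb n) (A := p ^ Nat.log p (q ^ h n)) (B := q ^ h n)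
      (m := -∑ t, m3 t * b n t) (m' := ∑ i, m1 i * z n i - -∑ t, m2 t * c n t)
      (IsCoprime.pow (Nat.isCoprime_iff_coprime.2 hpq)) (by
        push_cast
        simp only [hHb, ← e3, zero_sub, neg_mul, Finset.sum_neg_distrib, mul_neg, Finset.mul_sum,
          mul_assoc]) (by
        rw [Int.cast_sub, ← b5]
        push_cast
        simp only [← e1, b4]
        ring)
    exact ⟨fun i => by rw [e1, Rat.num_intCast], by rw [b5, Rat.num_intCast],
      by rw [hk, Rat.num_intCast], b4⟩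
  refine ⟨fun i n => (g (Sum.inl i) n).num, fun n => (Hc n).num, fun n => (Hb n).num,
    fun i => (hg _).congr (hint.mono fun n hn => (hn.1 i).symm),
    ⟨_, fun t => (InA.const 0).sub hp0 (hg _), hint.mono fun n hn => hn.2.1⟩,
    ⟨_, fun t => (InA.const 0).sub hp0 (hg _), hint.mono fun n hn => hn.2.2.1⟩, ?_⟩
  filter_upwards [hint, hgn, hb, hc, hU (eventually_ge_atTop (Fintype.card κ))] with n
    ⟨a1, a2, a3, a4⟩ ⟨a5, _, a6⟩ a7 a8 a9
  have b1 : ∀ α, |(g α n : ℝ)| * Sum.elim (fun _ => (q : ℝ) ^ h n)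
      (Sum.elim (fun t => (p : ℝ) ^ γ n t) fun t => (q : ℝ) ^ h n * (p : ℝ) ^ β n t) α ≤
      (p : ℝ) ^ (4 * n) * ((q : ℝ) ^ h n) ^ Fintype.card Z := by
    intro α
    refine (a6 α).1.trans ?_
    have c1 : ∀ t, (q : ℝ) ^ h n * (p : ℝ) ^ β n t / ((q ^ h n : ℕ) : ℝ) = (p : ℝ) ^ β n t := by
      intro t
      push_cast
      field_simp
    simp only [Fintype.prod_sum_type, Sum.elim_inl, Sum.elim_inr, Nat.cast_one, div_one, c1,
      Finset.prod_const, Finset.card_univ, Finset.prod_pow_eq_pow_sum]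
    calc exp n * (((q : ℝ) ^ h n) ^ Fintype.card Z *
          ((p : ℝ) ^ (∑ t, γ n t) * (p : ℝ) ^ (∑ t, β n t)))
        ≤ (p : ℝ) ^ (2 * n) * (((q : ℝ) ^ h n) ^ Fintype.card Z * ((p : ℝ) ^ n * (p : ℝ) ^ n)) := by
          gcongr
          · exact exp_le_pow hp2 n
          · exact a8.2
          · exact a7.2
      _ = _ := by ring
  refine ⟨Rat.num_ne_zero.2 a5, ?_, fun i => ?_, ?_⟩
  · have : ((∑ i, (g (Sum.inl i) n).num * z n i : ℤ) : ℚ) =
        ((Hc n).num + q ^ h n * (Hb n).num : ℤ) := by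
      push_cast
      simp only [a1, a2, a3, a4]
    exact_mod_cast this
  · have c1 := b1 (Sum.inl i)
    rw [← a1 i] at c1
    simp only [Sum.elim_inl] at c1
    exact_mod_cast c1
  · have c1 : (((Hb n).num : ℤ) : ℝ) = ∑ t, -(g (Sum.inr (Sum.inr t)) n : ℝ) * b n t := by
      have := congrArg (fun x : ℚ => (x : ℝ)) a3
      simpa [hHb] using this
    have c2 : |(((Hb n).num : ℤ) : ℝ)| * (q : ℝ) ^ h n ≤
        (p : ℝ) ^ (5 * n) * ((q : ℝ) ^ h n) ^ Fintype.card Z := by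
      have d1 : (Fintype.card κ : ℝ) ≤ (p : ℝ) ^ n := by
        have : Fintype.card κ ≤ p ^ n := le_trans a9 (Nat.lt_pow_self hp.one_lt).le
        exact_mod_cast this
      calc |(((Hb n).num : ℤ) : ℝ)| * (q : ℝ) ^ h n
          ≤ (∑ t, |-(g (Sum.inr (Sum.inr t)) n : ℝ) * b n t|) * (q : ℝ) ^ h n := by
            rw [c1]
            gcongr
            exact Finset.abs_sum_le_sum_abs _ _
        _ ≤ ∑ _t : κ, (p : ℝ) ^ (4 * n) * ((q : ℝ) ^ h n) ^ Fintype.card Z := by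
            rw [Finset.sum_mul]
            refine Finset.sum_le_sum fun t _ => le_trans ?_ (b1 (Sum.inr (Sum.inr t)))
            have : |(b n t : ℝ)| ≤ (p : ℝ) ^ β n t := by exact_mod_cast a7.1 t
            simp only [Sum.elim_inr]
            rw [abs_mul, abs_neg, mul_assoc, mul_comm _ ((q : ℝ) ^ h n)]
            gcongr
        _ ≤ (p : ℝ) ^ n * ((p : ℝ) ^ (4 * n) * ((q : ℝ) ^ h n) ^ Fintype.card Z) := by
            rw [Finset.sum_const, Finset.card_univ, nsmul_eq_mul]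
            gcongr
        _ = _ := by ring
    exact_mod_cast c2

theorem approx {U : Ultrafilter ℕ} (hU : (U : Filter ℕ) ≤ atTop) {p q : ℕ} (hp : p.Prime)
    (hq : 2 ≤ q) (hpq : p.Coprime q) {κ : Type} [Fintype κ] {b c : ℕ → κ → ℤ} {β γ : ℕ → κ → ℕ}
    (hb : Atoms U p b β) (hc : Atoms U p c γ) {h : ℕ → ℕ} {D M : ℕ} (hM : q * D + 5 ≤ M)
    (hh : ∀ᶠ n in (U : Filter ℕ), 3 * p * n ≤ h n ∧ h n ≤ D * n) (Y Y' z z' : ℕ → ℤ)
    (hY : Sp U p b fun n => Y n) (hY' : Sp U p c fun n => Y' n)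
    (hz : ∀ᶠ n in (U : Filter ℕ), |z n| ≤ (q : ℤ) ^ h n ∧ |z' n| ≤ (q : ℤ) ^ h n ∧
      q ^ h n * Y n + z' n = p ^ (M * n) * z n + Y' n) :
    ∀ᶠ n in (U : Filter ℕ), ∃ g a : ℤ, g ≠ 0 ∧ |g| ≤ p ^ (4 * n) ∧
      |p ^ (M * n) * a - g * Y n| ≤ p ^ (9 * n) := by
  have hp0 := hp.ne_zero
  have hh2 := hh.mono fun n hn => hn.2
  have hP : InA U p fun n => (p : ℚ) ^ (M * n) := InA.pow M (by simp)
  have hz3 : ∀ᶠ n in (U : Filter ℕ), (z' n : ℚ) = p ^ (M * n) * z n + Y' n - q ^ h n * Y n := by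
    filter_upwards [hz] with n hn
    have : (q : ℚ) ^ h n * Y n + z' n = p ^ (M * n) * z n + Y' n := by exact_mod_cast hn.2.2
    linarith
  obtain ⟨g, Hc, Hb, g1, g2, g3, g4⟩ := szf hU hp hq hpq hb hc hh2 (Z := Fin 2)
    (fun n => ![z' n, z n]) (hz.mono fun n hn => Fin.forall_fin_two.2 ⟨hn.2.1, hn.1⟩)
    ![fun _ => 1, fun n => 0 - (p : ℚ) ^ (M * n)]
    (Fin.forall_fin_two.2 ⟨InA.const 1, (InA.const 0).sub hp0 hP⟩) 0 (by simp) _ _ hY'
    (hY.mul hp0 (InA.const (-1))) (by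
      filter_upwards [hz3] with n hn
      simp only [Fin.sum_univ_two, Matrix.cons_val_zero, Matrix.cons_val_one, hn]
      ring)
  set g0 : ℕ → ℚ := fun n => g 0 n * p ^ (M * n) + g 1 n with hg0
  have i0 : InA U p g0 := ((g1 0).mul hp0 hP).add (g1 1)
  have n0 : ∀ᶠ n in (U : Filter ℕ), g0 n ≠ 0 := by
    filter_upwards [g4, hh2, hU (eventually_ge_atTop 1)] with n ⟨a1, _, a3, _⟩ a4 a5 e
    have a6 : 1 ≤ n := a5
    have b1 : g 1 n = -(g 0 n * p ^ (M * n)) := by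
      have : g 0 n * p ^ (M * n) + g 1 n = 0 := by
        simp only [hg0] at e
        exact_mod_cast e
      linarith
    have b2 := a3 1
    rw [Fintype.card_fin, sq, ← mul_assoc, mul_le_mul_iff_left₀ (by positivity), b1, abs_neg,
      abs_mul, abs_of_pos (by positivity : (0 : ℤ) < p ^ (M * n))] at b2
    have b3 : (p : ℤ) ^ (M * n) ≤ p ^ (4 * n) * q ^ h n :=
      (le_mul_of_one_le_left (by positivity) (Int.one_le_abs a1)).trans b2
    have b4 : p ^ (M * n) ≤ p ^ (4 * n) * q ^ h n := by exact_mod_cast b3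
    have b5 : q ^ h n ≤ p ^ (q * D * n) := by
      rw [mul_assoc, pow_mul]
      exact (Nat.pow_le_pow_right (by omega) a4).trans
        (Nat.pow_le_pow_left (Nat.lt_pow_self hp.one_lt).le _)
    have b6 := b4.trans (Nat.mul_le_mul_left _ b5)
    rw [← pow_add, Nat.pow_le_pow_iff_right hp.one_lt] at b6
    nlinarith [Nat.mul_le_mul_right n hM]
  have r0 : ∀ᶠ n in (U : Filter ℕ),
      g0 n * z n = (Hc n - g 0 n * Y' n) + q ^ h n * (Hb n + g 0 n * Y n) := by
    filter_upwards [g4, hz3] with n ⟨_, a2, _⟩ a3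
    have : (g 0 n : ℚ) * z' n + g 1 n * z n = Hc n + q ^ h n * Hb n := by
      simp only [Fin.sum_univ_two, Matrix.cons_val_zero, Matrix.cons_val_one] at a2
      exact_mod_cast a2
    rw [a3] at this
    simp only [hg0]
    linear_combination this
  have s1 := g2.sub hp0 (hY'.mul hp0 (g1 0))
  have s2 := g3.add (hY.mul hp0 (g1 0))
  obtain ⟨k, Kc, Kb, k1, k2, k3, k4⟩ := szf hU hp hq hpq hb hc hh2 (Z := Unit) (fun n _ => z n)
    (hz.mono fun n hn _ => hn.1) (fun _ => g0) (fun _ => i0) () n0 _ _ s1 s2 (by simpa using r0)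
  obtain ⟨k', Kc', Kb', k1', k2', k3', k4'⟩ := szf hU hp hq hpq hb hc hh2 (Z := Unit)
    (fun n _ => z' n) (hz.mono fun n hn _ => hn.2.1) (fun _ => g0) (fun _ => i0) () n0 _ _
    ((s1.mul hp0 hP).add (hY'.mul hp0 i0)) ((s2.mul hp0 hP).sub hp0 (hY.mul hp0 i0)) (by
      filter_upwards [r0, hz3] with n a1 a2
      rw [Fintype.sum_unique, a2]
      linear_combination (p : ℚ) ^ (M * n) * a1)
  have key := van hU hp hq hpq hc hh
    (fun n => k () n * k' () n * Y n + k () n * Kb' n - p ^ (M * n) * k' () n * Kb n)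
    ((((k2.mul hp0 (hP.mul hp0 (k1' ()))).add (hY'.mul hp0 ((k1 ()).mul hp0 (k1' ())))).sub hp0
      (k2'.mul hp0 (k1 ()))).congr (by
      filter_upwards [k4, k4', hz3] with n ⟨_, a1, _⟩ ⟨_, a2, _⟩ a3
      rw [Fintype.sum_unique] at a1 a2
      have b1 : (k () n : ℚ) * z n = Kc n + q ^ h n * Kb n := by exact_mod_cast a1
      have b2 : (k' () n : ℚ) * z' n = Kc' n + q ^ h n * Kb' n := by exact_mod_cast a2
      push_cast
      linear_combination (k () n : ℚ) * b2 - (p : ℚ) ^ (M * n) * k' () n * b1 -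
        (k () n : ℚ) * k' () n * a3))
  filter_upwards [key, k4, k4'] with n a1 ⟨a2, _, a3, _⟩ ⟨a4, _, _, a5⟩
  have hq0 : (0 : ℤ) < q ^ h n := by positivity
  have b1 := a3 ()
  rw [Fintype.card_unit, pow_one, mul_le_mul_iff_left₀ hq0] at b1 a5
  refine ⟨k () n, Kb n, a2, b1, ?_⟩
  have b2 : k' () n * (p ^ (M * n) * Kb n - k () n * Y n) = k () n * Kb' n := by linarith
  calc |p ^ (M * n) * Kb n - k () n * Y n|
      ≤ |k' () n| * |p ^ (M * n) * Kb n - k () n * Y n| :=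
        le_mul_of_one_le_left (abs_nonneg _) (Int.one_le_abs a4)
    _ = |k () n| * |Kb' n| := by rw [← abs_mul, b2, abs_mul]
    _ ≤ p ^ (4 * n) * p ^ (5 * n) := by gcongr
    _ = _ := by ring

end Pool.Agent.MP_60c1b5_an.H73
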