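import Mathlib

set_option autoImplicit false

namespace Pool.Agent.MP_60c1b5_an.H73

/-- The digit number `i` (counted from `0`) of the base `b` expansion of a point of `ℝ/ℤ`. -/
noncomputable def digit (b : ℕ) (x : UnitAddCircle) (i : ℕ) : ℕ :=
  ⌊(b : ℝ) * (AddCircle.equivIco 1 0 (b ^ i • x) : ℝ)⌋₊

/-- The word `w` is a concatenation of at most `S` factors (contiguous subwords) of one word of
length at most `n`. -/
def Parse (w : List ℕ) (n S : ℕ) : Prop :=
  ∃ D : List ℕ, D.length ≤ n ∧
    ∃ ps : List (List ℕ), ps.length ≤ S ∧ (∀ u ∈ ps, u <:+: D) ∧ ps.flatten = w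

/-- For every `M` there is `S` such that for all large `n` the first `M n` digits of `x` in base
`b` are a concatenation of at most `S` factors of one word of length at most `n`. -/
def Compressible (b : ℕ) (x : UnitAddCircle) : Prop :=
  ∀ M : ℕ, ∃ S : ℕ, ∀ᶠ n in Filter.atTop, Parse ((List.range (M * n)).map (digit b x)) n S

/-- The base `b` expansion of `x` has at most `C n` different factors of length `n`. -/
def LinearComplexity (b : ℕ) (x : UnitAddCircle) : Prop :=
  ∃ C : ℕ, ∀ n : ℕ, 1 ≤ n →
    {w : List ℕ | ∃ i, w = (List.range' i n).map (digit b x)}.encard ≤ (C * n : ℕ)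

end Pool.Agent.MP_60c1b5_an.H73
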