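import Mathlib
import Pool.Agent.MP_60c1b5_an.H73.Defs

set_option autoImplicit false

/-!
Words of linear factor complexity are compressible.
-/

namespace Pool.Agent.MP_60c1b5_an.H73

open Filter

/-- the factor of length `m` at position `i` -/
def blk (d : ℕ → ℕ) (i m : ℕ) : List ℕ := (List.range' i m).map d

theorem blk_eq_iff (d : ℕ → ℕ) (i j m : ℕ) :
    blk d i m = blk d j m ↔ ∀ k < m, d (i + k) = d (j + k) := by
  simp only [blk, List.range'_eq_map_range, List.map_map, List.map_inj_left, List.mem_range,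
    Function.comp]

theorem blk_add (d : ℕ → ℕ) (i a b : ℕ) : blk d i (a + b) = blk d i a ++ blk d (i + a) b := by
  simp only [blk, ← List.map_append, List.range'_append_1]

theorem blk_sub (d : ℕ → ℕ) {a l i m : ℕ} (h1 : a ≤ i) (h2 : i + m ≤ a + l) :
    blk d i m <:+: blk d a l := by
  obtain ⟨u, rfl⟩ := Nat.exists_eq_add_of_le h1
  obtain ⟨v, rfl⟩ : ∃ v, l = u + m + v := ⟨l - (u + m), by omega⟩
  exact ⟨blk d a u, blk d (a + (u + m)) v, by rw [blk_add, blk_add]⟩

theorem blk_flatten (d : ℕ → ℕ) (m N S : ℕ) :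
    ((List.range S).map fun s => blk d (s * m) (min m (N - s * m))).flatten =
      blk d 0 (min N (S * m)) := by
  induction S with
  | zero => simp [blk]
  | succ S ih =>
    rw [List.range_succ, List.map_append, List.flatten_append, ih, Nat.succ_mul]
    simp only [List.map_cons, List.map_nil, List.flatten_cons, List.flatten_nil, List.append_nil]
    by_cases h : N ≤ S * m
    · rw [min_eq_left h, min_eq_left (by omega : N ≤ S * m + m), Nat.sub_eq_zero_of_le h]
      simp [blk]
    · rw [min_eq_right (by omega : S * m ≤ N),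
        show min N (S * m + m) = S * m + min m (N - S * m) by omega, blk_add, zero_add]

theorem parse_of_card (d : ℕ → ℕ) (C m N S : ℕ) (hm : 1 ≤ m) (hN : N ≤ S * m)
    (h : {w : List ℕ | ∃ i, w = blk d i (2 * m)}.encard ≤ (C * (2 * m) : ℕ)) :
    Parse (blk d 0 N) ((8 * C + 2) * m) S := by
  classical
  set new : ℕ → ℕ → Prop := fun i l => ∀ j < i, blk d j l ≠ blk d i l with hnew
  set Fr := (Finset.range S).filter fun s => ∃ i, s * m ≤ i ∧ i < s * m + m ∧ new i m with hFr
  have hex : ∀ s, ∃ i, s ∈ Fr → s * m ≤ i ∧ i < s * m + m ∧ new i m := by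
    intro s
    by_cases hs : s ∈ Fr
    · obtain ⟨i, hi⟩ := (Finset.mem_filter.1 hs).2
      exact ⟨i, fun _ => hi⟩
    · exact ⟨0, fun h => absurd h hs⟩
  choose I hI using hex
  have hfin := Set.finite_of_encard_le_coe h
  have hW : hfin.toFinset.card ≤ C * (2 * m) := by
    rw [hfin.encard_eq_coe_toFinset_card] at h
    exact_mod_cast h
  have hnew2 : ∀ s ∈ Fr.erase 0, ∀ t < m, m ≤ I s ∧ new (I s - t) (2 * m) := by
    intro s hs t ht
    obtain ⟨a1, a2⟩ := Finset.mem_erase.1 hs
    obtain ⟨b1, -, b3⟩ := hI s a2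
    have b4 : m ≤ I s := (Nat.le_mul_of_pos_left m (Nat.pos_of_ne_zero a1)).trans b1
    refine ⟨b4, fun j hj e => b3 (j + t) (by omega) ?_⟩
    rw [blk_eq_iff] at e ⊢
    intro k hk
    have := e (t + k) (by omega)
    rwa [← add_assoc, show I s - t + (t + k) = I s + k by omega] at this
  have hcard : (Fr.erase 0 ×ˢ Finset.range m).card ≤ (hfin.toFinset ×ˢ Finset.range 2).card := by
    refine Finset.card_le_card_of_injOn (fun x => (blk d (I x.1 - x.2) (2 * m), x.1 % 2)) ?_ ?_
    · intro x _
      simp only [Finset.coe_product, Set.Finite.coe_toFinset, Finset.coe_range, Set.mem_prod,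
        Set.mem_Iio]
      exact ⟨⟨_, rfl⟩, Nat.mod_lt _ (by omega)⟩
    · rintro ⟨s, t⟩ hx ⟨s', t'⟩ hx' e
      obtain ⟨a1, a2⟩ := Finset.mem_product.1 (Finset.mem_coe.1 hx)
      obtain ⟨a3, a4⟩ := Finset.mem_product.1 (Finset.mem_coe.1 hx')
      simp only [Finset.mem_range] at a1 a2 a3 a4
      obtain ⟨e1, e2⟩ := Prod.ext_iff.1 e
      simp only at e1 e2
      obtain ⟨b1, b2⟩ := hnew2 s a1 t a2
      obtain ⟨b3, b4⟩ := hnew2 s' a3 t' a4
      have e3 : I s - t = I s' - t' := by
        rcases lt_trichotomy (I s - t) (I s' - t') with h | h | h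
        · exact absurd e1 (b4 _ h)
        · exact h
        · exact absurd e1.symm (b2 _ h)
      obtain ⟨c1, c2, -⟩ := hI s (Finset.mem_of_mem_erase a1)
      obtain ⟨c3, c4, -⟩ := hI s' (Finset.mem_of_mem_erase a3)
      have e4 : s = s' := by
        rcases lt_trichotomy s s' with h | h | h
        · have := Nat.mul_le_mul_right m (show s + 2 ≤ s' by omega)
          rw [add_mul] at this
          omega
        · exact h
        · have := Nat.mul_le_mul_right m (show s' + 2 ≤ s by omega)
          rw [add_mul] at this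
          omega
      subst e4
      rw [show t = t' by omega]
  rw [Finset.card_product, Finset.card_product, Finset.card_range, Finset.card_range] at hcard
  have hFc : Fr.card ≤ 4 * C + 1 := by
    have h1 : (Fr.erase 0).card ≤ 4 * C := Nat.le_of_mul_le_mul_right (c := m) (by nlinarith) hm
    have := Finset.pred_card_le_card_erase (s := Fr) (a := 0)
    omega
  refine ⟨(Fr.toList.map fun s => blk d (s * m) (2 * m)).flatten, ?_,
    (List.range S).map fun s => blk d (s * m) (min m (N - s * m)), by simp, ?_, ?_⟩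
  · simp only [List.length_flatten, List.map_map, Function.comp_def, blk, List.length_map,
      List.length_range', List.map_const', List.sum_replicate, Finset.length_toList, smul_eq_mul]
    nlinarith
  · intro u hu
    obtain ⟨s, hs, rfl⟩ := List.mem_map.1 hu
    have h1 : ∃ i, blk d i m = blk d (s * m) m := ⟨_, rfl⟩
    have h2 := Nat.find_spec h1
    have h3 : Nat.find h1 ≤ s * m := Nat.find_min' h1 rfl
    have h4 := Nat.div_mul_le_self (Nat.find h1) m
    have h5 := Nat.lt_div_mul_add (a := Nat.find h1) hm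
    have h6 : Nat.find h1 / m ∈ Fr := Finset.mem_filter.2 ⟨Finset.mem_range.2
      ((Nat.div_le_of_le_mul (h3.trans (mul_comm s m).le)).trans_lt (List.mem_range.1 hs)),
      Nat.find h1, h4, h5, fun j hj e => Nat.find_min h1 hj (e.trans h2)⟩
    refine (blk_sub d (l := m) le_rfl (by omega)).trans ?_
    rw [← h2]
    refine (blk_sub d (l := 2 * m) h4 (by omega)).trans (List.infix_of_mem_flatten ?_)
    exact List.mem_map.2 ⟨_, Finset.mem_toList.2 h6, rfl⟩
  · rw [blk_flatten, min_eq_left hN]

theorem LinearComplexity.compressible {b : ℕ} {x : UnitAddCircle} (h : LinearComplexity b x) :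
    Compressible b x := by
  obtain ⟨C, hC⟩ := h
  intro M
  refine ⟨M * (2 * (8 * C + 2)), ?_⟩
  filter_upwards [eventually_ge_atTop (8 * C + 2)] with n hn
  have h1 : 1 ≤ n / (8 * C + 2) := Nat.div_pos hn (by omega)
  have h2 := Nat.mul_div_le n (8 * C + 2)
  have h3 := Nat.lt_mul_div_succ n (show 0 < 8 * C + 2 by omega)
  obtain ⟨D, a1, a2⟩ := parse_of_card (digit b x) C (n / (8 * C + 2)) (M * n) (M * (2 * (8 * C + 2)))
    h1 (by
      rw [mul_assoc]
      exact Nat.mul_le_mul_left _ (by nlinarith)) (hC _ (by omega))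
  rw [List.range_eq_range']
  exact ⟨D, a1.trans h2, a2⟩

end Pool.Agent.MP_60c1b5_an.H73
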