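import Mathlib
import Pool.Agent.MP_60c1b5_an.H73.Core

set_option autoImplicit false

/-!
Counting the sites `(i, j)` of a box at which `2^i 3^j x` is moderately close to a rational with
small denominator.
-/

namespace Pool.Agent.MP_60c1b5_an.H73

open Real Finset

theorem card_window (s : Finset ℕ) (a : ℕ) (h : ∀ u ∈ s, ∀ v ∈ s, v ≤ u + a) : s.card ≤ a + 1 := by
  rcases s.eq_empty_or_nonempty with rfl | hs
  · simp
  · have : s ⊆ Finset.Icc (s.min' hs) (s.min' hs + a) := fun v hv =>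
      Finset.mem_Icc.2 ⟨s.min'_le v hv, h _ (s.min'_mem hs) v hv⟩
    have h2 := Finset.card_le_card this
    rw [Nat.card_Icc] at h2
    omega

theorem card_columns (F : Finset (ℕ × ℕ)) (a : ℕ)
    (h : ∀ p ∈ F, ∀ p' ∈ F, p.1 = p'.1 → p'.2 ≤ p.2 + a) :
    F.card ≤ (a + 1) * (F.image Prod.fst).card := by
  apply Finset.card_le_mul_card_image
  intro u _
  have h1 : (F.filter fun p => p.1 = u).card = ((F.filter fun p => p.1 = u).image Prod.snd).card := by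
    symm
    apply Finset.card_image_of_injOn
    intro p hp p' hp' e
    have e1 := (Finset.mem_filter.1 hp).2
    have e2 := (Finset.mem_filter.1 hp').2
    exact Prod.ext (e1.trans e2.symm) e
  rw [h1]
  apply card_window
  intro y hy y' hy'
  obtain ⟨p, hp, rfl⟩ := Finset.mem_image.1 hy
  obtain ⟨p', hp', rfl⟩ := Finset.mem_image.1 hy'
  obtain ⟨a1, a2⟩ := Finset.mem_filter.1 hp
  obtain ⟨a3, a4⟩ := Finset.mem_filter.1 hp'
  exact h p a1 p' a3 (a2.trans a4.symm)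

/-- The site `p` is explained by the rational `ρ`. -/
def G (C : ℕ) (δ : ℝ) (m : ℕ) (x : ℝ) (ρ : ℚ) (p : ℕ × ℕ) : Prop :=
  ∃ q : ℕ, 1 ≤ q ∧ (q : ℝ) ≤ exp (δ * m) ∧ (∃ k : ℤ, (k : ℚ) = q * 2 ^ p.1 * 3 ^ p.2 * ρ) ∧
    exp (-(C * m : ℝ)) ≤ (q : ℝ) * 2 ^ p.1 * 3 ^ p.2 * |x - ρ| ∧
    (q : ℝ) * 2 ^ p.1 * 3 ^ p.2 * |x - ρ| ≤ exp (-(m : ℝ))

theorem G_column {C m : ℕ} {δ x : ℝ} {ρ : ℚ} {p p' : ℕ × ℕ} (hδ : δ ≤ 1)
    (h : G C δ m x ρ p) (h' : G C δ m x ρ p') (e : p.1 = p'.1) : p'.2 ≤ p.2 + C * m := by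
  obtain ⟨q, hq, hqe, -, h1, -⟩ := h
  obtain ⟨q', hq', -, -, -, h2⟩ := h'
  by_contra hlt
  obtain ⟨a, ha⟩ := Nat.exists_eq_add_of_le (not_le.1 hlt).le
  have hq1 : (1 : ℝ) ≤ q' := by exact_mod_cast hq'
  have hm : (0 : ℝ) ≤ m := by positivity
  set D := (2 : ℝ) ^ p.1 * 3 ^ p.2 * |x - ρ| with hD
  have hD0 : 0 ≤ D := by positivity
  have a0 : 1 ≤ a := by omega
  have b1 : exp (-(C * m : ℝ)) ≤ exp m * D := by
    calc _ ≤ _ := h1
      _ = q * D := by rw [hD]; ring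
      _ ≤ exp (δ * m) * D := by gcongr
      _ ≤ _ := by
        have : δ * m ≤ m := by nlinarith
        gcongr
  have b2 : 3 ^ (C * m) * 3 ^ a * D ≤ exp (-(m : ℝ)) := by
    refine le_trans ?_ h2
    rw [← e, ha, pow_add, pow_add]
    have : (q' : ℝ) * 2 ^ p.1 * (3 ^ p.2 * 3 ^ (C * m) * 3 ^ a) * |x - ρ| =
        q' * (3 ^ (C * m) * 3 ^ a * D) := by rw [hD]; ring
    rw [this]
    exact le_mul_of_one_le_left (by positivity) hq1
  have b3 : exp (C * m : ℝ) ≤ 3 ^ (C * m) := by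
    have h3 : exp 1 ≤ 3 := (exp_one_lt_d9.trans (by norm_num)).le
    have : exp (C * m : ℝ) = exp 1 ^ (C * m) := by
      rw [← exp_nat_mul]
      push_cast
      rw [mul_one]
    rw [this]
    gcongr
  have b4 : (3 : ℝ) ≤ 3 ^ a := le_self_pow₀ (by norm_num) (by omega)
  have b5 : exp (C * m : ℝ) * 3 * D ≤ exp (-(m : ℝ)) := le_trans (by gcongr) b2
  have b6 : exp (C * m : ℝ) * exp (-(C * m : ℝ)) = 1 := by rw [← exp_add]; simp
  have b7 : exp (m : ℝ) * exp (-(m : ℝ)) = 1 := by rw [← exp_add]; simp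
  have b8 := mul_le_mul_of_nonneg_left b1 (exp_pos (C * m : ℝ)).le
  have b9 := mul_le_mul_of_nonneg_left b5 (exp_pos (m : ℝ)).le
  nlinarith

theorem G_long {C K m : ℕ} {δ δ' x : ℝ} {ρ : ℚ} {p p' : ℕ × ℕ} (hδ : δ ≤ 1) (hδ' : 2 * δ ≤ δ')
    (hδ0 : 0 ≤ δ') (hK : 1 ≤ K) (h : G C δ m x ρ p) (h' : G C δ m x ρ p')
    (hp : p.1 ≤ K * (K * m)) (hp2 : p'.2 ≤ K * (K * m)) (e : p.1 + 2 * (K * m) ≤ p'.1) :
    ∃ i j q, W K δ' (K * m) x ρ i j q := by
  obtain ⟨q, hq, hqe, ⟨k, hk⟩, -, -⟩ := h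
  obtain ⟨q', hq', hqe', ⟨k', hk'⟩, -, h2⟩ := h'
  obtain ⟨a, ha⟩ := Nat.exists_eq_add_of_le e
  have hm : (0 : ℝ) ≤ m := by positivity
  have hK1 : (1 : ℝ) ≤ K := by exact_mod_cast hK
  refine ⟨p.1, min p.2 p'.2, q * q', hp, (min_le_right _ _).trans hp2, Nat.mul_pos hq hq', ?_, ?_,
    ?_⟩
  · push_cast
    calc (q : ℝ) * q' ≤ exp (δ * m) * exp (δ * m) := by gcongr
      _ ≤ _ := by
        rw [← exp_add]
        apply exp_le_exp.2
        have h1 : 2 * δ * m ≤ δ' * m := by gcongr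
        have h3 : δ' * m ≤ δ' * (K * m) := by
          gcongr
          exact le_mul_of_one_le_left hm hK1
        linarith
  · rcases le_total p.2 p'.2 with hj | hj
    · refine ⟨k * q', ?_⟩
      rw [min_eq_left hj]
      push_cast
      rw [hk]
      ring
    · obtain ⟨c, hc⟩ := Nat.exists_eq_add_of_le hj
      have hcop : IsCoprime ((2 : ℤ) ^ (2 * (K * m) + a)) (3 ^ c) :=
        IsCoprime.pow (by decide : IsCoprime (2 : ℤ) 3)
      obtain ⟨u, w, huw⟩ := hcop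
      have huw' : (u : ℚ) * 2 ^ (2 * (K * m) + a) + w * 3 ^ c = 1 := by exact_mod_cast huw
      refine ⟨u * k' * q + w * k * q', ?_⟩
      rw [min_eq_right hj]
      push_cast
      rw [hk, hk', ha, hc, add_assoc, pow_add (2 : ℚ) p.1, pow_add (3 : ℚ)]
      linear_combination ((q : ℚ) * q' * 2 ^ p.1 * 3 ^ p'.2 * ρ) * huw'
  · have b1 : (3 : ℝ) ^ min p.2 p'.2 ≤ 3 ^ p'.2 := pow_le_pow_right₀ (by norm_num) (min_le_right _ _)
    have b2 : exp (K * m : ℝ) ≤ 2 ^ (2 * (K * m)) := by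
      have h3 : exp 1 ≤ 2 ^ 2 := (exp_one_lt_d9.trans (by norm_num)).le
      have : exp (K * m : ℝ) = exp 1 ^ (K * m) := by
        rw [← exp_nat_mul]
        push_cast
        rw [mul_one]
      rw [this, pow_mul (2 : ℝ) 2 (K * m)]
      gcongr
    have b3 : (1 : ℝ) ≤ 2 ^ a := one_le_pow₀ (by norm_num)
    set D := (q' : ℝ) * 2 ^ p.1 * 3 ^ p'.2 * |x - ρ| with hD
    have hD0 : 0 ≤ D := by positivity
    have b4 : exp (K * m : ℝ) * D ≤ exp (-(m : ℝ)) := by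
      refine le_trans ?_ h2
      rw [ha, pow_add, pow_add]
      have : (q' : ℝ) * (2 ^ p.1 * 2 ^ (2 * (K * m)) * 2 ^ a) * 3 ^ p'.2 * |x - ρ| =
          2 ^ (2 * (K * m)) * 2 ^ a * D := by rw [hD]; ring
      rw [this]
      gcongr
      exact b2.trans (le_mul_of_one_le_right (by positivity) b3)
    have b5 : (q : ℝ) ≤ exp m := hqe.trans (exp_le_exp.2 (by nlinarith))
    have b6 : D ≤ exp (-(m : ℝ)) / exp (K * m : ℝ) := by
      rw [le_div_iff₀ (exp_pos _), mul_comm]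
      exact b4
    push_cast
    calc (q : ℝ) * q' * 2 ^ p.1 * 3 ^ min p.2 p'.2 * |x - ρ|
        ≤ q * q' * 2 ^ p.1 * 3 ^ p'.2 * |x - ρ| := by gcongr
      _ = q * D := by rw [hD]; ring
      _ ≤ exp m * (exp (-(m : ℝ)) / exp (K * m : ℝ)) := by gcongr
      _ = _ := by
        rw [← exp_sub, ← exp_add]
        congr 1
        ring

theorem count (C K : ℕ) (hC : 1 ≤ C) (hK : 1 ≤ K) : ∃ δ : ℝ, 0 < δ ∧ ∃ m0 : ℕ, ∀ m, m0 ≤ m →
    ∀ x : ℝ, |x| ≤ 1 → ∀ S : Finset (ℕ × ℕ),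
      (∀ p ∈ S, p.1 < K * (K * m) ∧ p.2 < K * (K * m) ∧ ∃ ρ, G C δ m x ρ p) →
      S.card ≤ 88 * C * K ^ 3 * m ^ 2 := by
  classical
  obtain ⟨δ1, hδ1, m1, h1⟩ := few (K * K)
  obtain ⟨δ2, hδ2, m2, h2⟩ := few K
  refine ⟨min 1 (min δ1 (δ2 / 2)), by positivity, m1 + m2 + 1, ?_⟩
  set δ := min 1 (min δ1 (δ2 / 2)) with hδ
  have d1 : δ ≤ 1 := min_le_left _ _
  have d2 : δ ≤ δ1 := (min_le_right _ _).trans (min_le_left _ _)
  have d3 : 2 * δ ≤ δ2 := by linarith [(min_le_right 1 _).trans (min_le_right δ1 (δ2 / 2))]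
  intro m hm x hx S hS
  have hex : ∀ p : ℕ × ℕ, ∃ ρ : ℚ, p ∈ S → G C δ m x ρ p := by
    intro p
    by_cases hp : p ∈ S
    · obtain ⟨ρ, hρ⟩ := (hS p hp).2.2
      exact ⟨ρ, fun _ => hρ⟩
    · exact ⟨0, fun h => absurd h hp⟩
  choose f hf using hex
  set F : ℚ → Finset (ℕ × ℕ) := fun ρ => S.filter fun p => f p = ρ with hF
  have hFG : ∀ ρ, ∀ p ∈ F ρ, p ∈ S ∧ G C δ m x ρ p := by
    intro ρ p hp
    obtain ⟨a1, a2⟩ := Finset.mem_filter.1 hp
    exact ⟨a1, a2 ▸ hf p a1⟩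
  have hcol : ∀ ρ, (F ρ).card ≤ (C * m + 1) * ((F ρ).image Prod.fst).card := fun ρ =>
    card_columns _ _ fun p hp p' hp' e => G_column d1 (hFG ρ p hp).2 (hFG ρ p' hp').2 e
  set T := S.image f with hT
  have hTc : T.card ≤ 4 * (K * K) + 7 := by
    apply h1 m (by omega) x hx
    intro ρ hρ
    obtain ⟨p, hp, rfl⟩ := Finset.mem_image.1 hρ
    obtain ⟨q, a1, a2, a3, -, a4⟩ := hf p hp
    obtain ⟨b1, b2, -⟩ := hS p hp
    refine ⟨p.1, p.2, q, by rw [mul_assoc]; omega, by rw [mul_assoc]; omega, a1, a2.trans ?_, a3, a4⟩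
    gcongr
  set lg : ℚ → Prop := fun ρ => ∃ p ∈ F ρ, ∃ p' ∈ F ρ, p.1 + 2 * (K * m) ≤ p'.1 with hlg
  have hLc : (T.filter lg).card ≤ 4 * K + 7 := by
    apply h2 (K * m) (le_trans (by omega) (Nat.le_mul_of_pos_left m hK)) x hx
    intro ρ hρ
    obtain ⟨p, hp, p', hp', e⟩ := (Finset.mem_filter.1 hρ).2
    exact G_long d1 d3 hδ2.le hK (hFG ρ p hp).2 (hFG ρ p' hp').2 (hS p (hFG ρ p hp).1).1.le
      (hS p' (hFG ρ p' hp').1).2.1.le e
  have hlong : ∀ ρ ∈ T.filter lg, (F ρ).card ≤ (C * m + 1) * (K * (K * m)) := by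
    intro ρ _
    refine (hcol ρ).trans (Nat.mul_le_mul_left _ ?_)
    have : (F ρ).image Prod.fst ⊆ Finset.range (K * (K * m)) := by
      intro u hu
      obtain ⟨p, hp, rfl⟩ := Finset.mem_image.1 hu
      exact Finset.mem_range.2 (hS p (hFG ρ p hp).1).1
    simpa using Finset.card_le_card this
  have hshort : ∀ ρ ∈ T.filter fun ρ => ¬ lg ρ,
      (F ρ).card ≤ (C * m + 1) * (2 * (K * m) + 1) := by
    intro ρ hρ
    refine (hcol ρ).trans (Nat.mul_le_mul_left _ ?_)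
    apply card_window
    intro u hu u' hu'
    obtain ⟨p, hp, rfl⟩ := Finset.mem_image.1 hu
    obtain ⟨p', hp', rfl⟩ := Finset.mem_image.1 hu'
    by_contra hlt
    exact (Finset.mem_filter.1 hρ).2 ⟨p, hp, p', hp', by omega⟩
  have e1 : S.card = ∑ ρ ∈ T, (F ρ).card := Finset.card_eq_sum_card_image f S
  rw [← Finset.sum_filter_add_sum_filter_not T lg] at e1
  have e2 := Finset.sum_le_card_nsmul _ _ _ hlong
  have e3 := Finset.sum_le_card_nsmul _ _ _ hshort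
  have e4 : (T.filter fun ρ => ¬ lg ρ).card ≤ 4 * (K * K) + 7 :=
    (Finset.card_filter_le _ _).trans hTc
  rw [smul_eq_mul] at e2 e3
  have hm1 : 1 ≤ m := by omega
  have i1 : C * m + 1 ≤ 2 * (C * m) := by nlinarith [Nat.mul_le_mul hC hm1]
  have i2 : 2 * (K * m) + 1 ≤ 3 * (K * m) := by nlinarith [Nat.mul_le_mul hK hm1]
  have i3 : 4 * K + 7 ≤ 11 * K := by omega
  have i4 : 4 * (K * K) + 7 ≤ 11 * (K * K) := by nlinarith [Nat.mul_le_mul hK hK]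
  have j1 : (T.filter lg).card * ((C * m + 1) * (K * (K * m))) ≤
      11 * K * (2 * (C * m) * (K * (K * m))) :=
    Nat.mul_le_mul (hLc.trans i3) (Nat.mul_le_mul_right _ i1)
  have j2 : (T.filter fun ρ => ¬ lg ρ).card * ((C * m + 1) * (2 * (K * m) + 1)) ≤
      11 * (K * K) * (2 * (C * m) * (3 * (K * m))) :=
    Nat.mul_le_mul (e4.trans i4) (Nat.mul_le_mul i1 i2)
  calc S.card ≤ 11 * K * (2 * (C * m) * (K * (K * m))) +
        11 * (K * K) * (2 * (C * m) * (3 * (K * m))) :=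
        e1.le.trans (Nat.add_le_add (e2.trans j1) (e3.trans j2))
    _ = _ := by ring

end Pool.Agent.MP_60c1b5_an.H73
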