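import Mathlib
import Pool.Agent.MP_60c1b5_an.H73.Count

set_option autoImplicit false

/-!
Averaging the site count against an invariant measure.
-/

namespace Pool.Agent.MP_60c1b5_an.H73

open Real MeasureTheory

theorem map_pow (μ : Measure UnitAddCircle) (a : ℕ)
    (h : Measure.map (fun x : UnitAddCircle => a • x) μ = μ) (n : ℕ) :
    Measure.map (fun x : UnitAddCircle => (a ^ n) • x) μ = μ := by
  induction n with
  | zero => simp
  | succ n ih =>
    have e : (fun x : UnitAddCircle => (a ^ (n + 1)) • x) =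
        (fun x : UnitAddCircle => (a ^ n) • x) ∘ fun x : UnitAddCircle => a • x := by
      funext x
      simp [pow_succ, mul_smul]
    rw [e, ← Measure.map_map (continuous_nsmul _).measurable (continuous_nsmul _).measurable, h, ih]

theorem avg (μ : Measure UnitAddCircle) [IsProbabilityMeasure μ]
    (h2 : Measure.map (fun x : UnitAddCircle => (2 : ℕ) • x) μ = μ)
    (h3 : Measure.map (fun x : UnitAddCircle => (3 : ℕ) • x) μ = μ)
    (E : Set UnitAddCircle) (hE : MeasurableSet E) (B : Finset (ℕ × ℕ)) (n : ℕ)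
    (h : ∀ x : UnitAddCircle, ∀ S ⊆ B, (∀ p ∈ S, (2 ^ p.1 * 3 ^ p.2 : ℕ) • x ∈ E) → S.card ≤ n) :
    B.card * μ E ≤ n := by
  classical
  have hm : ∀ p : ℕ × ℕ,
      MeasurableSet ((fun x : UnitAddCircle => (2 ^ p.1 * 3 ^ p.2 : ℕ) • x) ⁻¹' E) :=
    fun p => (continuous_nsmul _).measurable hE
  have h1 : ∀ p : ℕ × ℕ,
      μ ((fun x : UnitAddCircle => (2 ^ p.1 * 3 ^ p.2 : ℕ) • x) ⁻¹' E) = μ E := by
    intro p
    have e : (fun x : UnitAddCircle => (2 ^ p.1 * 3 ^ p.2 : ℕ) • x) =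
        (fun x : UnitAddCircle => (2 ^ p.1 : ℕ) • x) ∘ fun x : UnitAddCircle => (3 ^ p.2 : ℕ) • x := by
      funext x
      simp [mul_smul]
    rw [← Measure.map_apply (continuous_nsmul _).measurable hE, e,
      ← Measure.map_map (continuous_nsmul _).measurable (continuous_nsmul _).measurable,
      map_pow μ 3 h3, map_pow μ 2 h2]
  calc (B.card : ENNReal) * μ E = ∑ p ∈ B, μ E := by simp
    _ = ∑ p ∈ B, ∫⁻ x, ((fun x : UnitAddCircle => (2 ^ p.1 * 3 ^ p.2 : ℕ) • x) ⁻¹' E).indicator 1 x ∂μ := by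
      refine Finset.sum_congr rfl fun p _ => ?_
      rw [lintegral_indicator_one (hm p), h1]
    _ = ∫⁻ x, ∑ p ∈ B,
        ((fun x : UnitAddCircle => (2 ^ p.1 * 3 ^ p.2 : ℕ) • x) ⁻¹' E).indicator 1 x ∂μ :=
      (lintegral_finsetSum _ fun p _ => measurable_one.indicator (hm p)).symm
    _ ≤ ∫⁻ _, (n : ENNReal) ∂μ := by
      refine lintegral_mono fun x => ?_
      have := h x (B.filter fun p => (2 ^ p.1 * 3 ^ p.2 : ℕ) • x ∈ E) (Finset.filter_subset _ _)
        fun p hp => (Finset.mem_filter.1 hp).2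
      simp only [Set.indicator_apply, Set.mem_preimage, Pi.one_apply, Finset.sum_boole]
      exact_mod_cast this
    _ = n := by simp

theorem G_of_norm {C m : ℕ} {δ y : ℝ} {p : ℕ × ℕ} {q : ℕ} (hq : 1 ≤ q) (hqe : (q : ℝ) ≤ exp (δ * m))
    (h1 : exp (-(C * m : ℝ)) ≤ ‖q • (2 ^ p.1 * 3 ^ p.2 : ℕ) • (y : UnitAddCircle)‖)
    (h2 : ‖q • (2 ^ p.1 * 3 ^ p.2 : ℕ) • (y : UnitAddCircle)‖ ≤ exp (-(m : ℝ))) :
    ∃ ρ, G C δ m y ρ p := by
  rw [← AddCircle.coe_nsmul, ← AddCircle.coe_nsmul, UnitAddCircle.norm_eq] at h1 h2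
  set k := round (q • (2 ^ p.1 * 3 ^ p.2 : ℕ) • y) with hk
  have hq0 : (0 : ℝ) < q := by exact_mod_cast hq
  have hq1 : (0 : ℚ) < q := by exact_mod_cast hq
  have e : (q : ℝ) * 2 ^ p.1 * 3 ^ p.2 * |y - ((k / (q * 2 ^ p.1 * 3 ^ p.2) : ℚ) : ℝ)| =
      |q • (2 ^ p.1 * 3 ^ p.2 : ℕ) • y - k| := by
    rw [← abs_of_pos (by positivity : (0 : ℝ) < (q : ℝ) * 2 ^ p.1 * 3 ^ p.2), ← abs_mul]
    apply congrArg
    simp only [nsmul_eq_mul]
    push_cast
    field_simp
  refine ⟨k / (q * 2 ^ p.1 * 3 ^ p.2), q, hq, hqe, ⟨k, by field_simp⟩, ?_, ?_⟩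
  · rwa [e]
  · rwa [e]

theorem rare (C ε : ℝ) (hε : 0 < ε) : ∃ δ : ℝ, 0 < δ ∧ ∃ η0 : ℝ, 0 < η0 ∧
    ∀ μ : Measure UnitAddCircle, IsProbabilityMeasure μ →
      Measure.map (fun x : UnitAddCircle => (2 : ℕ) • x) μ = μ →
      Measure.map (fun x : UnitAddCircle => (3 : ℕ) • x) μ = μ →
      ∀ η : ℝ, 0 < η → η < η0 →
        μ {x | ∃ q : ℕ, 1 ≤ q ∧ (q : ℝ) ≤ η ^ (-δ) ∧ η ^ C ≤ ‖q • x‖ ∧ ‖q • x‖ ≤ η} ≤
          ENNReal.ofReal ε := by
  obtain ⟨C', hC'⟩ := exists_nat_ge C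
  obtain ⟨K, hK⟩ := exists_nat_ge (88 * (2 * C' + 1) / ε)
  obtain ⟨δ, hδ, m0, h⟩ := count (2 * C' + 1) (K + 1) (by omega) (by omega)
  refine ⟨δ / 2, by positivity, exp (-((m0 + 1 : ℕ) : ℝ)), exp_pos _, ?_⟩
  intro μ _ h2 h3 η hη hη0
  have l0 : ((m0 + 1 : ℕ) : ℝ) ≤ -log η := by
    have := (log_lt_iff_lt_exp hη).2 hη0
    linarith
  have l00 : 0 ≤ -log η := le_trans (by positivity) l0
  set m := ⌊-log η⌋₊ with hm
  have l1 : m0 + 1 ≤ m := Nat.le_floor l0
  have l2 : (m : ℝ) ≤ -log η := Nat.floor_le l00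
  have l3 : -log η ≤ 2 * m := by
    have a1 := Nat.lt_floor_add_one (-log η)
    have a2 : (1 : ℝ) ≤ m := by exact_mod_cast (by omega : 1 ≤ m)
    linarith
  set E := {x : UnitAddCircle | ∃ q : ℕ, 1 ≤ q ∧ (q : ℝ) ≤ η ^ (-(δ / 2)) ∧ η ^ C ≤ ‖q • x‖ ∧
    ‖q • x‖ ≤ η} with hE
  have hEm : MeasurableSet E := by
    rw [hE, Set.ofPred_exists]
    refine MeasurableSet.iUnion fun q => ?_
    have hc : Measurable fun x : UnitAddCircle => ‖q • x‖ := (continuous_nsmul q).norm.measurable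
    exact (MeasurableSet.const _).inter ((MeasurableSet.const _).inter
      ((measurableSet_le measurable_const hc).inter (measurableSet_le hc measurable_const)))
  set R := (K + 1) * ((K + 1) * m) with hR
  have key := avg μ h2 h3 E hEm (Finset.range R ×ˢ Finset.range R)
    (88 * (2 * C' + 1) * (K + 1) ^ 3 * m ^ 2) (by
      intro x S hS hx
      induction x using QuotientAddGroup.induction_on with
      | H y =>
        rw [← AddCircle.coe_fract] at hx
        refine h m (by omega) (Int.fract y)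
          (abs_le.2 ⟨by linarith [Int.fract_nonneg y], (Int.fract_lt_one y).le⟩) S fun p hp => ?_
        obtain ⟨a1, a2⟩ := Finset.mem_product.1 (hS hp)
        refine ⟨Finset.mem_range.1 a1, Finset.mem_range.1 a2, ?_⟩
        obtain ⟨q, b1, b2, b3, b4⟩ := hx p hp
        refine G_of_norm b1 (b2.trans ?_) (le_trans ?_ b3) (b4.trans ?_)
        · rw [rpow_def_of_pos hη]
          apply exp_le_exp.2
          nlinarith
        · rw [rpow_def_of_pos hη]
          apply exp_le_exp.2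
          push_cast
          have c0 : (0 : ℝ) ≤ C' := by positivity
          have c1 : (0 : ℝ) ≤ m := by positivity
          nlinarith [mul_le_mul_of_nonneg_left l3 c0, mul_le_mul_of_nonneg_left hC' l00]
        · rw [← log_le_iff_le_exp hη]
          linarith)
  rw [Finset.card_product, Finset.card_range] at key
  have hR0 : (0 : ℝ) < (R * R : ℕ) := by
    have : 0 < R := Nat.mul_pos (by omega) (Nat.mul_pos (by omega) (by omega))
    exact_mod_cast Nat.mul_pos this this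
  have key2 : ((R * R : ℕ) : ℝ) * μ.real E ≤ (88 * (2 * C' + 1) * (K + 1) ^ 3 * m ^ 2 : ℕ) := by
    have := ENNReal.toReal_mono (ENNReal.natCast_ne_top _) key
    rwa [ENNReal.toReal_mul, ENNReal.toReal_natCast, ENNReal.toReal_natCast] at this
  rw [← ENNReal.ofReal_toReal (measure_ne_top μ E)]
  apply ENNReal.ofReal_le_ofReal
  refine le_of_mul_le_mul_left (key2.trans ?_) hR0
  rw [div_le_iff₀ hε] at hK
  rw [hR]
  push_cast
  have c1 : (88 * (2 * C' + 1) : ℝ) ≤ (K + 1) * ε := by nlinarith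
  calc (88 * (2 * C' + 1) * (K + 1) ^ 3 * m ^ 2 : ℝ) ≤ (K + 1) * ε * (K + 1) ^ 3 * m ^ 2 := by gcongr
    _ = _ := by ring

end Pool.Agent.MP_60c1b5_an.H73
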