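import Mathlib
import Pool.Agent.MP_60c1b5_an.H73.Approx
import Pool.Agent.MP_60c1b5_an.H73.Defs

set_option autoImplicit false

/-!
The value of a compressible word is a short combination of atoms of small total size.
-/

namespace Pool.Agent.MP_60c1b5_an.H73

open Filter

/-- the integer written by a word -/
def val (p : ℕ) : List ℕ → ℤ
  | [] => 0
  | d :: w => d * p ^ w.length + val p w

theorem val_append (p : ℕ) (u v : List ℕ) : val p (u ++ v) = p ^ v.length * val p u + val p v := by
  induction u with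
  | nil => simp [val]
  | cons d u ih =>
    simp only [List.cons_append, val, ih, List.length_append]
    ring

theorem val_bound (p : ℕ) (w : List ℕ) (h : ∀ d ∈ w, d < p) :
    0 ≤ val p w ∧ val p w < p ^ w.length := by
  induction w with
  | nil => simp [val]
  | cons d w ih =>
    obtain ⟨h1, h2⟩ := ih fun x hx => h x (List.mem_cons_of_mem _ hx)
    have h3 : (d : ℤ) + 1 ≤ p := by exact_mod_cast h d List.mem_cons_self
    have h4 : (0 : ℤ) ≤ p ^ w.length := by positivity
    simp only [val, List.length_cons, pow_succ]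
    constructor
    · positivity
    · nlinarith

theorem atoms {κ : Type} [DecidableEq κ] (p L : ℕ) (A : ℕ → ℤ) (h0 : A 0 = 0)
    (hA : ∀ m ξ, m ≤ ξ → ξ ≤ L → |A ξ - p ^ (ξ - m) * A m| ≤ p ^ (ξ - m)) (cut : κ → ℕ)
    (hcut : ∀ t, cut t ≤ L) (s : Finset κ) :
    ∃ (c : κ → ℤ) (γ : κ → ℕ), (∀ t, |c t| ≤ p ^ γ t) ∧ ∑ t ∈ s, γ t ≤ s.sup cut ∧
      ∀ ξ, (ξ = 0 ∨ ∃ t ∈ s, cut t = ξ) →
        A ξ = ∑ t ∈ s, (if cut t ≤ ξ then (p : ℤ) ^ (ξ - cut t) else 0) * c t := by
  induction s using Finset.induction_on_max_value cut with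
  | empty =>
    refine ⟨0, 0, by simp, by simp, ?_⟩
    rintro ξ (rfl | ⟨t, ht, -⟩)
    · simpa using h0
    · simp at ht
  | insert a s ha hm ih =>
    obtain ⟨c, γ, h1, h2, h3⟩ := ih
    set m := s.sup cut with hmdef
    have hma : m ≤ cut a := Finset.sup_le hm
    have hle : ∀ t ∈ s, cut t ≤ m := fun t ht => Finset.le_sup ht
    have hm' : m = 0 ∨ ∃ t ∈ s, cut t = m := by
      rcases s.eq_empty_or_nonempty with rfl | hs
      · exact Or.inl rfl
      · obtain ⟨t, ht, e⟩ := Finset.exists_mem_eq_sup s hs cut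
        exact Or.inr ⟨t, ht, e.symm⟩
    refine ⟨Function.update c a (A (cut a) - p ^ (cut a - m) * A m),
      Function.update γ a (cut a - m), fun t => ?_, ?_, fun ξ hξ => ?_⟩
    · by_cases e : t = a
      · rw [e, Function.update_self, Function.update_self]
        exact hA _ _ hma (hcut a)
      · rw [Function.update_of_ne e, Function.update_of_ne e]
        exact h1 t
    · rw [Finset.sum_insert ha, Function.update_self, Finset.sup_insert,
        Finset.sum_congr rfl fun t ht => Function.update_of_ne (ne_of_mem_of_not_mem ht ha) _ _]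
      have : cut a ≤ cut a ⊔ s.sup cut := le_sup_left
      omega
    · rw [Finset.sum_insert ha, Function.update_self,
        Finset.sum_congr rfl fun t ht => by
          rw [Function.update_of_ne (ne_of_mem_of_not_mem ht ha)]]
      by_cases e : cut a ≤ ξ
      · have e' : ξ = cut a := by
          rcases hξ with rfl | ⟨t, ht, rfl⟩
          · omega
          · rcases Finset.mem_insert.1 ht with rfl | ht
            · rfl
            · exact le_antisymm (hm t ht) e
        rw [if_pos e, e', Nat.sub_self, pow_zero, one_mul, h3 m hm', Finset.mul_sum, sub_add,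
          ← Finset.sum_sub_distrib, Finset.sum_eq_zero, sub_zero]
        intro t ht
        have b1 := hle t ht
        rw [if_pos b1, if_pos (b1.trans hma), ← mul_assoc, ← pow_add, sub_eq_zero]
        congr 2
        omega
      · rw [if_neg e, zero_mul, zero_add]
        apply h3
        rcases hξ with rfl | ⟨t, ht, rfl⟩
        · exact Or.inl rfl
        · rcases Finset.mem_insert.1 ht with rfl | ht
          · exact absurd le_rfl e
          · exact Or.inr ⟨t, ht, rfl⟩

theorem phrases (p : ℕ) (D : List ℕ) (S : ℕ) : ∀ ps : List (List ℕ), ps.length ≤ S →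
    (∀ u ∈ ps, u <:+: D) → ∃ s l e : Fin S → ℕ,
      (∀ j, s j + l j ≤ D.length ∧ e j ≤ ps.flatten.length) ∧ val p ps.flatten =
        ∑ j, p ^ e j * (val p (D.take (s j + l j)) - p ^ l j * val p (D.take (s j))) := by
  induction S with
  | zero =>
    intro ps h _
    obtain rfl := List.length_eq_zero_iff.1 (Nat.le_zero.1 h)
    exact ⟨0, 0, 0, by simp, by simp [val]⟩
  | succ S ih =>
    intro ps h hu
    cases ps with
    | nil => exact ⟨0, 0, 0, by simp, by simp [val]⟩
    | cons u ps =>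
      obtain ⟨s, l, e, h1, h2⟩ := ih ps (by simpa using h) fun v hv => hu v (List.mem_cons_of_mem _ hv)
      obtain ⟨a, b, rfl⟩ := hu u List.mem_cons_self
      refine ⟨Fin.cons a.length s, Fin.cons u.length l, Fin.cons ps.flatten.length e, ?_, ?_⟩
      · refine Fin.cases ?_ fun j => ⟨(h1 j).1, (h1 j).2.trans ?_⟩ <;> simp
      · have e1 : (a ++ u ++ b).take (a.length + u.length) = a ++ u := by
          rw [← List.length_append, List.take_left]
        have e2 : (a ++ u ++ b).take a.length = a := by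
          rw [List.append_assoc, List.take_left]
        rw [Fin.sum_univ_succ, List.flatten_cons, val_append, h2]
        simp only [Fin.cons_zero, Fin.cons_succ, e1, e2, val_append]
        ring

/-- coefficient of an atom in a partial value -/
def cf (p a ξ : ℕ) : ℚ := if a ≤ ξ then (p : ℚ) ^ (ξ - a) else 0

theorem rep {p : ℕ} (hp : 0 < p) {w : List ℕ} {n S : ℕ} (h : Parse w n S) (hw : ∀ d ∈ w, d < p) :
    ∃ (c : Fin S × Bool → ℤ) (γ a : Fin S × Bool → ℕ) (s l e : Fin S → ℕ),
      (∀ t, |c t| ≤ p ^ γ t) ∧ ∑ t, γ t ≤ n ∧ (∀ j, s j + l j ≤ n ∧ e j ≤ w.length) ∧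
      (val p w : ℚ) =
        ∑ t, (∑ j, p ^ e j * (cf p (a t) (s j + l j) - p ^ l j * cf p (a t) (s j))) * c t := by
  obtain ⟨D, hD, ps, h1, h2, rfl⟩ := h
  set D' := D.map (· % p) with hD'
  have hl : D'.length ≤ n := by simpa [hD'] using hD
  have hlt : ∀ d ∈ D', d < p := by
    intro d hd
    obtain ⟨x, -, rfl⟩ := List.mem_map.1 hd
    exact Nat.mod_lt _ hp
  obtain ⟨s, l, e, h3, h4⟩ := phrases p D' S ps h1 fun u hu => by
    have := (h2 u hu).map (· % p)
    rwa [List.map_congr_left (g := id), List.map_id] at this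
    exact fun d hd => Nat.mod_eq_of_lt (hw d (List.mem_flatten.2 ⟨u, hu, hd⟩))
  set cut : Fin S × Bool → ℕ := fun t => if t.2 then s t.1 + l t.1 else s t.1 with hcut
  have hc : ∀ t, cut t ≤ D'.length := by
    intro t
    have := (h3 t.1).1
    simp only [hcut]
    split_ifs <;> omega
  obtain ⟨c, γ, a1, a2, a3⟩ := atoms p D'.length (fun i => val p (D'.take i)) (by simp [val]) (by
    intro m ξ h5 h6
    have e1 : D'.take ξ = D'.take m ++ (D'.take ξ).drop m := by
      conv_lhs => rw [← List.take_append_drop m (D'.take ξ), List.take_take, min_eq_left h5]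
    have e2 : ((D'.take ξ).drop m).length = ξ - m := by simp [min_eq_left h6]
    have := val_bound p ((D'.take ξ).drop m) fun d hd =>
      hlt d (List.mem_of_mem_take (List.mem_of_mem_drop hd))
    rw [e2] at this
    rw [e1, val_append, e2, add_sub_cancel_left, abs_of_nonneg this.1]
    exact this.2.le) cut hc Finset.univ
  refine ⟨c, γ, cut, s, l, e, a1, a2.trans ((Finset.sup_le fun t _ => hc t).trans hl),
    fun j => ⟨(h3 j).1.trans hl, (h3 j).2⟩, ?_⟩
  have a4 : ∀ t0, (val p (D'.take (cut t0)) : ℚ) = ∑ t, cf p (cut t) (cut t0) * c t := by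
    intro t0
    rw [a3 _ (Or.inr ⟨t0, Finset.mem_univ _, rfl⟩)]
    push_cast
    rfl
  rw [h4]
  push_cast
  simp only [Finset.sum_mul]
  rw [Finset.sum_comm]
  refine Finset.sum_congr rfl fun j _ => ?_
  have b1 := a4 (j, true)
  have b2 := a4 (j, false)
  simp only [hcut, if_true, Bool.false_eq_true, if_false] at b1 b2
  rw [b1, b2, Finset.mul_sum, ← Finset.sum_sub_distrib, Finset.mul_sum]
  refine Finset.sum_congr rfl fun t _ => ?_
  simp only [hcut]
  ring

theorem sp_of_parse (U : Ultrafilter ℕ) {p : ℕ} (hp : 0 < p) (M S : ℕ) (w : ℕ → List ℕ)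
    (h : ∀ᶠ n in (U : Filter ℕ), Parse (w n) n S ∧ (∀ d ∈ w n, d < p) ∧ (w n).length ≤ M * n) :
    ∃ (c : ℕ → Fin S × Bool → ℤ) (γ : ℕ → Fin S × Bool → ℕ), Atoms U p c γ ∧
      Sp U p c fun n => val p (w n) := by
  have hex : ∀ n, ∃ (c : Fin S × Bool → ℤ) (γ a : Fin S × Bool → ℕ) (s l e : Fin S → ℕ),
      Parse (w n) n S ∧ (∀ d ∈ w n, d < p) →
      (∀ t, |c t| ≤ p ^ γ t) ∧ ∑ t, γ t ≤ n ∧ (∀ j, s j + l j ≤ n ∧ e j ≤ (w n).length) ∧
      (val p (w n) : ℚ) =
        ∑ t, (∑ j, p ^ e j * (cf p (a t) (s j + l j) - p ^ l j * cf p (a t) (s j))) * c t := by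
    intro n
    by_cases hn : Parse (w n) n S ∧ ∀ d ∈ w n, d < p
    · obtain ⟨c, γ, a, s, l, e, h⟩ := rep hp hn.1 hn.2
      exact ⟨c, γ, a, s, l, e, fun _ => h⟩
    · exact ⟨0, 0, 0, 0, 0, 0, fun h => absurd h hn⟩
  choose c γ a s l e H using hex
  have H' := h.mono fun n hn => H n ⟨hn.1, hn.2.1⟩
  have hcf : ∀ (a ξ : ℕ → ℕ), (∀ᶠ n in (U : Filter ℕ), ξ n ≤ n) →
      InA U p fun n => cf p (a n) (ξ n) := fun a ξ hξ =>
    InA.ite _ (InA.pow 1 (hξ.mono fun n hn => by omega)) (InA.const 0)
  refine ⟨c, γ, H'.mono fun n hn => ⟨hn.1, hn.2.1⟩, _, fun t => InA.sum _ fun j _ => ?_,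
    H'.mono fun n hn => hn.2.2.2⟩
  refine (InA.pow M ?_).mul hp.ne' ((hcf _ _ ?_).sub hp.ne' ((InA.pow 1 ?_).mul hp.ne' (hcf _ _ ?_)))
  · filter_upwards [h, H'] with n h1 h2
    exact (h2.2.2.1 j).2.trans h1.2.2
  · exact H'.mono fun n hn => (hn.2.2.1 j).1
  · exact H'.mono fun n hn => by have := (hn.2.2.1 j).1; omega
  · exact H'.mono fun n hn => by have := (hn.2.2.1 j).1; omega

end Pool.Agent.MP_60c1b5_an.H73
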