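import Mathlib
import Pool.Agent.MP_60c1b5_an.H73.Rep

set_option autoImplicit false

/-!
A point whose expansion and the expansions of enough of its multiples are uniformly compressible
is rational.
-/

namespace Pool.Agent.MP_60c1b5_an.H73

open Filter Topology

/-- the representative in `[0, 1)` -/
noncomputable def rp (x : UnitAddCircle) : ℝ := AddCircle.equivIco 1 0 x

theorem rp_mem (x : UnitAddCircle) : 0 ≤ rp x ∧ rp x < 1 := by
  simpa [rp] using (AddCircle.equivIco 1 0 x).2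

theorem coe_rp (x : UnitAddCircle) : (rp x : UnitAddCircle) = x :=
  (AddCircle.equivIco 1 0).symm_apply_apply x

theorem rp_nsmul (k : ℕ) (x : UnitAddCircle) : rp (k • x) = Int.fract (k * rp x) := by
  conv_lhs => rw [← coe_rp x, ← AddCircle.coe_nsmul, rp, AddCircle.coe_equivIco_mk_apply]
  simp

theorem floor_split (k : ℕ) (t : ℝ) : ⌊k * t⌋ = k * ⌊t⌋ + ⌊k * Int.fract t⌋ := by
  rw [← Int.floor_intCast_add]
  congr 1
  push_cast
  rw [← mul_add, Int.floor_add_fract]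

theorem digit_cast (p : ℕ) (x : UnitAddCircle) (i : ℕ) :
    (digit p x i : ℤ) = ⌊p * Int.fract ((p : ℝ) ^ i * rp x)⌋ := by
  have : digit p x i = ⌊(p : ℝ) * rp (p ^ i • x)⌋₊ := rfl
  rw [this, rp_nsmul, Int.natCast_floor_eq_floor (mul_nonneg (by positivity) (Int.fract_nonneg _))]
  push_cast
  rfl

theorem digit_lt {p : ℕ} (hp : 0 < p) (x : UnitAddCircle) (i : ℕ) : digit p x i < p := by
  have h := rp_mem (p ^ i • x)
  have hp' : (0 : ℝ) < p := by exact_mod_cast hp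
  exact (Nat.floor_lt (mul_nonneg hp'.le h.1)).2 (mul_lt_of_lt_one_right hp' h.2)

theorem val_pre (p : ℕ) (x : UnitAddCircle) (N : ℕ) :
    val p ((List.range N).map (digit p x)) = ⌊(p : ℝ) ^ N * rp x⌋ := by
  induction N with
  | zero => simpa [val] using (Int.floor_eq_zero_iff.2 (rp_mem x)).symm
  | succ N ih =>
    rw [List.range_succ, List.map_append, val_append, ih, pow_succ' (p : ℝ), mul_assoc, floor_split,
      ← digit_cast]
    simp [val]

theorem floor_le_pow (q h : ℕ) {t : ℝ} (h0 : 0 ≤ t) (h1 : t < 1) :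
    |⌊((q ^ h : ℕ) : ℝ) * t⌋| ≤ (q : ℤ) ^ h := by
  rw [abs_of_nonneg (Int.floor_nonneg.2 (by positivity))]
  have : ((⌊((q ^ h : ℕ) : ℝ) * t⌋ : ℤ) : ℝ) ≤ ((q ^ h : ℕ) : ℝ) :=
    (Int.floor_le _).trans (mul_le_of_le_one_right (by positivity) h1.le)
  exact_mod_cast this

theorem fin_approx {p q : ℕ} (hp : p.Prime) (hq : 2 ≤ q) (hpq : p.Coprime q) {D M : ℕ} (S : ℕ)
    (hM : q * D + 5 ≤ M) : ∀ᶠ n in atTop, ∀ (x : UnitAddCircle) (h : ℕ), 3 * p * n ≤ h →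
      h ≤ D * n → Parse ((List.range (M * n)).map (digit p x)) n S →
      Parse ((List.range (M * n)).map (digit p (q ^ h • x))) n S →
      ∃ g a : ℤ, g ≠ 0 ∧ |(g : ℝ)| ≤ (p : ℝ) ^ (4 * n) ∧
        |g * rp x - a| ≤ 2 * (p : ℝ) ^ (9 * n) / (p : ℝ) ^ (M * n) := by
  by_contra hcon
  rw [not_eventually, frequently_iff_neBot] at hcon
  obtain ⟨U, hU⟩ := Ultrafilter.exists_le _ (h := hcon)
  have h1 := (hU.trans inf_le_right) (mem_principal_self _)
  have h2 : ∀ᶠ n in (U : Filter ℕ), ∃ (x : UnitAddCircle) (h : ℕ), 3 * p * n ≤ h ∧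
      h ≤ D * n ∧ Parse ((List.range (M * n)).map (digit p x)) n S ∧
      Parse ((List.range (M * n)).map (digit p (q ^ h • x))) n S ∧
      ¬ ∃ g a : ℤ, g ≠ 0 ∧ |(g : ℝ)| ≤ (p : ℝ) ^ (4 * n) ∧
        |g * rp x - a| ≤ 2 * (p : ℝ) ^ (9 * n) / (p : ℝ) ^ (M * n) := by
    filter_upwards [h1] with n hn
    simpa only [not_forall, exists_prop] using hn
  obtain ⟨x, h2⟩ := h2.choice
  obtain ⟨h, h2⟩ := h2.choice
  have hd : ∀ (y : UnitAddCircle) (n : ℕ), (∀ d ∈ (List.range (M * n)).map (digit p y), d < p) ∧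
      ((List.range (M * n)).map (digit p y)).length ≤ M * n := by
    intro y n
    refine ⟨fun d hd => ?_, by simp⟩
    obtain ⟨i, -, rfl⟩ := List.mem_map.1 hd
    exact digit_lt hp.pos y i
  obtain ⟨b, β, hb, hY⟩ := sp_of_parse U hp.pos M S _ (h2.mono fun n hn => ⟨hn.2.2.1, hd _ n⟩)
  obtain ⟨c, γ, hc, hY'⟩ := sp_of_parse U hp.pos M S _ (h2.mono fun n hn => ⟨hn.2.2.2.1, hd _ n⟩)
  have key := approx (hU.trans inf_le_left) hp hq hpq hb hc hM (h2.mono fun n hn => ⟨hn.1, hn.2.1⟩)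
    _ _ (fun n => ⌊((q ^ h n : ℕ) : ℝ) * rp (x n)⌋)
    (fun n => ⌊((q ^ h n : ℕ) : ℝ) * Int.fract ((p : ℝ) ^ (M * n) * rp (x n))⌋) hY hY'
    (Eventually.of_forall fun n => ⟨floor_le_pow _ _ (rp_mem _).1 (rp_mem _).2,
      floor_le_pow _ _ (Int.fract_nonneg _) (Int.fract_lt_one _), by
        have e1 := floor_split (q ^ h n) ((p : ℝ) ^ (M * n) * rp (x n))
        have e2 := floor_split (p ^ (M * n)) (((q ^ h n : ℕ) : ℝ) * rp (x n))
        rw [val_pre, val_pre, rp_nsmul]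
        rw [mul_left_comm] at e1
        push_cast at e1 e2 ⊢
        rw [← e1, ← e2]⟩)
  obtain ⟨n, ⟨g, a, a1, a2, a3⟩, -, -, -, -, a4⟩ := (key.and h2).exists
  have hp0 : (0 : ℝ) < p := by exact_mod_cast hp.pos
  have b1 : |(g : ℝ)| ≤ (p : ℝ) ^ (4 * n) := by exact_mod_cast a2
  refine a4 ⟨g, a, a1, b1, ?_⟩
  rw [val_pre] at a3
  have b2 : |(p : ℝ) ^ (M * n) * a - g * ⌊(p : ℝ) ^ (M * n) * rp (x n)⌋| ≤ (p : ℝ) ^ (9 * n) := by
    exact_mod_cast a3
  have b3 : (p : ℝ) ^ (4 * n) ≤ (p : ℝ) ^ (9 * n) :=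
    pow_le_pow_right₀ (by exact_mod_cast hp.one_le) (by omega)
  have b4 : |g * Int.fract ((p : ℝ) ^ (M * n) * rp (x n))| ≤ (p : ℝ) ^ (9 * n) := by
    rw [abs_mul, abs_of_nonneg (Int.fract_nonneg ((p : ℝ) ^ (M * n) * rp (x n)))]
    exact (mul_le_of_le_one_right (abs_nonneg _) (Int.fract_lt_one _).le).trans (b1.trans b3)
  rw [le_div_iff₀ (by positivity), ← abs_of_pos (by positivity : (0 : ℝ) < (p : ℝ) ^ (M * n)),
    ← abs_mul]
  have e : (g * rp (x n) - a) * (p : ℝ) ^ (M * n) = g * Int.fract ((p : ℝ) ^ (M * n) * rp (x n)) -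
      ((p : ℝ) ^ (M * n) * a - g * ⌊(p : ℝ) ^ (M * n) * rp (x n)⌋) := by
    rw [Int.fract]
    ring
  rw [e]
  linarith [abs_sub (g * Int.fract ((p : ℝ) ^ (M * n) * rp (x n)))
    ((p : ℝ) ^ (M * n) * a - g * ⌊(p : ℝ) ^ (M * n) * rp (x n)⌋)]

theorem rat_of_chain (y : ℝ) (g a : ℕ → ℤ) (B ε : ℕ → ℝ) (hg : ∀ k, g k ≠ 0)
    (hB : ∀ k, |(g k : ℝ)| ≤ B k) (hε : ∀ k, |g k * y - a k| ≤ ε k)
    (h : ∀ k, B (k + 1) * ε k + B k * ε (k + 1) < 1) (ht : Tendsto ε atTop (𝓝 0)) :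
    g 0 * y = a 0 := by
  have h1 : ∀ k, a k * g (k + 1) = a (k + 1) * g k := by
    intro k
    have e : ((a k * g (k + 1) - a (k + 1) * g k : ℤ) : ℝ) =
        g k * (g (k + 1) * y - a (k + 1)) - g (k + 1) * (g k * y - a k) := by
      push_cast
      ring
    have b1 := mul_le_mul (hB k) (hε (k + 1)) (abs_nonneg _) ((abs_nonneg _).trans (hB k))
    have b2 := mul_le_mul (hB (k + 1)) (hε k) (abs_nonneg _) ((abs_nonneg _).trans (hB (k + 1)))
    rw [← abs_mul] at b1 b2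
    have b3 : |((a k * g (k + 1) - a (k + 1) * g k : ℤ) : ℝ)| < 1 := by
      rw [e]
      linarith [abs_sub ((g k : ℝ) * (g (k + 1) * y - a (k + 1))) (g (k + 1) * (g k * y - a k)), h k]
    have b4 : |a k * g (k + 1) - a (k + 1) * g k| < 1 := by exact_mod_cast b3
    exact sub_eq_zero.1 (Int.abs_lt_one_iff.1 b4)
  have h2 : ∀ k, a 0 * g k = a k * g 0 := by
    intro k
    induction k with
    | zero => rfl
    | succ k ih =>
      apply mul_left_cancel₀ (hg k)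
      linear_combination g (k + 1) * ih + g 0 * h1 k
  have h3 : ∀ k, |g 0 * y - a 0| ≤ |(g 0 : ℝ)| * ε k := by
    intro k
    have b1 : (1 : ℝ) ≤ |(g k : ℝ)| := by exact_mod_cast Int.one_le_abs (hg k)
    have b2 : (a 0 : ℝ) * g k = a k * g 0 := by exact_mod_cast h2 k
    calc |g 0 * y - a 0| ≤ |(g k : ℝ)| * |g 0 * y - a 0| := le_mul_of_one_le_left (abs_nonneg _) b1
      _ = |(g 0 : ℝ)| * |g k * y - a k| := by
        rw [← abs_mul, ← abs_mul]
        congr 1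
        linear_combination -b2
      _ ≤ _ := by
        gcongr
        exact hε k
  have h4 := ge_of_tendsto' (ht.const_mul |(g 0 : ℝ)|) h3
  rw [mul_zero] at h4
  exact sub_eq_zero.1 (abs_nonpos_iff.1 h4)

theorem fin_order {p q : ℕ} (hp : p.Prime) (hq : 2 ≤ q) (hpq : p.Coprime q) {lam M : ℕ}
    (hl : 2 ≤ lam) (S n0 : ℕ) (hM : q * (3 * p * lam) + 4 * lam + 12 ≤ M) (x : UnitAddCircle)
    (hx : ∀ n, n0 ≤ n → Parse ((List.range (M * n)).map (digit p x)) n S)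
    (hr : ∀ k, ∃ h, 3 * p * lam ^ (k + 1) ≤ h ∧ h < 3 * p * lam ^ (k + 2) ∧
      ∀ n, n0 ≤ n → Parse ((List.range (M * n)).map (digit p (q ^ h • x))) n S) :
    IsOfFinAddOrder x := by
  obtain ⟨n1, h1⟩ := eventually_atTop.1 (fin_approx hp hq hpq (D := 3 * p * lam) (M := M) S (by omega))
  have hpow : ∀ k, k ≤ lam ^ k := fun k => (Nat.lt_pow_self hl).le
  have hex : ∀ k, ∃ g a : ℤ, g ≠ 0 ∧ |(g : ℝ)| ≤ (p : ℝ) ^ (4 * lam ^ (k + n0 + n1 + 1)) ∧
      |g * rp x - a| ≤ 2 * (p : ℝ) ^ (9 * lam ^ (k + n0 + n1 + 1)) /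
        (p : ℝ) ^ (M * lam ^ (k + n0 + n1 + 1)) := by
    intro k
    obtain ⟨h, a1, a2, a3⟩ := hr (k + n0 + n1)
    have := hpow (k + n0 + n1 + 1)
    refine h1 _ (by omega) x h a1 ?_ (hx _ (by omega)) (a3 _ (by omega))
    rw [pow_succ' lam (k + n0 + n1 + 1), ← mul_assoc] at a2
    exact a2.le
  choose g a h2 h3 h4 using hex
  have hp2 : (2 : ℝ) ≤ p := by exact_mod_cast hp.two_le
  have hfrac : ∀ s t u : ℕ, s + u ≤ t → (p : ℝ) ^ s / (p : ℝ) ^ t ≤ (1 / 2) ^ u := by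
    intro s t u h
    rw [one_div_pow, div_le_div_iff₀ (by positivity) (by positivity), one_mul]
    calc (p : ℝ) ^ s * 2 ^ u ≤ (p : ℝ) ^ s * p ^ u := by gcongr
      _ ≤ _ := by
        rw [← pow_add]
        exact pow_le_pow_right₀ (by linarith) h
  have key := rat_of_chain (rp x) g a _ _ h2 h3 h4 (by
    intro k
    have e : k + 1 + n0 + n1 + 1 = k + n0 + n1 + 1 + 1 := by ring
    rw [e, pow_succ lam]
    obtain ⟨n, hn⟩ : ∃ n, n = lam ^ (k + n0 + n1 + 1) := ⟨_, rfl⟩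
    have n1 : 1 ≤ n := hn ▸ Nat.one_le_pow _ _ (by omega)
    rw [← hn]
    have m1 : (4 * lam + 12) * n ≤ M * n := Nat.mul_le_mul_right _ (by omega)
    have m2 : (4 * lam + 12) * (n * lam) ≤ M * (n * lam) := Nat.mul_le_mul_right _ (by omega)
    have m3 : n ≤ n * lam := Nat.le_mul_of_pos_right _ (by omega)
    have m4 : n * lam ≤ lam * (n * lam) := Nat.le_mul_of_pos_left _ (by omega)
    have b1 := hfrac (4 * (n * lam) + 9 * n) (M * n) 3 (by nlinarith)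
    have b2 := hfrac (4 * n + 9 * (n * lam)) (M * (n * lam)) 3 (by nlinarith)
    rw [pow_add] at b1 b2
    have e1 : ∀ A B C : ℝ, A * (2 * B / C) = 2 * (A * B / C) := fun A B C => by ring
    rw [e1, e1]
    linarith) (by
    have t := (tendsto_pow_atTop_nhds_zero_of_lt_one (r := (1 / 2 : ℝ)) (by norm_num)
      (by norm_num)).const_mul 2
    rw [mul_zero] at t
    refine squeeze_zero (fun k => by positivity) (fun k => ?_) t
    rw [mul_div_assoc]
    have := hpow (k + n0 + n1 + 1)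
    have m1 : 10 * lam ^ (k + n0 + n1 + 1) ≤ M * lam ^ (k + n0 + n1 + 1) :=
      Nat.mul_le_mul_right _ (by omega)
    exact mul_le_mul_of_nonneg_left (hfrac _ _ k (by omega)) (by norm_num))
  rw [isOfFinAddOrder_iff_zsmul_eq_zero]
  refine ⟨g 0, h2 0, ?_⟩
  rw [← coe_rp x, ← AddCircle.coe_zsmul, zsmul_eq_mul, key, AddCircle.coe_eq_zero_iff]
  exact ⟨a 0, by simp⟩

end Pool.Agent.MP_60c1b5_an.H73
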