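import Mathlib
import Pool.Agent.MP_60c1b5_an.H73.Point

set_option autoImplicit false

/-!
Recurrence at all scales, and the measure theoretic conclusions.
-/

namespace Pool.Agent.MP_60c1b5_an.H73

open Filter Topology MeasureTheory
open scoped ENNReal

theorem returns {X : Type} [MeasurableSpace X] (μ : Measure X) [IsProbabilityMeasure μ]
    {T : X → X} (hT : MeasurePreserving T μ μ) {L : Set X} (hL : MeasurableSet L) (r D : ℕ)
    (hr : 1 ≤ r) (hD : 1 ≤ D) (h : 2 < r * μ L) :
    ∃ y ∈ L, ∀ k, ∃ h, D * (r + 1) ^ (k + 1) ≤ h ∧ h < D * (r + 1) ^ (k + 2) ∧ T^[h] y ∈ L := by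
  classical
  set F : ℕ → Set X := fun t => L ∩ ⋂ s ∈ Finset.Icc 1 t, (T^[s] ⁻¹' L)ᶜ with hF
  have hFm : ∀ t, MeasurableSet (F t) := fun t =>
    hL.inter (Finset.measurableSet_biInter _ fun s _ => ((hT.iterate s).measurable hL).compl)
  have hFi : ∀ t y, y ∈ F t ↔ y ∈ L ∧ ∀ s, 1 ≤ s → s ≤ t → T^[s] y ∉ L := by
    intro t y
    simp [hF]
  have hsum : ∀ a N, ∑ t ∈ Finset.Ico a N, μ (F t) ≤ 1 := by
    intro a N
    have e : ∀ t, μ (F t) = μ (T^[N - t] ⁻¹' F t) := fun t =>
      ((hT.iterate _).measure_preimage (hFm t).nullMeasurableSet).symm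
    simp only [e]
    rw [← measure_biUnion_finset _ fun t _ => (hT.iterate _).measurable (hFm t)]
    · exact prob_le_one
    · have key : ∀ t t', t < t' → t' < N → Disjoint (T^[N - t] ⁻¹' F t) (T^[N - t'] ⁻¹' F t') := by
        intro t t' h1 h2
        rw [Set.disjoint_left]
        intro y a1 a2
        refine ((hFi _ _).1 a2).2 (t' - t) (by omega) (by omega) ?_
        rw [← Function.iterate_add_apply, show t' - t + (N - t') = N - t by omega]
        exact ((hFi _ _).1 a1).1
      intro t ht t' ht' hne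
      rcases lt_or_gt_of_ne hne with h1 | h1
      · exact key t t' h1 (Finset.mem_Ico.1 ht').2
      · exact (key t' t h1 (Finset.mem_Ico.1 ht).2).symm
  by_contra hcon
  push Not at hcon
  set u : ℕ → ℕ := fun k => r * (D * (r + 1) ^ k) with hu
  set bad : ℕ → Set X := fun k => ⋃ s ∈ Finset.range (D * (r + 1) ^ (k + 1)),
    T^[s] ⁻¹' F (u (k + 1)) with hbad
  have h1 : L ⊆ ⋃ k, bad k := by
    intro y hy
    obtain ⟨k, hk⟩ := hcon y hy
    obtain ⟨a, ha⟩ : ∃ a, a = D * (r + 1) ^ (k + 1) := ⟨_, rfl⟩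
    have a0 : 0 < a := by rw [ha]; positivity
    have a1 : D * (r + 1) ^ (k + 2) = r * a + a := by rw [ha]; ring
    set s := Nat.findGreatest (fun s => T^[s] y ∈ L) (a - 1) with hs
    have s1 : s ≤ a - 1 := Nat.findGreatest_le _
    refine Set.mem_iUnion.2 ⟨k, Set.mem_iUnion₂.2 ⟨s, Finset.mem_range.2 (by omega), ?_⟩⟩
    refine (hFi _ _).2 ⟨Nat.findGreatest_spec (P := fun s => T^[s] y ∈ L) (Nat.zero_le _) hy,
      fun s' b1 b2 => ?_⟩
    rw [← Function.iterate_add_apply]
    by_cases c : s' + s ≤ a - 1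
    · exact Nat.findGreatest_is_greatest (P := fun s => T^[s] y ∈ L) (by omega) c
    · simp only [hu, ← ha] at b2
      exact hk _ (by omega) (by omega)
  have h2 : ∀ k, r * μ (bad k) ≤ 2 * ((u (k + 1) - u k) • μ (F (u (k + 1)))) := by
    intro k
    have b1 : μ (bad k) ≤ (D * (r + 1) ^ (k + 1) : ℕ) * μ (F (u (k + 1))) := by
      refine (measure_biUnion_finset_le _ _).trans (le_of_eq ?_)
      rw [Finset.sum_congr rfl fun s _ =>
        (hT.iterate s).measure_preimage (hFm _).nullMeasurableSet]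
      simp
    have b2 : r * (D * (r + 1) ^ (k + 1)) ≤ 2 * (u (k + 1) - u k) := by
      have : u (k + 1) = u k + r * u k := by simp only [hu]; ring
      have e : r * (D * (r + 1) ^ (k + 1)) = u (k + 1) := rfl
      have := Nat.le_mul_of_pos_left (u k) hr
      omega
    calc r * μ (bad k) ≤ r * ((D * (r + 1) ^ (k + 1) : ℕ) * μ (F (u (k + 1)))) := by gcongr
      _ = (r * (D * (r + 1) ^ (k + 1)) : ℕ) * μ (F (u (k + 1))) := by
        rw [← mul_assoc, Nat.cast_mul r]
      _ ≤ (2 * (u (k + 1) - u k) : ℕ) * μ (F (u (k + 1))) := by gcongr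
      _ = _ := by
        rw [nsmul_eq_mul, ← mul_assoc, Nat.cast_mul]
        rfl
  have h3 : ∀ n, ∑ k ∈ Finset.range n, r * μ (bad k) ≤ 2 := by
    intro n
    refine (Finset.sum_le_sum fun k _ => h2 k).trans ?_
    rw [← Finset.mul_sum]
    have := Finset.sum_schlomilch_le' (f := fun t => μ (F t)) (u := u) (fun m n _ hmn =>
      measure_mono fun y hy => (hFi _ _).2 ⟨((hFi _ _).1 hy).1,
        fun s b1 b2 => ((hFi _ _).1 hy).2 s b1 (b2.trans hmn)⟩)
      (fun k => by simp only [hu]; positivity)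
      (fun a b hab => Nat.mul_le_mul_left _ (Nat.mul_le_mul_left _
        (Nat.pow_le_pow_right (by omega) hab))) n
    simpa using mul_le_mul_right (this.trans (hsum _ _)) 2
  have h4 : r * μ L ≤ 2 := by
    calc r * μ L ≤ r * ∑' k, μ (bad k) := by
          gcongr
          exact (measure_mono h1).trans (measure_iUnion_le _)
      _ = ∑' k, r * μ (bad k) := ENNReal.tsum_mul_left.symm
      _ ≤ 2 := ENNReal.tsum_le_of_sum_range_le h3
  exact absurd h (not_lt.2 h4)

theorem measurable_digit (p i : ℕ) : Measurable fun x => digit p x i := by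
  have h : Measurable fun x : UnitAddCircle => (AddCircle.equivIco 1 0 x : ℝ) :=
    measurable_subtype_coe.comp (AddCircle.measurableEquivIco 1 0).measurable
  exact Nat.measurable_floor.comp
    (measurable_const.mul (h.comp (continuous_nsmul (p ^ i)).measurable))

theorem measurableSet_parse (p N n S : ℕ) :
    MeasurableSet {x | Parse ((List.range N).map (digit p x)) n S} := by
  have h : Measurable fun x => fun i : Fin N => digit p x i :=
    measurable_pi_lambda _ fun i => measurable_digit p i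
  have e : {x | Parse ((List.range N).map (digit p x)) n S} =
      (fun x => fun i : Fin N => digit p x i) ⁻¹' {f | Parse (List.ofFn f) n S} := by
    ext x
    simp only [Set.mem_ofPred_eq, Set.mem_preimage]
    rw [List.ofFn_eq_map, ← List.map_coe_finRange_eq_range, List.map_map]
    rfl
  rw [e]
  exact h (Set.to_countable _).measurableSet

theorem countable_fin : {x : UnitAddCircle | IsOfFinAddOrder x}.Countable := by
  refine (Set.countable_range fun r : ℚ => ((r : ℝ) : UnitAddCircle)).mono fun x hx => ?_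
  rw [← coe_rp x] at hx ⊢
  obtain ⟨r, hr⟩ := AddCircle.isOfFinAddOrder_iff_exists_rat_eq_div.1 hx
  exact ⟨r, by simp [hr]⟩

theorem Parse.mono {w : List ℕ} {n S S' : ℕ} (h : Parse w n S) (hS : S ≤ S') : Parse w n S' := by
  obtain ⟨D, h1, ps, h2, h3⟩ := h
  exact ⟨D, h1, ps, h2.trans hS, h3⟩

theorem ae_fin_order {p q : ℕ} (hp : p.Prime) (hq : 2 ≤ q) (hpq : p.Coprime q)
    (μ : Measure UnitAddCircle) [IsProbabilityMeasure μ]
    (hT : Measure.map (fun x : UnitAddCircle => q • x) μ = μ) :
    ∀ᵐ x ∂μ, Compressible p x → IsOfFinAddOrder x := by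
  by_contra hcon
  set E := {x : UnitAddCircle | ¬ (Compressible p x → IsOfFinAddOrder x)} with hE
  have h0 : μ E ≠ 0 := fun h => hcon (ae_iff.2 h)
  obtain ⟨r, hr⟩ := ENNReal.exists_nat_mul_gt h0 (b := 2) (by norm_num)
  have hr1 : 1 ≤ r := by
    rcases Nat.eq_zero_or_pos r with rfl | h
    · simp at hr
    · exact h
  set M := q * (3 * p * (r + 1)) + 4 * (r + 1) + 12 with hM
  set L : ℕ → Set UnitAddCircle := fun j => {x | IsOfFinAddOrder x}ᶜ ∩
    ⋂ n, {x | j ≤ n → Parse ((List.range (M * n)).map (digit p x)) n j} with hL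
  have hLm : ∀ j, MeasurableSet (L j) := fun j =>
    countable_fin.measurableSet.compl.inter (MeasurableSet.iInter fun n => by
      by_cases h : j ≤ n
      · simpa [h] using measurableSet_parse p (M * n) n j
      · simp [h])
  have hLi : ∀ j x, x ∈ L j ↔ ¬ IsOfFinAddOrder x ∧
      ∀ n, j ≤ n → Parse ((List.range (M * n)).map (digit p x)) n j := by
    intro j x
    simp [hL]
  have hmono : Monotone L := fun j j' hj x hx => (hLi _ _).2 ⟨((hLi _ _).1 hx).1,
    fun n hn => (((hLi _ _).1 hx).2 n (hj.trans hn)).mono hj⟩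
  have hsub : E ⊆ ⋃ j, L j := by
    intro x hx
    obtain ⟨h1, h2⟩ := Classical.not_imp.1 hx
    obtain ⟨S, hS⟩ := h1 M
    obtain ⟨n0, hn0⟩ := eventually_atTop.1 hS
    exact Set.mem_iUnion.2 ⟨S + n0, (hLi _ _).2 ⟨h2, fun n hn =>
      (hn0 n (by omega)).mono (by omega)⟩⟩
  have h1 : 2 < ⨆ j, r * μ (L j) := by
    rw [← ENNReal.mul_iSup, ← hmono.measure_iUnion]
    exact hr.trans_le (by gcongr)
  obtain ⟨j, hj⟩ := lt_iSup_iff.1 h1
  obtain ⟨y, hy, h2⟩ := returns μ (T := fun x : UnitAddCircle => q • x)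
    ⟨(continuous_nsmul q).measurable, hT⟩ (hLm j) r (3 * p) hr1 (by have := hp.pos; omega) hj
  refine ((hLi _ _).1 hy).1 (fin_order hp hq hpq (lam := r + 1) (M := M) (by omega) j j le_rfl y
    ((hLi _ _).1 hy).2 fun k => ?_)
  obtain ⟨h, a1, a2, a3⟩ := h2 k
  rw [smul_iterate_apply] at a3
  exact ⟨h, a1, a2, ((hLi _ _).1 a3).2⟩

theorem restrict_inv (μ : Measure UnitAddCircle) [IsProbabilityMeasure μ] (k : ℕ)
    (hT : Measure.map (fun x : UnitAddCircle => k • x) μ = μ) (t : ℝ≥0∞)
    (hA : MeasurableSet {x | t ≤ μ {x}}) :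
    Measure.map (fun x : UnitAddCircle => k • x) (ProbabilityTheory.cond μ {x | t ≤ μ {x}}) =
      ProbabilityTheory.cond μ {x | t ≤ μ {x}} := by
  have hm : Measurable fun x : UnitAddCircle => k • x := (continuous_nsmul k).measurable
  have hP : MeasurePreserving (fun x : UnitAddCircle => k • x) μ μ := ⟨hm, hT⟩
  set A := {x | t ≤ μ {x}}
  have h1 : A ⊆ (fun x : UnitAddCircle => k • x) ⁻¹' A := by
    intro x hx
    refine le_trans (show t ≤ μ {x} from hx) ?_
    rw [← hP.measure_preimage (measurableSet_singleton (k • x)).nullMeasurableSet]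
    exact measure_mono (Set.singleton_subset_iff.2 rfl)
  have h2 : A =ᵐ[μ] (fun x : UnitAddCircle => k • x) ⁻¹' A :=
    ae_eq_of_subset_of_measure_ge h1 (hP.measure_preimage hA.nullMeasurableSet).le
      hA.nullMeasurableSet (measure_ne_top _ _)
  rw [ProbabilityTheory.cond, Measure.map_smul]
  congr 1
  conv_lhs => rw [Measure.restrict_congr_set h2]
  rw [← Measure.restrict_map hm hA, hT]

theorem mem_closure_of_countable (μ : ProbabilityMeasure UnitAddCircle)
    (h2 : Measure.map (fun x : UnitAddCircle => (2 : ℕ) • x) (μ : Measure UnitAddCircle) = μ)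
    (h3 : Measure.map (fun x : UnitAddCircle => (3 : ℕ) • x) (μ : Measure UnitAddCircle) = μ)
    {C : Set UnitAddCircle} (hC : C.Countable) (h : ∀ᵐ x ∂(μ : Measure UnitAddCircle), x ∈ C) :
    μ ∈ closure {ν : ProbabilityMeasure UnitAddCircle |
      Measure.map (fun x : UnitAddCircle => (2 : ℕ) • x) (ν : Measure UnitAddCircle)
          = (ν : Measure UnitAddCircle) ∧
      Measure.map (fun x : UnitAddCircle => (3 : ℕ) • x) (ν : Measure UnitAddCircle)
          = (ν : Measure UnitAddCircle) ∧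
      ∃ S : Finset UnitAddCircle, (ν : Measure UnitAddCircle) ((↑S : Set UnitAddCircle)ᶜ) = 0} := by
  set m : Measure UnitAddCircle := (μ : Measure UnitAddCircle) with hm
  set A : ℕ → Set UnitAddCircle := fun j => {x | ((j : ℝ≥0∞))⁻¹ ≤ m {x}} with hA
  have hfin : ∀ j, (A j).Finite := fun j => ENNReal.finite_const_le_of_tsum_ne_top
    (ne_top_of_le_ne_top (measure_ne_top m _) (tsum_measure_le_measure_univ
      (fun x => (measurableSet_singleton x).nullMeasurableSet)
      fun x y hxy => (Set.disjoint_singleton.2 hxy).aedisjoint)) (by simp)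
  have hAm : ∀ j, MeasurableSet (A j) := fun j => (hfin j).measurableSet
  have hmono : Monotone A := fun j j' hj x hx =>
    le_trans (ENNReal.inv_le_inv.2 (by exact_mod_cast hj)) hx
  have hfull : ∀ᵐ x ∂m, x ∈ ⋃ j, A j := by
    have h1 : m {x ∈ C | m {x} = 0} = 0 := by
      rw [← Set.biUnion_of_singleton {x ∈ C | m {x} = 0},
        measure_biUnion_null_iff (hC.mono (Set.sep_subset _ _))]
      exact fun x hx => hx.2
    filter_upwards [h, compl_mem_ae_iff.2 h1] with x a1 a2
    obtain ⟨j, hj⟩ := ENNReal.exists_inv_nat_lt (a := m {x}) fun e => a2 ⟨a1, e⟩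
    exact Set.mem_iUnion.2 ⟨j, hj.le⟩
  have hlim : Tendsto (fun j => m (A j)) atTop (𝓝 1) := by
    have := tendsto_measure_iUnion_atTop (μ := m) hmono
    rwa [(prob_compl_eq_zero_iff (MeasurableSet.iUnion hAm)).1 hfull] at this
  obtain ⟨j0, hj0⟩ := eventually_atTop.1 (hlim.eventually_ne one_ne_zero)
  have hne : ∀ j, m (A (j + j0)) ≠ 0 := fun j => hj0 _ (by omega)
  refine mem_closure_of_tendsto (b := atTop) (f := fun j : ℕ =>
    (⟨ProbabilityTheory.cond m (A (j + j0)), ProbabilityTheory.cond_isProbabilityMeasure (hne j)⟩ :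
      ProbabilityMeasure UnitAddCircle)) ?_ (Eventually.of_forall fun j =>
    ⟨restrict_inv m 2 h2 _ (hAm _), restrict_inv m 3 h3 _ (hAm _), (hfin (j + j0)).toFinset, ?_⟩)
  · rw [ProbabilityMeasure.tendsto_iff_forall_integral_tendsto]
    intro f
    have t1 := tendsto_setIntegral_of_monotone (μ := m) (f := f) hAm hmono
      (f.integrable m).integrableOn
    rw [Measure.restrict_eq_self_of_ae_mem hfull] at t1
    have t2 := (ENNReal.tendsto_toReal (by simp)).comp hlim.inv
    have t3 := (t2.smul t1).comp (tendsto_add_atTop_nat j0)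
    simp only [inv_one, ENNReal.toReal_one, one_smul] at t3
    refine t3.congr fun j => ?_
    simp only [ProbabilityMeasure.coe_mk, ProbabilityTheory.cond, integral_smul_measure]
    rfl
  · simp only [ProbabilityMeasure.coe_mk, Set.Finite.coe_toFinset]
    rw [ProbabilityTheory.cond_apply (hAm _)]
    simp

end Pool.Agent.MP_60c1b5_an.H73
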